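import Mathlib

/-!
# Thick-thin, algebra: alternating double sums, lists with an entry deleted
-/

namespace ThickThin

theorem alt_sq {M : Type} [AddCommGroup M] (n : ℕ) (F : ℕ → ℕ → M)
    (hF : ∀ i j, i ≤ j → j < n → F i j = F (j + 1) i) :
    ∑ i ∈ Finset.range (n + 1), ∑ j ∈ Finset.range n, ((-1 : ℤ) ^ i * (-1) ^ j) • F i j = 0 := by
  rw [← Finset.sum_product']
  refine Finset.sum_involution (fun x _ => if x.1 ≤ x.2 then (x.2 + 1, x.1) else (x.2, x.1 - 1))
    ?_ ?_ ?_ ?_
  · rintro ⟨i, j⟩ hx
    simp only [Finset.mem_product, Finset.mem_range] at hx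
    by_cases h : i ≤ j
    · simp only [if_pos h]
      rw [hF i j h hx.2]
      rw [← add_smul]
      have : (-1 : ℤ) ^ i * (-1) ^ j + (-1) ^ (j + 1) * (-1) ^ i = 0 := by
        rw [pow_succ]
        ring
      rw [this, zero_smul]
    · simp only [if_neg h]
      push Not at h
      have h1 := hF j (i - 1) (by omega) (by omega)
      have h2 : i - 1 + 1 = i := by omega
      rw [h2] at h1
      rw [← h1, ← add_smul]
      have : (-1 : ℤ) ^ i * (-1) ^ j + (-1) ^ j * (-1) ^ (i - 1) = 0 := by
        have h3 : (-1 : ℤ) ^ i = (-1) ^ (i - 1) * (-1) := by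
          rw [← pow_succ, h2]
        rw [h3]
        ring
      rw [this, zero_smul]
  · rintro ⟨i, j⟩ hx _ he
    by_cases h : i ≤ j
    · simp only [if_pos h, Prod.mk.injEq] at he
      omega
    · simp only [if_neg h, Prod.mk.injEq] at he
      omega
  · rintro ⟨i, j⟩ hx
    simp only [Finset.mem_product, Finset.mem_range] at hx ⊢
    by_cases h : i ≤ j
    · simp only [if_pos h]
      omega
    · simp only [if_neg h]
      omega
  · rintro ⟨i, j⟩ hx
    by_cases h : i ≤ j
    · have h1 : ¬ (j + 1 ≤ i) := by omega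
      simp only [if_pos h, if_neg h1, Nat.add_sub_cancel]
    · have h1 : j ≤ i - 1 := by omega
      have h2 : i - 1 + 1 = i := by omega
      simp only [if_neg h, if_pos h1, h2]

theorem eraseIdx_comm {V : Type} (l : List V) : ∀ i j : ℕ, i ≤ j →
    (l.eraseIdx i).eraseIdx j = (l.eraseIdx (j + 1)).eraseIdx i := by
  induction l with
  | nil =>
    intro i j _
    rfl
  | cons x l ih =>
    intro i j hij
    cases i with
    | zero => rfl
    | succ i =>
      cases j with
      | zero => omega
      | succ j =>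
        show x :: (l.eraseIdx i).eraseIdx j = x :: (l.eraseIdx (j + 1)).eraseIdx i
        rw [ih i j (by omega)]

section

variable {Γ V : Type} [Group Γ]

/-- The label of the entry number `i` (`1` if there is no such entry). -/
def zi (z : V → Γ) (l : List V) (i : ℕ) : Γ := (l[i]?.map z).getD 1

theorem zi_of_lt (z : V → Γ) (l : List V) {i : ℕ} (h : i < l.length) : zi z l i = z l[i] := by
  unfold zi
  rw [List.getElem?_eq_getElem h]
  rfl

theorem zi_erase (z : V → Γ) (l : List V) {i j : ℕ} (h : i ≤ j) :
    zi z (l.eraseIdx i) j = zi z l (j + 1) := by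
  unfold zi
  rw [List.getElem?_eraseIdx]
  rw [if_neg (by omega)]

theorem zi_erase' (z : V → Γ) (l : List V) {i j : ℕ} (h : i ≤ j) :
    zi z (l.eraseIdx (j + 1)) i = zi z l i := by
  unfold zi
  rw [List.getElem?_eraseIdx]
  rw [if_pos (by omega)]

end

end ThickThin
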