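import Mathlib

/-!
# Thick-thin, algebra: comparison of free chain complexes

A complex is given by its cells `C`, their dimensions `dim`, the boundaries `bd c : C →₀ R` and the
augmentation `eps : C → R`.
-/

namespace ThickThin

section

variable {R : Type} [CommRing R]

/-- The linear extension. -/
noncomputable abbrev lin {C M : Type} [AddCommGroup M] [Module R M] (f : C → M) : (C →₀ R) →ₗ[R] M :=
  Finsupp.linearCombination R f

/-- The action of a group element on the chains. -/
noncomputable def act (R : Type) [CommRing R] {Γ C : Type} [Group Γ] [MulAction Γ C] (g : Γ) :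
    (C →₀ R) →ₗ[R] (C →₀ R) :=
  Finsupp.lmapDomain R R (g • ·)

theorem lin_single {C M : Type} [AddCommGroup M] [Module R M] (f : C → M) (c : C) :
    lin f (Finsupp.single c (1 : R)) = f c := by
  rw [lin, Finsupp.linearCombination_single, one_smul]

variable {Γ C D : Type} [Group Γ] [MulAction Γ C] [MulAction Γ D]

theorem act_single (g : Γ) (c : C) (r : R) :
    act R g (Finsupp.single c r) = Finsupp.single (g • c) r := by
  unfold act
  rw [Finsupp.lmapDomain_apply, Finsupp.mapDomain_single]

theorem act_one (u : C →₀ R) : act R (1 : Γ) u = u := by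
  induction u using Finsupp.induction_linear with
  | zero => exact map_zero _
  | add u v hu hv => rw [map_add, hu, hv]
  | single c r => rw [act_single, one_smul]

theorem act_mul (g h : Γ) (u : C →₀ R) : act R (g * h) u = act R g (act R h u) := by
  induction u using Finsupp.induction_linear with
  | zero => simp only [map_zero]
  | add u v hu hv => rw [map_add, hu, hv, map_add, map_add]
  | single c r => rw [act_single, act_single, act_single, mul_smul]

theorem act_inv_act (g : Γ) (u : C →₀ R) : act R g⁻¹ (act R g u) = u := by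
  rw [← act_mul, inv_mul_cancel, act_one]

theorem act_act_inv (g : Γ) (u : C →₀ R) : act R g (act R g⁻¹ u) = u := by
  rw [← act_mul, mul_inv_cancel, act_one]

theorem act_apply (g : Γ) (u : C →₀ R) (c : C) : act R g u c = u (g⁻¹ • c) := by
  unfold act
  rw [Finsupp.lmapDomain_apply]
  have h1 := Finsupp.mapDomain_apply (f := fun c : C => g • c) (MulAction.injective g) u (g⁻¹ • c)
  simp only [smul_inv_smul] at h1
  exact h1

theorem act_smul_apply (g : Γ) (u : C →₀ R) (c : C) : act R g u (g • c) = u c := by
  rw [act_apply, inv_smul_smul]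

/-- Equivariant functions have equivariant extensions. -/
theorem lin_act {f : C → (D →₀ R)} (hf : ∀ (g : Γ) c, f (g • c) = act R g (f c)) (g : Γ)
    (u : C →₀ R) : lin f (act R g u) = act R g (lin f u) := by
  induction u using Finsupp.induction_linear with
  | zero => simp only [map_zero]
  | add u v hu hv => rw [map_add, map_add, map_add, map_add, hu, hv]
  | single c r =>
    rw [act_single, lin, Finsupp.linearCombination_single, Finsupp.linearCombination_single, hf,
      map_smul]

theorem lin_act_inv {M : Type} [AddCommGroup M] [Module R M] {f : C → M}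
    (hf : ∀ (g : Γ) c, f (g • c) = f c) (g : Γ) (u : C →₀ R) : lin f (act R g u) = lin f u := by
  induction u using Finsupp.induction_linear with
  | zero => simp only [map_zero]
  | add u v hu hv => rw [map_add, map_add, map_add, hu, hv]
  | single c r =>
    rw [act_single, lin, Finsupp.linearCombination_single, Finsupp.linearCombination_single, hf]

/-- Equivariant choice. -/
theorem equi_choice {M : Type} (hfree : ∀ (g : Γ) (c : C), g • c = c → g = 1) (a : Γ → M → M)
    (_ : ∀ x, a 1 x = x) (ham : ∀ g h x, a (g * h) x = a g (a h x)) (Q : C → M → Prop)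
    (hQ : ∀ g c x, Q c x → Q (g • c) (a g x)) (hex : ∀ c, ∃ x, Q c x) :
    ∃ φ : C → M, (∀ g c, φ (g • c) = a g (φ c)) ∧ ∀ c, Q c (φ c) := by
  choose ψ hψ using hex
  obtain ⟨rep, hrep⟩ : ∃ rep : C → C, rep = fun c =>
    (Quotient.mk (MulAction.orbitRel Γ C) c).out := ⟨_, rfl⟩
  have h1 : ∀ c, ∃ g : Γ, g • rep c = c := by
    intro c
    have h2 : (Quotient.mk (MulAction.orbitRel Γ C) c) =
        Quotient.mk (MulAction.orbitRel Γ C) (rep c) := by
      rw [hrep]
      exact (Quotient.out_eq _).symm
    obtain ⟨g, hg⟩ := (Quotient.eq''.1 h2 : c ∈ MulAction.orbit Γ (rep c))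
    exact ⟨g, hg⟩
  have h2 : ∀ (g : Γ) (c : C), rep (g • c) = rep c := by
    intro g c
    rw [hrep]
    have : Quotient.mk (MulAction.orbitRel Γ C) (g • c) = Quotient.mk (MulAction.orbitRel Γ C) c :=
      Quotient.sound ⟨g, rfl⟩
    show (Quotient.mk (MulAction.orbitRel Γ C) (g • c)).out = _
    rw [this]
  choose γ hγ using h1
  have h3 : ∀ (g : Γ) (c : C), γ (g • c) = g * γ c := by
    intro g c
    have h4 : γ (g • c) • rep c = (g * γ c) • rep c := by
      have := hγ (g • c)
      rw [h2] at this
      rw [this, mul_smul, hγ]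
    have h5 : ((g * γ c)⁻¹ * γ (g • c)) • rep c = rep c := by
      rw [mul_smul, h4, inv_smul_smul]
    exact (inv_mul_eq_one.1 (hfree _ _ h5)).symm
  refine ⟨fun c => a (γ c) (ψ (rep c)), fun g c => ?_, fun c => ?_⟩
  · show a (γ (g • c)) (ψ (rep (g • c))) = a g (a (γ c) (ψ (rep c)))
    rw [h3, h2, ham]
  · have h4 := hQ (γ c) (rep c) _ (hψ (rep c))
    rwa [hγ] at h4

end

/-- A chain complex of free modules with a basis of cells. -/
structure Cx (R C : Type) [CommRing R] where
  /-- the dimension -/
  dim : C → ℕ
  /-- the boundary -/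
  bd : C → (C →₀ R)
  /-- the augmentation -/
  eps : C → R

/-- The axioms of a free complex with an augmentation. -/
structure IsCx {R C : Type} [CommRing R] (Γ : Type) [Group Γ] [MulAction Γ C] (X : Cx R C) :
    Prop where
  dim_smul : ∀ (g : Γ) c, X.dim (g • c) = X.dim c
  bd_smul : ∀ (g : Γ) c, X.bd (g • c) = act R g (X.bd c)
  eps_smul : ∀ (g : Γ) c, X.eps (g • c) = X.eps c
  bd_dim : ∀ c p, X.bd c p ≠ 0 → X.dim c = X.dim p + 1
  bd_bd : ∀ c, lin X.bd (X.bd c) = 0
  eps_bd : ∀ c, lin X.eps (X.bd c) = 0
  free : ∀ (g : Γ) (c : C), g • c = c → g = 1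

section

variable {R : Type} [CommRing R] {C : Type}

/-- The chain is supported on the cells of dimension `k`. -/
def InDim (X : Cx R C) (k : ℕ) (u : C →₀ R) : Prop := ∀ c, u c ≠ 0 → X.dim c = k

/-- The complex is acyclic. -/
structure Acy (X : Cx R C) : Prop where
  pt : ∃ u, InDim X 0 u ∧ lin X.eps u = 1
  zero : ∀ u, InDim X 0 u → lin X.eps u = 0 → ∃ w, InDim X 1 w ∧ lin X.bd w = u
  pos : ∀ k u, InDim X (k + 1) u → lin X.bd u = 0 → ∃ w, InDim X (k + 2) w ∧ lin X.bd w = u

theorem InDim.zero' (X : Cx R C) (k : ℕ) : InDim X k 0 := fun _ h => absurd rfl h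

theorem InDim.add {X : Cx R C} {k : ℕ} {u v : C →₀ R} (hu : InDim X k u) (hv : InDim X k v) :
    InDim X k (u + v) := by
  intro c hc
  by_contra h
  have h1 : u c = 0 := by
    by_contra h1
    exact h (hu c h1)
  have h2 : v c = 0 := by
    by_contra h2
    exact h (hv c h2)
  exact hc (by rw [Finsupp.add_apply, h1, h2, add_zero])

theorem InDim.smul {X : Cx R C} {k : ℕ} {u : C →₀ R} (hu : InDim X k u) (r : R) :
    InDim X k (r • u) := by
  intro c hc
  apply hu c
  intro h
  exact hc (by rw [Finsupp.smul_apply, h, smul_zero])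

theorem InDim.sub {X : Cx R C} {k : ℕ} {u v : C →₀ R} (hu : InDim X k u) (hv : InDim X k v) :
    InDim X k (u - v) := by
  rw [sub_eq_add_neg, ← neg_one_smul R v]
  exact hu.add (hv.smul _)

theorem InDim.single {X : Cx R C} {c : C} (r : R) : InDim X (X.dim c) (Finsupp.single c r) := by
  intro p hp
  classical
  rw [Finsupp.single_apply] at hp
  split_ifs at hp with h
  · rw [h]
  · exact absurd rfl hp

theorem InDim.lin {D : Type} {X : Cx R C} {Y : Cx R D} {k l : ℕ} {f : C → (D →₀ R)}
    (hf : ∀ c, X.dim c = k → InDim Y l (f c)) {u : C →₀ R} (hu : InDim X k u) :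
    InDim Y l (ThickThin.lin f u) := by
  rw [ThickThin.lin, Finsupp.linearCombination_apply]
  unfold Finsupp.sum
  refine Finset.sum_induction _ (InDim Y l) (fun _ _ h1 h2 => h1.add h2) (InDim.zero' Y l) ?_
  intro c hc
  exact (hf c (hu c (Finsupp.mem_support_iff.1 hc))).smul _

theorem InDim.act {Γ : Type} [Group Γ] [MulAction Γ C] {X : Cx R C} (hX : IsCx Γ X) {k : ℕ}
    {u : C →₀ R} (hu : InDim X k u) (g : Γ) : InDim X k (ThickThin.act R g u) := by
  intro c hc
  rw [act_apply] at hc
  have := hu _ hc
  rwa [hX.dim_smul] at this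

theorem IsCx.bd_inDim {Γ : Type} [Group Γ] [MulAction Γ C] {X : Cx R C} (hX : IsCx Γ X) {c : C}
    {k : ℕ} (hc : X.dim c = k + 1) : InDim X k (X.bd c) := by
  intro p hp
  have := hX.bd_dim c p hp
  omega

theorem IsCx.bd_zero {Γ : Type} [Group Γ] [MulAction Γ C] {X : Cx R C} (hX : IsCx Γ X) {c : C}
    (hc : X.dim c = 0) : X.bd c = 0 := by
  ext p
  by_contra h
  have := hX.bd_dim c p h
  omega

theorem lin_congr {M : Type} [AddCommGroup M] [Module R M] {f f' : C → M} {u : C →₀ R}
    (h : ∀ c, u c ≠ 0 → f c = f' c) : lin f u = lin f' u := by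
  rw [lin, lin, Finsupp.linearCombination_apply, Finsupp.linearCombination_apply]
  apply Finsupp.sum_congr
  intro c hc
  rw [h c (Finsupp.mem_support_iff.1 hc)]

theorem lin_lin {D M : Type} [AddCommGroup M] [Module R M] (f : C → (D →₀ R)) (g : D → M)
    (u : C →₀ R) : lin g (lin f u) = lin (fun c => lin g (f c)) u := by
  induction u using Finsupp.induction_linear with
  | zero => simp only [map_zero]
  | add u v hu hv => rw [map_add, map_add, map_add, hu, hv]
  | single c r =>
    rw [lin, lin, lin, Finsupp.linearCombination_single, Finsupp.linearCombination_single,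
      map_smul]

end

section

variable {R : Type} [CommRing R] {Γ C D : Type} [Group Γ] [MulAction Γ C] [MulAction Γ D]
  {X : Cx R C} {Y : Cx R D}

/-- `φ` is an equivariant chain map (in dimensions at most `N`). -/
structure IsMap (Γ : Type) [Group Γ] [MulAction Γ C] [MulAction Γ D] (X : Cx R C) (Y : Cx R D)
    (N : ℕ) (φ : C → (D →₀ R)) : Prop where
  equi : ∀ (g : Γ) c, φ (g • c) = act R g (φ c)
  dim : ∀ c, InDim Y (X.dim c) (φ c)
  bd : ∀ c, X.dim c ≤ N → lin Y.bd (φ c) = lin φ (X.bd c)
  eps : ∀ c, X.dim c = 0 → lin Y.eps (φ c) = X.eps c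

/-- Existence of chain maps to an acyclic complex. -/
theorem exists_map (hX : IsCx Γ X) (hY : IsCx Γ Y) (hA : Acy Y) (N : ℕ) :
    ∃ φ, IsMap Γ X Y N φ := by
  classical
  induction N with
  | zero =>
    obtain ⟨u, hu, hu'⟩ := hA.pt
    obtain ⟨φ, h1, h2⟩ := equi_choice (M := D →₀ R) hX.free (fun g w => act R g w)
      (fun w => act_one w) (fun g h w => act_mul g h w)
      (fun c w => InDim Y (X.dim c) w ∧ (X.dim c = 0 → lin Y.bd w = 0 ∧ lin Y.eps w = X.eps c))
      (by
        rintro g c w ⟨h1, h2⟩
        refine ⟨?_, fun h3 => ?_⟩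
        · rw [hX.dim_smul]
          exact h1.act hY g
        · rw [hX.dim_smul] at h3
          obtain ⟨h4, h5⟩ := h2 h3
          rw [lin_act hY.bd_smul, h4, map_zero, lin_act_inv hY.eps_smul, h5, hX.eps_smul]
          exact ⟨rfl, rfl⟩) (by
        intro c
        by_cases hc : X.dim c = 0
        · refine ⟨X.eps c • u, ?_, fun _ => ⟨?_, ?_⟩⟩
          · rw [hc]
            exact hu.smul _
          · have h3 : lin Y.bd (X.eps c • u) = lin (fun _ => (0 : D →₀ R)) (X.eps c • u) := by
              apply lin_congr
              intro d hd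
              exact hY.bd_zero ((hu.smul _) d hd)
            rw [h3, lin, Finsupp.linearCombination_apply]
            simp
          · rw [map_smul, hu', smul_eq_mul, mul_one]
        · exact ⟨0, InDim.zero' _ _, fun h => absurd h hc⟩)
    refine ⟨φ, h1, fun c => (h2 c).1, fun c hc => ?_, fun c hc => ((h2 c).2 hc).2⟩
    have hc' : X.dim c = 0 := Nat.le_zero.1 hc
    rw [((h2 c).2 hc').1, hX.bd_zero hc', map_zero]
  | succ N ih =>
    obtain ⟨φ, hφ⟩ := ih
    obtain ⟨ψ, h1, h2⟩ := equi_choice (M := D →₀ R) hX.free (fun g w => act R g w)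
      (fun w => act_one w) (fun g h w => act_mul g h w)
      (fun c w => InDim Y (X.dim c) w ∧ (X.dim c ≤ N → w = φ c) ∧
        (X.dim c = N + 1 → lin Y.bd w = lin φ (X.bd c)))
      (by
        rintro g c w ⟨h1, h2, h3⟩
        rw [hX.dim_smul]
        refine ⟨h1.act hY g, fun h4 => ?_, fun h4 => ?_⟩
        · rw [h2 h4, hφ.equi]
        · rw [lin_act hY.bd_smul, h3 h4, hX.bd_smul, lin_act hφ.equi]) (by
        intro c
        by_cases hc : X.dim c ≤ N
        · exact ⟨φ c, hφ.dim c, fun _ => rfl, fun h => by omega⟩
        · by_cases hc' : X.dim c = N + 1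
          · have hI : InDim Y N (lin φ (X.bd c)) :=
              InDim.lin (X := X) (k := N) (fun p hp => by
                have := hφ.dim p
                rwa [hp] at this) (hX.bd_inDim hc')
            rcases N with _ | N
            · have h0 : lin Y.eps (lin φ (X.bd c)) = 0 := by
                rw [lin_lin, ← hX.eps_bd c]
                apply lin_congr
                intro p hp
                have := hX.bd_dim c p hp
                exact hφ.eps p (by omega)
              obtain ⟨w, hw1, hw2⟩ := hA.zero _ hI h0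
              refine ⟨w, ?_, fun h => absurd h hc, fun _ => hw2⟩
              rw [hc']
              exact hw1
            · have h0 : lin Y.bd (lin φ (X.bd c)) = 0 := by
                have h3 : lin (fun p => lin Y.bd (φ p)) (X.bd c) =
                    lin (fun p => lin φ (X.bd p)) (X.bd c) := by
                  apply lin_congr
                  intro p hp
                  have := hX.bd_dim c p hp
                  exact hφ.bd p (by omega)
                rw [lin_lin, h3, ← lin_lin, hX.bd_bd, map_zero]
              obtain ⟨w, hw1, hw2⟩ := hA.pos N _ hI h0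
              refine ⟨w, ?_, fun h => absurd h hc, fun _ => hw2⟩
              rw [hc']
              exact hw1
          · exact ⟨0, InDim.zero' _ _, fun h => absurd h hc, fun h => absurd h hc'⟩)
    refine ⟨ψ, h1, fun c => (h2 c).1, fun c hc => ?_, fun c hc => ?_⟩
    · have h3 : lin ψ (X.bd c) = lin φ (X.bd c) := by
        apply lin_congr
        intro p hp
        have := hX.bd_dim c p hp
        exact (h2 p).2.1 (by omega)
      rw [h3]
      by_cases hc' : X.dim c ≤ N
      · rw [(h2 c).2.1 hc']
        exact hφ.bd c hc'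
      · exact (h2 c).2.2 (by omega)
    · rw [(h2 c).2.1 (by omega)]
      exact hφ.eps c hc

/-- Uniqueness up to homotopy of chain maps to an acyclic complex. -/
theorem exists_homotopy (hX : IsCx Γ X) (hY : IsCx Γ Y) (hA : Acy Y) {M : ℕ} {φ ψ : C → (D →₀ R)}
    (hφ : IsMap Γ X Y M φ) (hψ : IsMap Γ X Y M ψ) (N : ℕ) (hN : N ≤ M) :
    ∃ h : C → (D →₀ R), (∀ (g : Γ) c, h (g • c) = act R g (h c)) ∧
      (∀ c, InDim Y (X.dim c + 1) (h c)) ∧
      ∀ c, X.dim c ≤ N → lin Y.bd (h c) + lin h (X.bd c) = φ c - ψ c := by
  classical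
  have hE : ∀ (h : C → (D →₀ R)), (∀ (g : Γ) c, h (g • c) = act R g (h c)) → ∀ (g : Γ) c,
      φ (g • c) - ψ (g • c) - lin h (X.bd (g • c)) = act R g (φ c - ψ c - lin h (X.bd c)) := by
    intro h hh g c
    rw [hφ.equi, hψ.equi, hX.bd_smul, lin_act hh, map_sub, map_sub]
  induction N with
  | zero =>
    obtain ⟨h, h1, h2⟩ := equi_choice (M := D →₀ R) hX.free (fun g w => act R g w)
      (fun w => act_one w) (fun g h w => act_mul g h w)
      (fun c w => InDim Y (X.dim c + 1) w ∧ (X.dim c = 0 → lin Y.bd w = φ c - ψ c))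
      (by
        rintro g c w ⟨h1, h2⟩
        rw [hX.dim_smul]
        refine ⟨h1.act hY g, fun h3 => ?_⟩
        rw [lin_act hY.bd_smul, h2 h3, hφ.equi, hψ.equi, map_sub]) (by
        intro c
        by_cases hc : X.dim c = 0
        · have hI : InDim Y 0 (φ c - ψ c) := by
            have h3 := hφ.dim c
            have h4 := hψ.dim c
            rw [hc] at h3 h4
            exact h3.sub h4
          obtain ⟨w, hw1, hw2⟩ := hA.zero _ hI (by
            rw [map_sub, hφ.eps c hc, hψ.eps c hc, sub_self])
          refine ⟨w, ?_, fun _ => hw2⟩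
          rw [hc]
          exact hw1
        · exact ⟨0, InDim.zero' _ _, fun h => absurd h hc⟩)
    refine ⟨h, h1, fun c => (h2 c).1, fun c hc => ?_⟩
    have hc' : X.dim c = 0 := Nat.le_zero.1 hc
    rw [(h2 c).2 hc', hX.bd_zero hc', map_zero, add_zero]
  | succ N ih =>
    obtain ⟨h, hh1, hh2, hh3⟩ := ih (by omega)
    obtain ⟨k, h1, h2⟩ := equi_choice (M := D →₀ R) hX.free (fun g w => act R g w)
      (fun w => act_one w) (fun g h w => act_mul g h w)
      (fun c w => InDim Y (X.dim c + 1) w ∧ (X.dim c ≤ N → w = h c) ∧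
        (X.dim c = N + 1 → lin Y.bd w = φ c - ψ c - lin h (X.bd c)))
      (by
        rintro g c w ⟨h1, h2, h3⟩
        rw [hX.dim_smul]
        refine ⟨h1.act hY g, fun h4 => ?_, fun h4 => ?_⟩
        · rw [h2 h4, hh1]
        · rw [lin_act hY.bd_smul, h3 h4, hE h hh1]) (by
        intro c
        by_cases hc : X.dim c ≤ N
        · exact ⟨h c, hh2 c, fun _ => rfl, fun h => by omega⟩
        · by_cases hc' : X.dim c = N + 1
          · have hI : InDim Y (N + 1) (φ c - ψ c - lin h (X.bd c)) := by
              have h3 := hφ.dim c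
              have h4 := hψ.dim c
              rw [hc'] at h3 h4
              refine (h3.sub h4).sub ?_
              exact InDim.lin (X := X) (k := N) (fun p hp => by
                have := hh2 p
                rwa [hp] at this) (hX.bd_inDim hc')
            have h0 : lin Y.bd (φ c - ψ c - lin h (X.bd c)) = 0 := by
              have h3 : lin (fun p => lin Y.bd (h p)) (X.bd c) =
                  lin (fun p => φ p - ψ p - lin h (X.bd p)) (X.bd c) := by
                apply lin_congr
                intro p hp
                have := hX.bd_dim c p hp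
                have h5 := hh3 p (by omega)
                rw [← h5]
                abel
              have h4 : lin (fun p => φ p - ψ p - lin h (X.bd p)) (X.bd c) =
                  lin φ (X.bd c) - lin ψ (X.bd c) - lin (fun p => lin h (X.bd p)) (X.bd c) := by
                rw [lin, lin, lin, lin, Finsupp.linearCombination_apply,
                  Finsupp.linearCombination_apply, Finsupp.linearCombination_apply,
                  Finsupp.linearCombination_apply, ← Finsupp.sum_sub, ← Finsupp.sum_sub]
                apply Finsupp.sum_congr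
                intro p _
                rw [smul_sub, smul_sub]
              rw [map_sub, map_sub, hφ.bd c (by omega), hψ.bd c (by omega), lin_lin, h3, h4,
                ← lin_lin, hX.bd_bd, map_zero, sub_zero, sub_self]
            obtain ⟨w, hw1, hw2⟩ := hA.pos N _ hI h0
            refine ⟨w, ?_, fun h => absurd h hc, fun _ => hw2⟩
            rw [hc']
            exact hw1
          · exact ⟨0, InDim.zero' _ _, fun h => absurd h hc, fun h => absurd h hc'⟩)
    refine ⟨k, h1, fun c => (h2 c).1, fun c hc => ?_⟩
    have h3 : lin k (X.bd c) = lin h (X.bd c) := by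
      apply lin_congr
      intro p hp
      have := hX.bd_dim c p hp
      exact (h2 p).2.1 (by omega)
    rw [h3]
    by_cases hc' : X.dim c ≤ N
    · rw [(h2 c).2.1 hc']
      exact hh3 c hc'
    · rw [(h2 c).2.2 (by omega), sub_add_cancel]

/-- Composition of chain maps. -/
theorem IsMap.comp {E : Type} [MulAction Γ E] {Z : Cx R E} {N : ℕ} {φ : C → (D →₀ R)}
    {ψ : D → (E →₀ R)} (hφ : IsMap Γ X Y N φ) (hψ : IsMap Γ Y Z N ψ) :
    IsMap Γ X Z N (fun c => lin ψ (φ c)) where
  equi g c := by
    rw [hφ.equi, lin_act hψ.equi]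
  dim c := InDim.lin (X := Y) (k := X.dim c) (fun d hd => by
    have := hψ.dim d
    rwa [hd] at this) (hφ.dim c)
  bd c hc := by
    rw [lin_lin]
    have h1 : lin (fun d => lin Z.bd (ψ d)) (φ c) = lin (fun d => lin ψ (Y.bd d)) (φ c) := by
      apply lin_congr
      intro d hd
      exact hψ.bd d (by rw [hφ.dim c d hd]; exact hc)
    rw [h1, ← lin_lin, hφ.bd c hc, lin_lin]
  eps c hc := by
    rw [lin_lin, ← hφ.eps c hc]
    apply lin_congr
    intro d hd
    exact hψ.eps d (by rw [hφ.dim c d hd]; exact hc)

theorem lin_self (u : C →₀ R) : lin (fun c => Finsupp.single c (1 : R)) u = u := by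
  induction u using Finsupp.induction_linear with
  | zero => exact map_zero _
  | add u v hu hv => rw [map_add, hu, hv]
  | single c r => rw [lin, Finsupp.linearCombination_single, Finsupp.smul_single_one]

theorem isMap_id (N : ℕ) : IsMap Γ X X N (fun c => Finsupp.single c 1) where
  equi g c := by rw [act_single]
  dim c := InDim.single 1
  bd c _ := by
    rw [lin_single, lin_self]
  eps c _ := lin_single _ _

end

end ThickThin
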