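import Mathlib
import Pool.Agent.Lib_MP_9dbe3a.ABase

/-!
# Thick-thin, algebra: the bar complex
-/

namespace ThickThin

/-- The cells of the bar complex: `g [x_0 | ... | x_{n-1}]`. -/
structure Bar (Γ : Type) where
  /-- the coefficient -/
  hd : Γ
  /-- the dimension -/
  n : ℕ
  /-- the entries -/
  tl : Fin n → Γ

variable {Γ : Type} [Group Γ]

instance : MulAction Γ (Bar Γ) where
  smul g c := ⟨g * c.hd, c.n, c.tl⟩
  one_smul c := by
    show (⟨1 * c.hd, c.n, c.tl⟩ : Bar Γ) = c
    rw [one_mul]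
  mul_smul g h c := by
    show (⟨g * h * c.hd, c.n, c.tl⟩ : Bar Γ) = ⟨g * (h * c.hd), c.n, c.tl⟩
    rw [mul_assoc]

theorem bar_smul (g h : Γ) (n : ℕ) (x : Fin n → Γ) : g • (⟨h, n, x⟩ : Bar Γ) = ⟨g * h, n, x⟩ := rfl

/-- The boundary. -/
noncomputable def barBd : Bar Γ → (Bar Γ →₀ ℤ)
  | ⟨_, 0, _⟩ => 0
  | ⟨g, n + 1, x⟩ => Finsupp.single ⟨g * x 0, n, fun i => x i.succ⟩ 1 +
      ∑ j : Fin (n + 1), (-1 : ℤ) ^ ((j : ℕ) + 1) •
        Finsupp.single ⟨g, n, Fin.contractNth j (· * ·) x⟩ (1 : ℤ)

/-- The bar complex. -/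
noncomputable def barCx (Γ : Type) [Group Γ] : Cx ℤ (Bar Γ) where
  dim c := c.n
  bd := barBd
  eps c := if c.n = 0 then 1 else 0

theorem barBd_zero (g : Γ) (x : Fin 0 → Γ) : barBd ⟨g, 0, x⟩ = 0 := rfl

theorem barBd_succ (g : Γ) (n : ℕ) (x : Fin (n + 1) → Γ) :
    barBd ⟨g, n + 1, x⟩ = Finsupp.single ⟨g * x 0, n, fun i => x i.succ⟩ 1 +
      ∑ j : Fin (n + 1), (-1 : ℤ) ^ ((j : ℕ) + 1) •
        Finsupp.single ⟨g, n, Fin.contractNth j (· * ·) x⟩ (1 : ℤ) := rfl

/-- The contraction. -/
def barS (c : Bar Γ) : Bar Γ := ⟨1, c.n + 1, Fin.cons c.hd c.tl⟩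

/-- The contraction on the chains. -/
noncomputable def barC : (Bar Γ →₀ ℤ) →ₗ[ℤ] (Bar Γ →₀ ℤ) :=
  lin fun c => Finsupp.single (barS c) (1 : ℤ)

theorem contractNth_zero (g : Γ) (n : ℕ) (x : Fin (n + 1) → Γ) :
    Fin.contractNth 0 (· * ·) (Fin.cons g x : Fin (n + 2) → Γ) =
      (Fin.cons (g * x 0) (fun i => x i.succ) : Fin (n + 1) → Γ) := by
  funext k
  refine Fin.cases ?_ (fun k => ?_) k
  · rfl
  · rfl

theorem contractNth_succ (g : Γ) (n : ℕ) (j : Fin (n + 1)) (x : Fin (n + 1) → Γ) :
    Fin.contractNth j.succ (· * ·) (Fin.cons g x : Fin (n + 2) → Γ) =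
      (Fin.cons g (Fin.contractNth j (· * ·) x) : Fin (n + 1) → Γ) := by
  funext k
  refine Fin.cases ?_ (fun k => ?_) k
  · rw [Fin.cons_zero, Fin.contractNth_apply_of_lt]
    · rfl
    · simp
  · rw [Fin.cons_succ]
    have e1 : (Fin.cons g x : Fin (n + 2) → Γ) k.succ.castSucc = x k.castSucc := rfl
    have e2 : (Fin.cons g x : Fin (n + 2) → Γ) k.succ.succ = x k.succ := rfl
    rcases lt_trichotomy (k : ℕ) (j : ℕ) with h | h | h
    · rw [Fin.contractNth_apply_of_lt _ _ _ _ (by simpa using h),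
        Fin.contractNth_apply_of_lt _ _ _ _ h, e1]
    · rw [Fin.contractNth_apply_of_eq _ _ _ _ (by simpa using h),
        Fin.contractNth_apply_of_eq _ _ _ _ h, e1, e2]
    · rw [Fin.contractNth_apply_of_gt _ _ _ _ (by simpa using h),
        Fin.contractNth_apply_of_gt _ _ _ _ h, e2]

theorem barBd_smul (g : Γ) (c : Bar Γ) : barBd (g • c) = act ℤ g (barBd c) := by
  obtain ⟨h, n, x⟩ := c
  cases n with
  | zero => exact (map_zero _).symm
  | succ n =>
    rw [bar_smul, barBd_succ, barBd_succ, map_add, act_single, bar_smul, map_sum, mul_assoc]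
    congr 1
    refine Finset.sum_congr rfl fun j _ => ?_
    rw [map_smul, act_single, bar_smul]

/-- The contraction identity in positive dimensions. -/
theorem barBd_barS {c : Bar Γ} {n : ℕ} (hc : c.n = n + 1) :
    barBd (barS c) = Finsupp.single c 1 - barC (barBd c) := by
  obtain ⟨g, m, x⟩ := c
  have hc' : m = n + 1 := hc
  subst hc'
  have e1 : barS (⟨g, n + 1, x⟩ : Bar Γ) = ⟨1, n + 1 + 1, Fin.cons g x⟩ := rfl
  rw [e1, barBd_succ, barBd_succ, map_add, Fin.sum_univ_succ, map_sum]
  have e2 : (⟨1 * (Fin.cons g x : Fin (n + 1 + 1) → Γ) 0, n + 1,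
      fun i => (Fin.cons g x : Fin (n + 1 + 1) → Γ) i.succ⟩ : Bar Γ) = ⟨g, n + 1, x⟩ := by
    rw [Fin.cons_zero, one_mul]
    rfl
  rw [e2, contractNth_zero]
  have e3 : ∀ c : Bar Γ, barC (Finsupp.single c (1 : ℤ)) = Finsupp.single (barS c) 1 := fun c =>
    lin_single _ c
  have e4 : (∑ j : Fin (n + 1), (-1 : ℤ) ^ ((j.succ : ℕ) + 1) • Finsupp.single
      (⟨1, n + 1, Fin.contractNth j.succ (· * ·) (Fin.cons g x : Fin (n + 2) → Γ)⟩ : Bar Γ)
        (1 : ℤ)) = - ∑ j : Fin (n + 1), barC ((-1 : ℤ) ^ ((j : ℕ) + 1) •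
        Finsupp.single (⟨g, n, Fin.contractNth j (· * ·) x⟩ : Bar Γ) (1 : ℤ)) := by
    rw [← Finset.sum_neg_distrib]
    refine Finset.sum_congr rfl fun j _ => ?_
    rw [contractNth_succ, map_smul, e3, Fin.val_succ, pow_succ (-1 : ℤ) ((j : ℕ) + 1), mul_neg,
      mul_one, neg_smul]
    rfl
  rw [e4, e3]
  have e5 : barS (⟨g * x 0, n, fun i => x i.succ⟩ : Bar Γ) =
      ⟨1, n + 1, Fin.cons (g * x 0) fun i => x i.succ⟩ := rfl
  rw [e5, Fin.val_zero, zero_add, pow_one, neg_one_smul]
  abel

/-- The contraction identity in dimension zero. -/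
theorem barBd_barS_zero {c : Bar Γ} (hc : c.n = 0) :
    barBd (barS c) = Finsupp.single c 1 - Finsupp.single ⟨1, 0, Fin.elim0⟩ 1 := by
  obtain ⟨g, m, x⟩ := c
  have hc' : m = 0 := hc
  subst hc'
  have e1 : barS (⟨g, 0, x⟩ : Bar Γ) = ⟨1, 0 + 1, Fin.cons g x⟩ := rfl
  have e4 : (-1 : ℤ) ^ (((0 : Fin (0 + 1)) : ℕ) + 1) = -1 := by norm_num
  rw [e1, barBd_succ, Fin.sum_univ_succ, Fin.sum_univ_zero, add_zero, e4, neg_one_smul]
  have e2 : (⟨1 * (Fin.cons g x : Fin (0 + 1) → Γ) 0, 0,
      fun i => (Fin.cons g x : Fin (0 + 1) → Γ) i.succ⟩ : Bar Γ) = ⟨g, 0, x⟩ := by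
    rw [Fin.cons_zero, one_mul]
    rfl
  have e3 : Fin.contractNth 0 (· * ·) (Fin.cons g x : Fin (0 + 1) → Γ) = Fin.elim0 :=
    Subsingleton.elim _ _
  rw [e2, e3, sub_eq_add_neg]

theorem barBd_dim (c p : Bar Γ) (h : barBd c p ≠ 0) : c.n = p.n + 1 := by
  classical
  obtain ⟨g, n, x⟩ := c
  cases n with
  | zero => exact absurd rfl h
  | succ n =>
    by_contra hne
    apply h
    have hne' : p.n ≠ n := fun e => hne (by rw [e])
    rw [barBd_succ, Finsupp.add_apply, Finsupp.finsetSum_apply, Finsupp.single_apply, if_neg, zero_add]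
    · refine Finset.sum_eq_zero fun j _ => ?_
      rw [Finsupp.smul_apply, Finsupp.single_apply, if_neg, smul_zero]
      intro e
      exact hne' (congrArg Bar.n e).symm
    · intro e
      exact hne' (congrArg Bar.n e).symm

theorem bar_eps_bd (c : Bar Γ) : lin (barCx Γ).eps (barBd c) = 0 := by
  obtain ⟨g, n, x⟩ := c
  have hlin : ∀ c : Bar Γ, lin (barCx Γ).eps (Finsupp.single c (1 : ℤ)) = if c.n = 0 then 1 else 0 :=
    fun c => lin_single _ c
  cases n with
  | zero => exact map_zero _
  | succ n =>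
    rw [barBd_succ, map_add, map_sum, hlin]
    simp only [map_smul, hlin]
    by_cases hn : n = 0
    · subst hn
      simp
    · simp [hn]

theorem bar_bd_bd (n : ℕ) : ∀ c : Bar Γ, c.n = n → lin barBd (barBd c) = 0 := by
  -- in dimension one
  have hlow : ∀ c : Bar Γ, c.n ≤ 1 → lin barBd (barBd c) = 0 := by
    intro c hc
    have h1 : lin barBd (barBd c) = lin (fun _ => (0 : Bar Γ →₀ ℤ)) (barBd c) := by
      apply lin_congr
      intro p hp
      have h2 := barBd_dim c p hp
      obtain ⟨g, m, x⟩ := p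
      have h3 : m = 0 := by
        have h4 : c.n = m + 1 := h2
        omega
      subst h3
      exact barBd_zero g x
    rw [h1, lin, Finsupp.linearCombination_apply, Finsupp.sum]
    exact Finset.sum_eq_zero fun _ _ => smul_zero _
  induction n with
  | zero => exact fun c hc => hlow c (by omega)
  | succ n ih =>
    intro c hc
    rcases Nat.eq_zero_or_pos n with hn | hn
    · exact hlow c (by omega)
    obtain ⟨g, m, x⟩ := c
    have hc' : m = n + 1 := hc
    subst hc'
    have e1 : (⟨g, n + 1, x⟩ : Bar Γ) = g • barS ⟨x 0, n, fun i => x i.succ⟩ := by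
      have h2 : barS (⟨x 0, n, fun i => x i.succ⟩ : Bar Γ) = ⟨1, n + 1, x⟩ := by
        show (⟨1, n + 1, Fin.cons (x 0) fun i => x i.succ⟩ : Bar Γ) = ⟨1, n + 1, x⟩
        congr 1
        exact Fin.cons_self_tail x
      rw [h2, bar_smul, mul_one]
    obtain ⟨d, hd⟩ : ∃ d : Bar Γ, d = ⟨x 0, n, fun i => x i.succ⟩ := ⟨_, rfl⟩
    have hdn : d.n = n := by rw [hd]
    rw [e1, ← hd, barBd_smul, lin_act (fun g c => barBd_smul g c),
      barBd_barS (n := n - 1) (by omega), map_sub, lin_single]
    have h3 : lin barBd (barC (barBd d)) = barBd d := by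
      have h4 : lin barBd (barC (barBd d)) = lin (fun p => barBd (barS p)) (barBd d) := by
        unfold barC
        rw [lin_lin]
        apply lin_congr
        intro p _
        exact lin_single _ _
      rw [h4]
      by_cases hn1 : n = 1
      · have h5 : lin (fun p => barBd (barS p)) (barBd d) =
            lin (fun p => Finsupp.single p (1 : ℤ) - (barCx Γ).eps p •
              Finsupp.single (⟨1, 0, Fin.elim0⟩ : Bar Γ) (1 : ℤ)) (barBd d) := by
          apply lin_congr
          intro p hp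
          have h6 := barBd_dim d p hp
          have h7 : p.n = 0 := by omega
          have h8 : (barCx Γ).eps p = 1 := if_pos h7
          rw [barBd_barS_zero h7, h8, one_smul]
        rw [h5]
        have h9 : lin (fun p => Finsupp.single p (1 : ℤ) - (barCx Γ).eps p •
            Finsupp.single (⟨1, 0, Fin.elim0⟩ : Bar Γ) (1 : ℤ)) (barBd d) =
            lin (fun p => Finsupp.single p (1 : ℤ)) (barBd d) -
              lin (barCx Γ).eps (barBd d) • Finsupp.single (⟨1, 0, Fin.elim0⟩ : Bar Γ) (1 : ℤ) := by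
          rw [lin, lin, lin, Finsupp.linearCombination_apply, Finsupp.linearCombination_apply,
            Finsupp.linearCombination_apply, Finsupp.sum, Finsupp.sum, Finsupp.sum,
            Finset.sum_smul, ← Finset.sum_sub_distrib]
          refine Finset.sum_congr rfl fun p _ => ?_
          rw [smul_sub, smul_assoc]
        rw [h9, lin_self, bar_eps_bd, zero_smul, sub_zero]
      · have h5 : lin (fun p => barBd (barS p)) (barBd d) =
            lin (fun p => Finsupp.single p (1 : ℤ) - barC (barBd p)) (barBd d) := by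
          apply lin_congr
          intro p hp
          have h6 := barBd_dim d p hp
          exact barBd_barS (n := n - 2) (by omega)
        rw [h5]
        have h9 : lin (fun p => Finsupp.single p (1 : ℤ) - barC (barBd p)) (barBd d) =
            lin (fun p => Finsupp.single p (1 : ℤ)) (barBd d) - barC (lin barBd (barBd d)) := by
          rw [lin, lin, lin, Finsupp.linearCombination_apply, Finsupp.linearCombination_apply,
            Finsupp.linearCombination_apply, Finsupp.sum, Finsupp.sum, Finsupp.sum, map_sum,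
            ← Finset.sum_sub_distrib]
          refine Finset.sum_congr rfl fun p _ => ?_
          rw [smul_sub, map_smul]
        rw [h9, lin_self, ih d hdn, map_zero, sub_zero]
    rw [h3, sub_self, map_zero]

theorem barCx_isCx : IsCx Γ (barCx Γ) where
  dim_smul _ _ := rfl
  bd_smul := barBd_smul
  eps_smul _ _ := rfl
  bd_dim := barBd_dim
  bd_bd c := bar_bd_bd c.n c rfl
  eps_bd := bar_eps_bd
  free g c h := by
    have h1 : g * c.hd = c.hd := congrArg Bar.hd h
    exact mul_eq_right.1 h1

theorem barCx_acy : Acy (barCx Γ) where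
  pt := by
    refine ⟨Finsupp.single ⟨1, 0, Fin.elim0⟩ 1, InDim.single (X := barCx Γ) _, ?_⟩
    rw [lin_single]
    rfl
  zero u hu hu' := by
    refine ⟨barC u, ?_, ?_⟩
    · unfold barC
      refine InDim.lin (X := barCx Γ) (Y := barCx Γ) (k := 0) (l := 1) (fun c hc => ?_) hu
      have h1 : (barCx Γ).dim (barS c) = 1 := by
        show c.n + 1 = 1
        have : c.n = 0 := hc
        rw [this]
      have h2 := InDim.single (X := barCx Γ) (c := barS c) (1 : ℤ)
      rwa [h1] at h2
    · show lin barBd (barC u) = u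
      have h4 : lin barBd (barC u) = lin (fun p => Finsupp.single p (1 : ℤ) - (barCx Γ).eps p •
          Finsupp.single (⟨1, 0, Fin.elim0⟩ : Bar Γ) (1 : ℤ)) u := by
        unfold barC
        rw [lin_lin]
        apply lin_congr
        intro p hp
        have h7 : p.n = 0 := hu p hp
        have h8 : (barCx Γ).eps p = 1 := if_pos h7
        rw [lin_single, barBd_barS_zero h7, h8, one_smul]
      have h9 : lin (fun p => Finsupp.single p (1 : ℤ) - (barCx Γ).eps p •
          Finsupp.single (⟨1, 0, Fin.elim0⟩ : Bar Γ) (1 : ℤ)) u =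
          lin (fun p => Finsupp.single p (1 : ℤ)) u -
            lin (barCx Γ).eps u • Finsupp.single (⟨1, 0, Fin.elim0⟩ : Bar Γ) (1 : ℤ) := by
        rw [lin, lin, lin, Finsupp.linearCombination_apply, Finsupp.linearCombination_apply,
          Finsupp.linearCombination_apply, Finsupp.sum, Finsupp.sum, Finsupp.sum,
          Finset.sum_smul, ← Finset.sum_sub_distrib]
        refine Finset.sum_congr rfl fun p _ => ?_
        rw [smul_sub, smul_assoc]
      rw [h4, h9, lin_self, hu', zero_smul, sub_zero]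
  pos k u hu hu' := by
    refine ⟨barC u, ?_, ?_⟩
    · unfold barC
      refine InDim.lin (X := barCx Γ) (Y := barCx Γ) (k := k + 1) (l := k + 2) (fun c hc => ?_) hu
      have h1 : (barCx Γ).dim (barS c) = k + 2 := by
        show c.n + 1 = k + 2
        have : c.n = k + 1 := hc
        rw [this]
      have h2 := InDim.single (X := barCx Γ) (c := barS c) (1 : ℤ)
      rwa [h1] at h2
    · show lin barBd (barC u) = u
      have h4 : lin barBd (barC u) =
          lin (fun p => Finsupp.single p (1 : ℤ) - barC (barBd p)) u := by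
        unfold barC
        rw [lin_lin]
        apply lin_congr
        intro p hp
        rw [lin_single]
        exact barBd_barS (hu p hp)
      have h9 : lin (fun p => Finsupp.single p (1 : ℤ) - barC (barBd p)) u =
          lin (fun p => Finsupp.single p (1 : ℤ)) u - barC (lin barBd u) := by
        rw [lin, lin, lin, Finsupp.linearCombination_apply, Finsupp.linearCombination_apply,
          Finsupp.linearCombination_apply, Finsupp.sum, Finsupp.sum, Finsupp.sum, map_sum,
          ← Finset.sum_sub_distrib]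
        refine Finset.sum_congr rfl fun p _ => ?_
        rw [smul_sub, map_smul]
      have h10 : lin barBd u = 0 := hu'
      rw [h4, h9, lin_self, h10, map_zero, sub_zero]

end ThickThin
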