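import Mathlib
import Pool.Agent.Lib_MP_9dbe3a.ABase
import Pool.Agent.Lib_MP_9dbe3a.AAlt

/-!
# Thick-thin, algebra: the cone of the labelled list complex

`S : LS Γ V` consists of a set `A` of non-empty lists of points of `V`, closed under deletion of
entries and under the action, and of an equivariant labelling `z : V → Γ` such that the labels of the
entries of a list in `A` commute. The cells of the complex `S.cx` are the pairs `(l, false)` and
`(l, true)`, with the boundaries `∂(l, false) = ∑ (-1)^i (l - l_i, false)` and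
`∂(l, true) = ∏ (z_i - 1) (l, false) - ∑ (-1)^i (z_i - 1) (l - l_i, true)`.
-/

namespace ThickThin

/-- Labelled lists. -/
structure LS (Γ V : Type) [Group Γ] [MulAction Γ V] where
  /-- the lists -/
  A : Set (List V)
  /-- the labels -/
  z : V → Γ
  smul_mem : ∀ (g : Γ), ∀ l ∈ A, l.map (g • ·) ∈ A
  ne : ∀ l ∈ A, l ≠ []
  erase : ∀ l ∈ A, 2 ≤ l.length → ∀ i < l.length, l.eraseIdx i ∈ A
  zc : ∀ (g : Γ) v, z (g • v) = g * z v * g⁻¹
  comm : ∀ l ∈ A, ∀ x ∈ l, ∀ y ∈ l, Commute (z x) (z y)
  free : ∀ (g : Γ) (v : V), g • v = v → g = 1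

namespace LS

variable {Γ V : Type} [Group Γ] [MulAction Γ V] (S : LS Γ V)

/-- The type of the lists. -/
abbrev T : Type := {l : List V // l ∈ S.A}

instance : MulAction Γ S.T where
  smul g l := ⟨l.1.map (g • ·), S.smul_mem g l.1 l.2⟩
  one_smul l := Subtype.ext (by
    show l.1.map ((1 : Γ) • ·) = l.1
    simp)
  mul_smul g h l := Subtype.ext (by
    show l.1.map ((g * h) • ·) = (l.1.map (h • ·)).map (g • ·)
    rw [List.map_map]
    exact List.map_congr_left fun i _ => mul_smul g h i)

theorem smul_val (g : Γ) (l : S.T) : (g • l).1 = l.1.map (g • ·) := rfl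

/-- The type of the cells. -/
abbrev Cell : Type := S.T × Bool

instance : MulAction Γ S.Cell where
  smul g c := (g • c.1, c.2)
  one_smul c := Prod.ext (one_smul Γ c.1) rfl
  mul_smul g h c := Prod.ext (mul_smul g h c.1) rfl

theorem smul_cell (g : Γ) (c : S.Cell) : g • c = (g • c.1, c.2) := rfl

theorem T_free (g : Γ) (l : S.T) (h : g • l = l) : g = 1 := by
  obtain ⟨l, hl⟩ := l
  cases l with
  | nil => exact absurd rfl (S.ne _ hl)
  | cons x l =>
    have h1 := congrArg Subtype.val h
    rw [smul_val] at h1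
    rw [List.map_cons, List.cons.injEq] at h1
    exact S.free g x h1.1

theorem Cell_free (g : Γ) (c : S.Cell) (h : g • c = c) : g = 1 :=
  S.T_free g c.1 (congrArg Prod.fst h)

open scoped Classical in
/-- The chain of a list (zero if it is not in `A`). -/
noncomputable def sg (l : List V) : S.T →₀ ℤ :=
  if h : l ∈ S.A then Finsupp.single ⟨l, h⟩ 1 else 0

theorem sg_of_mem {l : List V} (h : l ∈ S.A) : S.sg l = Finsupp.single ⟨l, h⟩ 1 := dif_pos h

theorem sg_of_not {l : List V} (h : l ∉ S.A) : S.sg l = 0 := dif_neg h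

theorem mem_map {g : Γ} {l : List V} : l.map (g • ·) ∈ S.A ↔ l ∈ S.A := by
  constructor
  · intro h
    have h1 := S.smul_mem g⁻¹ _ h
    rw [List.map_map] at h1
    have h2 : l.map ((g⁻¹ • ·) ∘ (g • ·)) = l := by
      conv_rhs => rw [← List.map_id l]
      apply List.map_congr_left
      intro x _
      exact inv_smul_smul g x
    rwa [h2] at h1
  · exact S.smul_mem g l

theorem act_sg (g : Γ) (l : List V) : act ℤ g (S.sg l) = S.sg (l.map (g • ·)) := by
  by_cases h : l ∈ S.A
  · rw [S.sg_of_mem h, S.sg_of_mem (S.smul_mem g l h), act_single]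
    rfl
  · rw [S.sg_of_not h, S.sg_of_not (fun h1 => h (S.mem_map.1 h1)), map_zero]

/-- The chain is supported on the lists of length `k`. -/
def Len (k : ℕ) (u : S.T →₀ ℤ) : Prop := ∀ l, u l ≠ 0 → l.1.length = k

theorem Len.zero' (k : ℕ) : S.Len k 0 := fun _ h => absurd rfl h

theorem Len.add {k : ℕ} {u v : S.T →₀ ℤ} (hu : S.Len k u) (hv : S.Len k v) : S.Len k (u + v) := by
  intro c hc
  by_contra h
  have h1 : u c = 0 := by
    by_contra h1
    exact h (hu c h1)
  have h2 : v c = 0 := by
    by_contra h2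
    exact h (hv c h2)
  exact hc (by rw [Finsupp.add_apply, h1, h2, add_zero])

theorem Len.smul {k : ℕ} {u : S.T →₀ ℤ} (hu : S.Len k u) (r : ℤ) : S.Len k (r • u) := by
  intro c hc
  apply hu c
  intro h
  exact hc (by rw [Finsupp.smul_apply, h, smul_zero])

theorem Len.sub {k : ℕ} {u v : S.T →₀ ℤ} (hu : S.Len k u) (hv : S.Len k v) : S.Len k (u - v) := by
  rw [sub_eq_add_neg, ← neg_one_smul ℤ v]
  exact hu.add _ (hv.smul _ _)

theorem Len.act {k : ℕ} {u : S.T →₀ ℤ} (hu : S.Len k u) (g : Γ) :
    S.Len k (ThickThin.act ℤ g u) := by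
  intro c hc
  rw [act_apply] at hc
  have h1 := hu _ hc
  rwa [smul_val, List.length_map] at h1

theorem Len.sg {k : ℕ} {l : List V} (h : l.length = k) : S.Len k (S.sg l) := by
  classical
  intro c hc
  by_cases hl : l ∈ S.A
  · rw [S.sg_of_mem hl, Finsupp.single_apply] at hc
    split_ifs at hc with h1
    · rw [← h1]
      exact h
    · exact absurd rfl hc
  · rw [S.sg_of_not hl] at hc
    exact absurd rfl hc

theorem Len.sum {k : ℕ} {ι : Type} (s : Finset ι) (f : ι → (S.T →₀ ℤ))
    (h : ∀ i ∈ s, S.Len k (f i)) : S.Len k (∑ i ∈ s, f i) :=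
  Finset.sum_induction _ (S.Len k) (fun _ _ h1 h2 => h1.add _ h2) (Len.zero' S k) h

/-- The simplicial boundary of a list. -/
noncomputable def bS (l : List V) : S.T →₀ ℤ :=
  ∑ i ∈ Finset.range l.length, (-1 : ℤ) ^ i • S.sg (l.eraseIdx i)

/-- The twisted boundary of a list. -/
noncomputable def bZ (l : List V) : S.T →₀ ℤ :=
  ∑ i ∈ Finset.range l.length, (-1 : ℤ) ^ i •
    (act ℤ (zi S.z l i) (S.sg (l.eraseIdx i)) - S.sg (l.eraseIdx i))

/-- The product of the `z_i - 1`. -/
noncomputable def pz (l : List V) : Module.End ℤ (S.T →₀ ℤ) :=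
  (l.map fun x => ((act ℤ (S.z x) : Module.End ℤ (S.T →₀ ℤ)) - 1)).prod

/-- The chain `∏ (z_i - 1) l`. -/
noncomputable def tS (l : List V) : S.T →₀ ℤ := S.pz l (S.sg l)

theorem bS_act (g : Γ) (l : List V) : S.bS (l.map (g • ·)) = act ℤ g (S.bS l) := by
  unfold bS
  rw [map_sum, List.length_map]
  refine Finset.sum_congr rfl fun i _ => ?_
  rw [map_smul, act_sg, List.eraseIdx_map]

theorem zi_map (g : Γ) (l : List V) (i : ℕ) :
    zi S.z (l.map (g • ·)) i = g * zi S.z l i * g⁻¹ := by
  by_cases h : i < l.length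
  · have h' : i < (l.map (g • ·)).length := by rwa [List.length_map]
    rw [zi_of_lt _ _ h, zi_of_lt _ _ h', List.getElem_map, S.zc]
  · unfold zi
    rw [List.getElem?_eq_none (by rw [List.length_map]; omega), List.getElem?_eq_none (by omega)]
    simp

theorem bZ_act (g : Γ) (l : List V) : S.bZ (l.map (g • ·)) = act ℤ g (S.bZ l) := by
  unfold bZ
  rw [map_sum, List.length_map]
  refine Finset.sum_congr rfl fun i _ => ?_
  have h1 : g * zi S.z l i * g⁻¹ * g = g * zi S.z l i := by group
  rw [map_smul, map_sub, List.eraseIdx_map, zi_map, ← S.act_sg g (l.eraseIdx i), ← act_mul,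
    ← act_mul, h1]

theorem pz_act (g : Γ) (l : List V) (u : S.T →₀ ℤ) :
    S.pz (l.map (g • ·)) (act ℤ g u) = act ℤ g (S.pz l u) := by
  induction l generalizing u with
  | nil => rfl
  | cons x l ih =>
    have h1 : ∀ (y : V) (m : List V) (w : S.T →₀ ℤ), S.pz (y :: m) w =
        act ℤ (S.z y) (S.pz m w) - S.pz m w := by
      intro y m w
      unfold pz
      rw [List.map_cons, List.prod_cons]
      rfl
    rw [List.map_cons, h1, h1, ih, S.zc, ← act_mul, map_sub, ← act_mul]
    have : g * S.z x * g⁻¹ * g = g * S.z x := by group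
    rw [this]

theorem tS_act (g : Γ) (l : List V) : S.tS (l.map (g • ·)) = act ℤ g (S.tS l) := by
  unfold tS
  rw [← act_sg, pz_act]

/-- Extension of a function on lists to the chains. -/
noncomputable def ex (f : List V → (S.T →₀ ℤ)) : (S.T →₀ ℤ) →ₗ[ℤ] (S.T →₀ ℤ) :=
  lin fun l : S.T => f l.1

theorem ex_sg (f : List V → (S.T →₀ ℤ)) {l : List V} (h : l ∈ S.A) : S.ex f (S.sg l) = f l := by
  rw [S.sg_of_mem h]
  exact lin_single _ _

theorem ex_act {f : List V → (S.T →₀ ℤ)} (hf : ∀ (g : Γ) l, f (l.map (g • ·)) = act ℤ g (f l))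
    (g : Γ) (u : S.T →₀ ℤ) : S.ex f (act ℤ g u) = act ℤ g (S.ex f u) :=
  lin_act (fun g l => hf g l.1) g u

/-- For a list of length at least 2, or for a function which vanishes on the empty list. -/
theorem ex_sg_erase (f : List V → (S.T →₀ ℤ)) (hf : f [] = 0) {l : List V} (hl : l ∈ S.A) {i : ℕ}
    (hi : i < l.length) : S.ex f (S.sg (l.eraseIdx i)) = f (l.eraseIdx i) := by
  by_cases h : 2 ≤ l.length
  · exact S.ex_sg f (S.erase l hl h i hi)
  · have h1 : l.eraseIdx i = [] := by
      rw [← List.length_eq_zero_iff, List.length_eraseIdx_of_lt hi]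
      omega
    rw [h1, S.sg_of_not (fun h => S.ne _ h rfl), map_zero, hf]

theorem length_pos {l : List V} (hl : l ∈ S.A) : 0 < l.length :=
  List.length_pos_iff.2 (S.ne l hl)

theorem bS_nil : S.bS [] = 0 := rfl

theorem bZ_nil : S.bZ [] = 0 := rfl

theorem tS_nil : S.tS [] = 0 := by
  unfold tS
  rw [S.sg_of_not (fun h => S.ne _ h rfl), map_zero]

theorem bS_bS {l : List V} (hl : l ∈ S.A) : S.ex S.bS (S.bS l) = 0 := by
  obtain ⟨n, hn⟩ : ∃ n, l.length = n + 1 := ⟨l.length - 1, by
    have := S.length_pos hl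
    omega⟩
  have h1 : S.ex S.bS (S.bS l) = ∑ i ∈ Finset.range (n + 1), ∑ j ∈ Finset.range n,
      ((-1 : ℤ) ^ i * (-1) ^ j) • S.sg ((l.eraseIdx i).eraseIdx j) := by
    conv_lhs => rw [bS, map_sum, hn]
    refine Finset.sum_congr rfl fun i hi => ?_
    have hi' := Finset.mem_range.1 hi
    rw [map_smul, S.ex_sg_erase _ S.bS_nil hl (by omega), bS,
      List.length_eraseIdx_of_lt (by omega), hn, Nat.add_sub_cancel, Finset.smul_sum]
    refine Finset.sum_congr rfl fun j _ => ?_
    rw [smul_smul]
  rw [h1]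
  refine alt_sq n (fun i j => S.sg ((l.eraseIdx i).eraseIdx j)) fun i j hij _ => ?_
  show S.sg _ = S.sg _
  rw [eraseIdx_comm l i j hij]

theorem commute_zi {l : List V} (hl : l ∈ S.A) (i j : ℕ) : Commute (zi S.z l i) (zi S.z l j) := by
  by_cases hi : i < l.length
  · by_cases hj : j < l.length
    · rw [zi_of_lt _ _ hi, zi_of_lt _ _ hj]
      exact S.comm l hl _ (List.getElem_mem _) _ (List.getElem_mem _)
    · have : zi S.z l j = 1 := by
        unfold zi
        rw [List.getElem?_eq_none (by omega)]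
        rfl
      rw [this]
      exact Commute.one_right _
  · have : zi S.z l i = 1 := by
      unfold zi
      rw [List.getElem?_eq_none (by omega)]
      rfl
    rw [this]
    exact Commute.one_left _

theorem bZ_bZ {l : List V} (hl : l ∈ S.A) : S.ex S.bZ (S.bZ l) = 0 := by
  obtain ⟨n, hn⟩ : ∃ n, l.length = n + 1 := ⟨l.length - 1, by
    have := S.length_pos hl
    omega⟩
  obtain ⟨F, hF⟩ : ∃ F : ℕ → ℕ → (S.T →₀ ℤ), F = fun i j =>
    act ℤ (zi S.z l i) (act ℤ (zi S.z (l.eraseIdx i) j) (S.sg ((l.eraseIdx i).eraseIdx j)) -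
      S.sg ((l.eraseIdx i).eraseIdx j)) -
    (act ℤ (zi S.z (l.eraseIdx i) j) (S.sg ((l.eraseIdx i).eraseIdx j)) -
      S.sg ((l.eraseIdx i).eraseIdx j)) := ⟨_, rfl⟩
  have h1 : S.ex S.bZ (S.bZ l) = ∑ i ∈ Finset.range (n + 1), ∑ j ∈ Finset.range n,
      ((-1 : ℤ) ^ i * (-1) ^ j) • F i j := by
    conv_lhs => rw [bZ, map_sum, hn]
    refine Finset.sum_congr rfl fun i hi => ?_
    have hi' := Finset.mem_range.1 hi
    rw [map_smul, map_sub, S.ex_act S.bZ_act, S.ex_sg_erase _ S.bZ_nil hl (by omega), bZ,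
      List.length_eraseIdx_of_lt (by omega), hn, Nat.add_sub_cancel, map_sum,
      ← Finset.sum_sub_distrib, Finset.smul_sum]
    refine Finset.sum_congr rfl fun j _ => ?_
    rw [map_smul, ← smul_sub, smul_smul, hF]
  rw [h1]
  refine alt_sq n F fun i j hij _ => ?_
  rw [hF]
  show _ - _ = _ - _
  rw [zi_erase _ _ hij, zi_erase' _ _ hij, eraseIdx_comm l i j hij]
  have hc := S.commute_zi hl i (j + 1)
  rw [map_sub, map_sub, ← act_mul, ← act_mul, hc.eq]
  abel

theorem pz_ex {f : List V → (S.T →₀ ℤ)} (hf : ∀ (g : Γ) l, f (l.map (g • ·)) = act ℤ g (f l))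
    (l : List V) (u : S.T →₀ ℤ) : S.ex f (S.pz l u) = S.pz l (S.ex f u) := by
  induction l generalizing u with
  | nil => rfl
  | cons x l ih =>
    have h1 : ∀ (y : V) (m : List V) (w : S.T →₀ ℤ), S.pz (y :: m) w =
        act ℤ (S.z y) (S.pz m w) - S.pz m w := by
      intro y m w
      unfold pz
      rw [List.map_cons, List.prod_cons]
      rfl
    rw [h1, h1, map_sub, S.ex_act hf, ih]

theorem pz_erase {l : List V} (hl : l ∈ S.A) {i : ℕ} (hi : i < l.length) (u : S.T →₀ ℤ) :
    act ℤ (zi S.z l i) (S.pz (l.eraseIdx i) u) - S.pz (l.eraseIdx i) u = S.pz l u := by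
  obtain ⟨m, hm⟩ : ∃ m, m = l.map fun x => ((act ℤ (S.z x) : Module.End ℤ (S.T →₀ ℤ)) - 1) :=
    ⟨_, rfl⟩
  have hi' : i < m.length := by
    rw [hm, List.length_map]
    exact hi
  have hcomm : ∀ x ∈ l, ∀ y ∈ l, Commute ((act ℤ (S.z x) : Module.End ℤ (S.T →₀ ℤ)) - 1)
      ((act ℤ (S.z y) : Module.End ℤ (S.T →₀ ℤ)) - 1) := by
    intro x hx y hy
    have h1 : Commute (act ℤ (S.z x) : Module.End ℤ (S.T →₀ ℤ)) (act ℤ (S.z y)) := by
      apply LinearMap.ext
      intro w
      show act ℤ (S.z x) (act ℤ (S.z y) w) = act ℤ (S.z y) (act ℤ (S.z x) w)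
      rw [← act_mul, ← act_mul, (S.comm l hl x hx y hy).eq]
    exact ((h1.sub_left (Commute.one_left _)).sub_right
      ((Commute.one_right _).sub_left (Commute.one_left _)))
  have h1 := List.mul_prod_eraseIdx hi' (by
    intro a ha
    have ha' := List.mem_of_mem_take ha
    rw [hm] at ha'
    obtain ⟨y, hy, rfl⟩ := List.mem_map.1 ha'
    have h2 : m[i] = (act ℤ (S.z l[i]) : Module.End ℤ (S.T →₀ ℤ)) - 1 := by
      simp only [hm, List.getElem_map]
    rw [h2]
    exact hcomm _ (List.getElem_mem _) y hy)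
  have h2 : m[i] = (act ℤ (S.z l[i]) : Module.End ℤ (S.T →₀ ℤ)) - 1 := by
    simp only [hm, List.getElem_map]
  have h3 : m.eraseIdx i = (l.eraseIdx i).map fun x =>
      ((act ℤ (S.z x) : Module.End ℤ (S.T →₀ ℤ)) - 1) := by
    rw [hm, List.eraseIdx_map]
  rw [h2, h3] at h1
  have h4 := LinearMap.congr_fun h1 u
  rw [zi_of_lt _ _ hi]
  unfold pz
  rw [← hm, ← h4]
  rfl

theorem bS_tS {l : List V} (hl : l ∈ S.A) : S.ex S.bS (S.tS l) = S.ex S.tS (S.bZ l) := by
  conv_lhs => rw [tS, S.pz_ex S.bS_act, S.ex_sg _ hl, bS, map_sum]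
  conv_rhs => rw [bZ, map_sum]
  refine Finset.sum_congr rfl fun i hi => ?_
  have hi' := Finset.mem_range.1 hi
  rw [map_smul, map_smul, map_sub, S.ex_act S.tS_act, S.ex_sg_erase _ S.tS_nil hl hi', tS,
    S.pz_erase hl hi']

/-! ## The complex -/

/-- The inclusion of the chains of lists. -/
noncomputable def io (b : Bool) : (S.T →₀ ℤ) →ₗ[ℤ] (S.Cell →₀ ℤ) :=
  Finsupp.lmapDomain ℤ ℤ fun l : S.T => ((l, b) : S.T × Bool)

theorem io_single (b : Bool) (l : S.T) (r : ℤ) :
    S.io b (Finsupp.single l r) = Finsupp.single ((l, b) : S.T × Bool) r := by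
  unfold io
  rw [Finsupp.lmapDomain_apply, Finsupp.mapDomain_single]

theorem io_apply (b : Bool) (u : S.T →₀ ℤ) (l : S.T) : S.io b u ((l, b) : S.T × Bool) = u l := by
  unfold io
  rw [Finsupp.lmapDomain_apply]
  exact Finsupp.mapDomain_apply (f := fun l : S.T => ((l, b) : S.T × Bool))
    (fun x y h => congrArg Prod.fst h) u l

theorem io_apply_ne {b b' : Bool} (h : b ≠ b') (u : S.T →₀ ℤ) (l : S.T) :
    S.io b u ((l, b') : S.T × Bool) = 0 := by
  unfold io
  rw [Finsupp.lmapDomain_apply]
  apply Finsupp.mapDomain_of_notMem_range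
  rintro ⟨x, hx⟩
  exact h (congrArg Prod.snd hx)

theorem io_act (b : Bool) (g : Γ) (u : S.T →₀ ℤ) : S.io b (act ℤ g u) = act ℤ g (S.io b u) := by
  induction u using Finsupp.induction_linear with
  | zero => simp only [map_zero]
  | add u v hu hv => rw [map_add, map_add, map_add, map_add, hu, hv]
  | single c r =>
    rw [act_single, io_single, io_single, act_single]
    rfl

/-- The boundary. -/
noncomputable def bB (c : S.Cell) : S.Cell →₀ ℤ :=
  match c with
  | (l, false) => S.io false (S.bS l.1)
  | (l, true) => S.io false (S.tS l.1) - S.io true (S.bZ l.1)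

/-- The complex. -/
noncomputable def cx : Cx ℤ S.Cell where
  dim c := match c with
    | (l, false) => l.1.length - 1
    | (l, true) => l.1.length
  bd := S.bB
  eps c := match c with
    | (l, false) => if l.1.length = 1 then 1 else 0
    | (_, true) => 0

theorem lin_io_false (u : S.T →₀ ℤ) : lin S.bB (S.io false u) = S.io false (S.ex S.bS u) := by
  induction u using Finsupp.induction_linear with
  | zero => simp only [map_zero]
  | add u v hu hv => rw [map_add, map_add, map_add, map_add, hu, hv]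
  | single c r =>
    rw [io_single, lin, Finsupp.linearCombination_single, ex, lin,
      Finsupp.linearCombination_single, map_smul]
    rfl

theorem lin_io_true (u : S.T →₀ ℤ) : lin S.bB (S.io true u) =
    S.io false (S.ex S.tS u) - S.io true (S.ex S.bZ u) := by
  induction u using Finsupp.induction_linear with
  | zero => simp only [map_zero, sub_zero]
  | add u v hu hv =>
    rw [map_add, map_add, map_add, map_add, map_add, map_add, hu, hv]
    abel
  | single c r =>
    rw [io_single, lin, Finsupp.linearCombination_single, ex, ex, lin, lin,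
      Finsupp.linearCombination_single, Finsupp.linearCombination_single, map_smul, map_smul,
      ← smul_sub]
    rfl

theorem ex_zero {f : List V → (S.T →₀ ℤ)} {u : S.T →₀ ℤ}
    (h : ∀ l : S.T, S.ex f (f l.1) = 0) : S.ex f (S.ex f u) = 0 := by
  induction u using Finsupp.induction_linear with
  | zero => simp only [map_zero]
  | add u v hu hv => rw [map_add, map_add, hu, hv, add_zero]
  | single c r =>
    have : S.ex f (Finsupp.single c r) = r • f c.1 := by
      rw [ex, lin, Finsupp.linearCombination_single]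
    rw [this, map_smul, h, smul_zero]

theorem lenBS {l : List V} {k : ℕ} (h : l.length = k + 1) : S.Len k (S.bS l) := by
  unfold bS
  refine Len.sum S _ _ fun i hi => ?_
  have hi' := Finset.mem_range.1 hi
  refine Len.smul S (Len.sg S ?_) _
  rw [List.length_eraseIdx_of_lt hi', h, Nat.add_sub_cancel]

theorem lenBZ {l : List V} {k : ℕ} (h : l.length = k + 1) : S.Len k (S.bZ l) := by
  unfold bZ
  refine Len.sum S _ _ fun i hi => ?_
  have hi' := Finset.mem_range.1 hi
  have h1 : S.Len k (S.sg (l.eraseIdx i)) := Len.sg S (by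
    rw [List.length_eraseIdx_of_lt hi', h, Nat.add_sub_cancel])
  exact Len.smul S ((h1.act S _).sub S h1) _

theorem lenPz {u : S.T →₀ ℤ} {k : ℕ} (hu : S.Len k u) (l : List V) : S.Len k (S.pz l u) := by
  induction l with
  | nil => exact hu
  | cons x l ih =>
    have h1 : S.pz (x :: l) u = act ℤ (S.z x) (S.pz l u) - S.pz l u := by
      unfold pz
      rw [List.map_cons, List.prod_cons]
      rfl
    rw [h1]
    exact (ih.act S _).sub S ih

theorem lenTS (l : List V) : S.Len l.length (S.tS l) := S.lenPz (Len.sg S rfl) l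

theorem len_zero {u : S.T →₀ ℤ} (hu : S.Len 0 u) : u = 0 := by
  ext l
  by_contra h
  have h1 := hu l h
  have h2 := S.length_pos l.2
  omega

/-- The augmentation on the chains of lists. -/
theorem eps_io_false (u : S.T →₀ ℤ) : lin S.cx.eps (S.io false u) =
    lin (fun l : S.T => if l.1.length = 1 then (1 : ℤ) else 0) u := by
  induction u using Finsupp.induction_linear with
  | zero => simp only [map_zero]
  | add u v hu hv => rw [map_add, map_add, map_add, hu, hv]
  | single c r =>
    rw [io_single, lin, Finsupp.linearCombination_single, lin, Finsupp.linearCombination_single]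
    rfl

theorem eps_io_true (u : S.T →₀ ℤ) : lin S.cx.eps (S.io true u) = 0 := by
  induction u using Finsupp.induction_linear with
  | zero => simp only [map_zero]
  | add u v hu hv => rw [map_add, map_add, hu, hv, add_zero]
  | single c r =>
    rw [io_single, lin, Finsupp.linearCombination_single]
    exact mul_zero r

theorem eps_len {u : S.T →₀ ℤ} {k : ℕ} (hu : S.Len k u) (hk : k ≠ 1) :
    lin (fun l : S.T => if l.1.length = 1 then (1 : ℤ) else 0) u = 0 := by
  have h1 : lin (fun l : S.T => if l.1.length = 1 then (1 : ℤ) else 0) u =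
      lin (fun _ : S.T => (0 : ℤ)) u := by
    apply lin_congr
    intro c hc
    have := hu c hc
    rw [if_neg (by omega)]
  rw [h1, lin, Finsupp.linearCombination_apply]
  simp

theorem isCx : IsCx Γ S.cx where
  dim_smul g c := by
    obtain ⟨l, b⟩ := c
    cases b
    · show (l.1.map (g • ·)).length - 1 = l.1.length - 1
      rw [List.length_map]
    · show (l.1.map (g • ·)).length = l.1.length
      rw [List.length_map]
  bd_smul g c := by
    obtain ⟨l, b⟩ := c
    cases b
    · show S.io false (S.bS (l.1.map (g • ·))) = act ℤ g (S.io false (S.bS l.1))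
      rw [bS_act, io_act]
    · show S.io false (S.tS (l.1.map (g • ·))) - S.io true (S.bZ (l.1.map (g • ·))) =
        act ℤ g (S.io false (S.tS l.1) - S.io true (S.bZ l.1))
      rw [tS_act, bZ_act, io_act, io_act, map_sub]
  eps_smul g c := by
    obtain ⟨l, b⟩ := c
    cases b
    · show (if (l.1.map (g • ·)).length = 1 then (1 : ℤ) else 0) = if l.1.length = 1 then 1 else 0
      rw [List.length_map]
    · rfl
  bd_dim c p hp := by
    obtain ⟨l, b⟩ := c
    obtain ⟨m, b'⟩ := p
    have hl := S.length_pos l.2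
    have hm := S.length_pos m.2
    cases b
    · have hp' : S.io false (S.bS l.1) ((m, b') : S.T × Bool) ≠ 0 := hp
      cases b'
      · rw [io_apply] at hp'
        have h1 := S.lenBS (l := l.1) (k := l.1.length - 1) (by omega) m hp'
        show l.1.length - 1 = m.1.length - 1 + 1
        omega
      · rw [S.io_apply_ne (by decide)] at hp'
        exact absurd rfl hp'
    · have hp' : (S.io false (S.tS l.1) - S.io true (S.bZ l.1)) ((m, b') : S.T × Bool) ≠ 0 := hp
      rw [Finsupp.sub_apply] at hp'
      cases b'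
      · rw [io_apply, S.io_apply_ne (by decide), sub_zero] at hp'
        have h1 := S.lenTS l.1 m hp'
        show l.1.length = m.1.length - 1 + 1
        omega
      · rw [io_apply, S.io_apply_ne (by decide), zero_sub, neg_ne_zero] at hp'
        have h1 := S.lenBZ (l := l.1) (k := l.1.length - 1) (by omega) m hp'
        show l.1.length = m.1.length + 1
        omega
  bd_bd c := by
    obtain ⟨l, b⟩ := c
    cases b
    · show lin S.bB (S.io false (S.bS l.1)) = 0
      rw [lin_io_false, S.bS_bS l.2, map_zero]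
    · show lin S.bB (S.io false (S.tS l.1) - S.io true (S.bZ l.1)) = 0
      rw [map_sub, lin_io_false, lin_io_true, S.bS_tS l.2, S.bZ_bZ l.2, map_zero, sub_zero,
        sub_self]
  eps_bd c := by
    obtain ⟨l, b⟩ := c
    have hl := S.length_pos l.2
    cases b
    · show lin S.cx.eps (S.io false (S.bS l.1)) = 0
      rw [eps_io_false]
      by_cases h2 : l.1.length = 2
      · unfold bS
        rw [h2, Finset.sum_range_succ, Finset.sum_range_succ, Finset.sum_range_zero, zero_add,
          map_add, map_smul, map_smul]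
        have h3 : ∀ i < 2, lin (fun l : S.T => if l.1.length = 1 then (1 : ℤ) else 0)
            (S.sg (l.1.eraseIdx i)) = 1 := by
          intro i hi
          rw [S.sg_of_mem (S.erase l.1 l.2 (by omega) i (by omega)), lin_single]
          show (if (l.1.eraseIdx i).length = 1 then (1 : ℤ) else 0) = 1
          rw [if_pos]
          rw [List.length_eraseIdx_of_lt (by omega), h2]
        rw [h3 0 (by norm_num), h3 1 (by norm_num)]
        norm_num
      · exact S.eps_len (S.lenBS (l := l.1) (k := l.1.length - 1) (by omega)) (by omega)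
    · show lin S.cx.eps (S.io false (S.tS l.1) - S.io true (S.bZ l.1)) = 0
      rw [map_sub, eps_io_false, eps_io_true, sub_zero]
      by_cases h1 : l.1.length = 1
      · obtain ⟨x, hx⟩ := List.length_eq_one_iff.1 h1
        have h2 : S.tS l.1 = act ℤ (S.z x) (S.sg l.1) - S.sg l.1 := by
          unfold tS pz
          conv_lhs => rw [hx]
          rw [List.map_cons, List.map_nil, List.prod_cons, List.prod_nil, mul_one, hx]
          rfl
        rw [h2, map_sub, lin_act_inv (fun g l => by
          show (if (l.1.map (g • ·)).length = 1 then (1 : ℤ) else 0) = _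
          rw [List.length_map]), sub_self]
      · exact S.eps_len (S.lenTS l.1) h1
  free g c h := S.Cell_free g c h

end LS

end ThickThin
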