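import Mathlib
import Pool.Agent.Lib_MP_9dbe3a.ABase

/-!
# Thick-thin, algebra: chains of lists, cones and subdivisions
-/

namespace ThickThin

section

variable {C M : Type} [AddCommGroup M]

theorem lin_mem (N : Submodule ℤ M) {f : C → M} {u : C →₀ ℤ} (h : ∀ c, u c ≠ 0 → f c ∈ N) :
    lin f u ∈ N := by
  rw [lin, Finsupp.linearCombination_apply]
  exact Submodule.sum_mem _ fun c hc => N.smul_mem _ (h c (Finsupp.mem_support_iff.1 hc))

theorem mem_spt {s : Set C} {u : C →₀ ℤ} : u ∈ Finsupp.supported ℤ ℤ s ↔ ∀ c, u c ≠ 0 → c ∈ s := by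
  rw [Finsupp.mem_supported]
  constructor
  · intro h c hc
    exact h (Finset.mem_coe.2 (Finsupp.mem_support_iff.2 hc))
  · intro h c hc
    exact h c (Finsupp.mem_support_iff.1 (Finset.mem_coe.1 hc))

theorem spt_mono {s t : Set C} (h : s ⊆ t) {u : C →₀ ℤ} (hu : u ∈ Finsupp.supported ℤ ℤ s) :
    u ∈ Finsupp.supported ℤ ℤ t := mem_spt.2 fun c hc => h (mem_spt.1 hu c hc)

end

section

variable {Y : Type}

/-- The chain with a new first entry. -/
noncomputable def pre (y : Y) : (List Y →₀ ℤ) →ₗ[ℤ] (List Y →₀ ℤ) :=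
  Finsupp.lmapDomain ℤ ℤ (y :: ·)

theorem pre_single (y : Y) (l : List Y) (r : ℤ) :
    pre y (Finsupp.single l r) = Finsupp.single (y :: l) r := by
  unfold pre
  rw [Finsupp.lmapDomain_apply, Finsupp.mapDomain_single]

theorem pre_eq (y : Y) (u : List Y →₀ ℤ) :
    pre y u = lin (fun l => Finsupp.single (y :: l) (1 : ℤ)) u := by
  induction u using Finsupp.induction_linear with
  | zero => rw [map_zero, map_zero]
  | add u v hu hv => rw [map_add, map_add, hu, hv]
  | single l r =>
    rw [pre_single, lin, Finsupp.linearCombination_single, Finsupp.smul_single_one]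

/-- The boundary of a list (augmented: the boundary of a list of length one is the empty list). -/
noncomputable def bdl : List Y → (List Y →₀ ℤ)
  | [] => 0
  | y :: l => Finsupp.single l 1 - pre y (bdl l)

theorem bdl_cons (y : Y) (l : List Y) : bdl (y :: l) = Finsupp.single l 1 - pre y (bdl l) := rfl

theorem lin_bdl_pre (y : Y) (u : List Y →₀ ℤ) : lin bdl (pre y u) = u - pre y (lin bdl u) := by
  induction u using Finsupp.induction_linear with
  | zero => simp only [map_zero, sub_zero]
  | add u v hu hv =>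
    rw [map_add, map_add, hu, hv, map_add, map_add]
    abel
  | single l r =>
    rw [pre_single, lin, Finsupp.linearCombination_single, Finsupp.linearCombination_single,
      bdl_cons, smul_sub, map_smul, Finsupp.smul_single_one]

theorem lin_bdl_bdl (l : List Y) : lin bdl (bdl l) = 0 := by
  induction l with
  | nil => exact map_zero _
  | cons y l ih =>
    rw [bdl_cons, map_sub, lin_single, lin_bdl_pre, ih, map_zero, sub_zero, sub_self]

theorem bdl_spt (l : List Y) : bdl l ∈ Finsupp.supported ℤ ℤ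
    {l' : List Y | l'.length + 1 = l.length ∧ ∀ x ∈ l', x ∈ l} := by
  induction l with
  | nil => exact Submodule.zero_mem _
  | cons y l ih =>
    rw [bdl_cons, pre_eq]
    refine Submodule.sub_mem _ ?_ ?_
    · exact Finsupp.single_mem_supported ℤ 1 ⟨rfl, fun x hx => List.mem_cons_of_mem y hx⟩
    · refine lin_mem _ fun l' hl' => ?_
      obtain ⟨h1, h2⟩ := mem_spt.1 ih l' hl'
      refine Finsupp.single_mem_supported ℤ 1 ⟨?_, ?_⟩
      · rw [List.length_cons, List.length_cons, h1]
      · intro x hx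
        rcases List.mem_cons.1 hx with h | h
        · rw [h]
          exact List.mem_cons_self
        · exact List.mem_cons_of_mem y (h2 x h)

theorem bdl_sum (l : List Y) : bdl l = ∑ i ∈ Finset.range l.length,
    (-1 : ℤ) ^ i • Finsupp.single (l.eraseIdx i) (1 : ℤ) := by
  induction l with
  | nil => rfl
  | cons y l ih =>
    rw [bdl_cons, List.length_cons, Finset.sum_range_succ', ih, map_sum]
    simp only [map_smul, pre_single, List.eraseIdx_cons_succ, List.eraseIdx_cons_zero, pow_succ,
      pow_zero, one_smul, mul_neg, mul_one, neg_smul, Finset.sum_neg_distrib]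
    abel

/-! ## Subdivision -/

section

variable [DecidableEq Y] (cen : Finset Y → Y)

/-- The subdivision of the lists of length `n`. -/
noncomputable def sdN : ℕ → List Y → (List Y →₀ ℤ)
  | 0, _ => Finsupp.single [] 1
  | n + 1, l => pre (cen l.toFinset) (lin (sdN n) (bdl l))

/-- The subdivision of a list. -/
noncomputable def sd (l : List Y) : List Y →₀ ℤ := sdN cen l.length l

theorem sd_nil : sd cen ([] : List Y) = Finsupp.single [] 1 := rfl

theorem sd_cons {l : List Y} (hl : l ≠ []) :
    sd cen l = pre (cen l.toFinset) (lin (sd cen) (bdl l)) := by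
  have h0 : 0 < l.length := List.length_pos_iff.2 hl
  obtain ⟨n, hn⟩ : ∃ n, l.length = n + 1 := ⟨l.length - 1, by omega⟩
  have h1 : sd cen l = pre (cen l.toFinset) (lin (sdN cen n) (bdl l)) := by
    unfold sd
    rw [hn]
    rfl
  rw [h1]
  congr 1
  apply lin_congr
  intro l' hl'
  have h2 := (mem_spt.1 (bdl_spt l) l' hl').1
  unfold sd
  rw [show l'.length = n by omega]

theorem bdl_sd (n : ℕ) : ∀ l : List Y, l.length = n → lin bdl (sd cen l) = lin (sd cen) (bdl l) := by
  induction n with
  | zero =>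
    intro l hl
    rw [List.length_eq_zero_iff.1 hl, sd_nil, lin_single]
    exact (map_zero _).symm
  | succ n ih =>
    intro l hl
    rw [sd_cons cen (List.ne_nil_of_length_eq_add_one hl), lin_bdl_pre]
    have h1 : lin bdl (lin (sd cen) (bdl l)) = 0 := by
      rw [lin_lin]
      have h2 : lin (fun c => lin bdl (sd cen c)) (bdl l) =
          lin (fun c => lin (sd cen) (bdl c)) (bdl l) := by
        apply lin_congr
        intro l' hl'
        have h3 := (mem_spt.1 (bdl_spt l) l' hl').1
        exact ih l' (by omega)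
      rw [h2, ← lin_lin, lin_bdl_bdl, map_zero]
    rw [h1, map_zero, sub_zero]

theorem sd_spt {P : Set Y} (hP : ∀ s : Finset Y, s.Nonempty → (∀ x ∈ s, x ∈ P) → cen s ∈ P) (n : ℕ) :
    ∀ l : List Y, l.length = n → (∀ x ∈ l, x ∈ P) →
      sd cen l ∈ Finsupp.supported ℤ ℤ {l' : List Y | l'.length = n ∧ ∀ x ∈ l', x ∈ P} := by
  induction n with
  | zero =>
    intro l hl _
    rw [List.length_eq_zero_iff.1 hl, sd_nil]
    exact Finsupp.single_mem_supported ℤ 1 ⟨rfl, fun x hx => absurd hx List.not_mem_nil⟩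
  | succ n ih =>
    intro l hl hlP
    have hne := List.ne_nil_of_length_eq_add_one hl
    rw [sd_cons cen hne, pre_eq]
    refine lin_mem _ fun l' hl' => ?_
    have h1 : lin (sd cen) (bdl l) ∈ Finsupp.supported ℤ ℤ
        {l' : List Y | l'.length = n ∧ ∀ x ∈ l', x ∈ P} := by
      refine lin_mem _ fun l'' hl'' => ?_
      obtain ⟨h2, h3⟩ := mem_spt.1 (bdl_spt l) l'' hl''
      exact ih l'' (by omega) fun x hx => hlP x (h3 x hx)
    obtain ⟨h2, h3⟩ := mem_spt.1 h1 l' hl'
    refine Finsupp.single_mem_supported ℤ 1 ⟨?_, ?_⟩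
    · rw [List.length_cons, h2]
    · intro x hx
      rcases List.mem_cons.1 hx with h | h
      · rw [h]
        refine hP _ ?_ fun y hy => hlP y (List.mem_toFinset.1 hy)
        rwa [List.toFinset_nonempty_iff]
      · exact h3 x h

end

end

/-! ## Distances -/

section

variable {Y : Type} [MetricSpace Y] [DecidableEq Y] {cen : Finset Y → Y}

theorem sd_dist (h1 : ∀ (s : Finset Y), s.Nonempty → ∀ (p : Y) (R : ℝ), (∀ x ∈ s, dist p x ≤ R) →
      dist p (cen s) ≤ R)
    (h2 : ∀ (s : Finset Y) (d : ℝ), (∀ x ∈ s, ∀ y ∈ s, dist x y ≤ d) →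
      ∀ x ∈ s, dist (cen s) x ≤ 3 / 4 * d) {d : ℝ} (hd : 0 ≤ d) (n : ℕ) :
    ∀ l : List Y, l.length = n → (∀ x ∈ l, ∀ y ∈ l, dist x y ≤ d) →
      sd cen l ∈ Finsupp.supported ℤ ℤ {l' : List Y | ∀ x ∈ l', ∀ y ∈ l', dist x y ≤ 3 / 4 * d} := by
  induction n with
  | zero =>
    intro l hl _
    rw [List.length_eq_zero_iff.1 hl, sd_nil]
    exact Finsupp.single_mem_supported ℤ 1 (fun x hx => absurd hx List.not_mem_nil)
  | succ n ih =>
    intro l hl hlP
    have hne := List.ne_nil_of_length_eq_add_one hl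
    rw [sd_cons cen hne, pre_eq]
    refine lin_mem _ fun l' hl' => ?_
    have h3 : lin (sd cen) (bdl l) ∈ Finsupp.supported ℤ ℤ
        {l' : List Y | ∀ x ∈ l', ∀ y ∈ l', dist x y ≤ 3 / 4 * d} := by
      refine lin_mem _ fun l'' hl'' => ?_
      obtain ⟨h4, h5⟩ := mem_spt.1 (bdl_spt l) l'' hl''
      exact ih l'' (by omega) fun x hx y hy => hlP x (h5 x hx) y (h5 y hy)
    have h4 : lin (sd cen) (bdl l) ∈ Finsupp.supported ℤ ℤ
        {l' : List Y | l'.length = n ∧ ∀ x ∈ l', x ∈ {y | dist (cen l.toFinset) y ≤ 3 / 4 * d}} := by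
      refine lin_mem _ fun l'' hl'' => ?_
      obtain ⟨h5, h6⟩ := mem_spt.1 (bdl_spt l) l'' hl''
      refine sd_spt cen (fun s hs hsP => ?_) n l'' (by omega) fun x hx => ?_
      · exact h1 s hs _ _ hsP
      · refine h2 l.toFinset d (fun x hx y hy => hlP x (List.mem_toFinset.1 hx) y
          (List.mem_toFinset.1 hy)) x (List.mem_toFinset.2 (h6 x hx))
    have h5 := mem_spt.1 h3 l' hl'
    have h6 := (mem_spt.1 h4 l' hl').2
    refine Finsupp.single_mem_supported ℤ 1 ?_
    intro x hx y hy
    rcases List.mem_cons.1 hx with h | h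
    · rcases List.mem_cons.1 hy with h' | h'
      · rw [h, h', dist_self]
        positivity
      · rw [h]
        exact h6 y h'
    · rcases List.mem_cons.1 hy with h' | h'
      · rw [h', dist_comm]
        exact h6 x h
      · exact h5 x h y h'

end

/-! ## Equivariance -/

section

variable {Γ Y : Type} [Group Γ] [MulAction Γ Y]

/-- The action on the chains of lists. -/
noncomputable def mp (g : Γ) : (List Y →₀ ℤ) →ₗ[ℤ] (List Y →₀ ℤ) :=
  Finsupp.lmapDomain ℤ ℤ (List.map (g • ·))

theorem mp_single (g : Γ) (l : List Y) (r : ℤ) :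
    mp g (Finsupp.single l r) = Finsupp.single (l.map (g • ·)) r := by
  unfold mp
  rw [Finsupp.lmapDomain_apply, Finsupp.mapDomain_single]

theorem mp_eq (g : Γ) (u : List Y →₀ ℤ) :
    mp g u = lin (fun l => Finsupp.single (l.map (g • ·)) (1 : ℤ)) u := by
  induction u using Finsupp.induction_linear with
  | zero => rw [map_zero, map_zero]
  | add u v hu hv => rw [map_add, map_add, hu, hv]
  | single l r =>
    rw [mp_single, lin, Finsupp.linearCombination_single, Finsupp.smul_single_one]

theorem mp_one (u : List Y →₀ ℤ) : mp (1 : Γ) u = u := by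
  induction u using Finsupp.induction_linear with
  | zero => rw [map_zero]
  | add u v hu hv => rw [map_add, hu, hv]
  | single l r =>
    rw [mp_single]
    simp only [one_smul, List.map_id']

theorem mp_mul (g h : Γ) (u : List Y →₀ ℤ) : mp (g * h) u = mp g (mp h u) := by
  induction u using Finsupp.induction_linear with
  | zero => simp only [map_zero]
  | add u v hu hv => rw [map_add, hu, hv, map_add, map_add]
  | single l r =>
    rw [mp_single, mp_single, mp_single, List.map_map]
    congr 1
    apply List.map_congr_left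
    intro x _
    exact mul_smul g h x

theorem mp_pre (g : Γ) (y : Y) (u : List Y →₀ ℤ) : mp g (pre y u) = pre (g • y) (mp g u) := by
  induction u using Finsupp.induction_linear with
  | zero => simp only [map_zero]
  | add u v hu hv => rw [map_add, map_add, hu, hv, map_add, map_add]
  | single l r =>
    rw [pre_single, mp_single, mp_single, pre_single, List.map_cons]

theorem lin_mp {f : List Y → (List Y →₀ ℤ)} {s : Set (List Y)}
    (hf : ∀ (g : Γ), ∀ l ∈ s, f (l.map (g • ·)) = mp g (f l)) (g : Γ) {u : List Y →₀ ℤ}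
    (hu : u ∈ Finsupp.supported ℤ ℤ s) : lin f (mp g u) = mp g (lin f u) := by
  have h1 : mp g (lin f u) = lin (fun l => mp g (f l)) u := by
    rw [lin, lin, Finsupp.linearCombination_apply, Finsupp.linearCombination_apply, Finsupp.sum,
      Finsupp.sum, map_sum]
    exact Finset.sum_congr rfl fun l _ => map_smul _ _ _
  rw [h1, mp_eq, lin_lin]
  apply lin_congr
  intro l hl
  rw [lin_single, hf g l (mem_spt.1 hu l hl)]

theorem bdl_map (g : Γ) (l : List Y) : bdl (l.map (g • ·)) = mp g (bdl l) := by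
  induction l with
  | nil => exact (map_zero _).symm
  | cons y l ih =>
    rw [List.map_cons, bdl_cons, bdl_cons, map_sub, mp_single, mp_pre, ih]

theorem sd_map [DecidableEq Y] {cen : Finset Y → Y}
    (hc : ∀ (g : Γ) (s : Finset Y), s.Nonempty → cen (s.image (g • ·)) = g • cen s) (g : Γ)
    (n : ℕ) : ∀ l : List Y, l.length = n → sd cen (l.map (g • ·)) = mp g (sd cen l) := by
  induction n with
  | zero =>
    intro l hl
    rw [List.length_eq_zero_iff.1 hl, List.map_nil, sd_nil, mp_single, List.map_nil]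
  | succ n ih =>
    intro l hl
    have hne := List.ne_nil_of_length_eq_add_one hl
    have hne' : l.map (g • ·) ≠ [] := by
      rw [Ne, List.map_eq_nil_iff]
      exact hne
    rw [sd_cons cen hne', sd_cons cen hne, mp_pre, bdl_map]
    have h1 : (l.map (g • ·)).toFinset = l.toFinset.image (g • ·) := by
      ext x
      simp only [List.mem_toFinset, List.mem_map, Finset.mem_image]
    rw [h1, hc g _ ((List.toFinset_nonempty_iff l).2 hne)]
    congr 1
    have h2 : mp g (lin (sd cen) (bdl l)) = lin (fun l => mp g (sd cen l)) (bdl l) := by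
      rw [lin, lin, Finsupp.linearCombination_apply, Finsupp.linearCombination_apply, Finsupp.sum,
        Finsupp.sum, map_sum]
      exact Finset.sum_congr rfl fun l _ => map_smul _ _ _
    rw [h2, mp_eq, lin_lin]
    apply lin_congr
    intro l' hl'
    have h3 := (mem_spt.1 (bdl_spt l) l' hl').1
    rw [lin_single, ih l' (by omega)]

end

/-! ## Iterated subdivision -/

section

variable {Y : Type} [DecidableEq Y]

/-- Subdivision as an endomorphism. -/
noncomputable def SD (cen : Finset Y → Y) : Module.End ℤ (List Y →₀ ℤ) := lin (sd cen)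

theorem SD_apply (cen : Finset Y → Y) (u : List Y →₀ ℤ) : SD cen u = lin (sd cen) u := rfl

theorem bdl_SD (cen : Finset Y → Y) (m : ℕ) (u : List Y →₀ ℤ) :
    lin bdl ((SD cen ^ m) u) = (SD cen ^ m) (lin bdl u) := by
  induction m with
  | zero => rfl
  | succ m ih =>
    rw [pow_succ', Module.End.mul_apply, Module.End.mul_apply, ← ih, SD_apply, SD_apply, lin_lin,
      lin_lin]
    apply lin_congr
    intro l _
    exact bdl_sd cen _ l rfl

theorem SD_nil (cen : Finset Y → Y) (m : ℕ) (r : ℤ) :
    (SD cen ^ m) (Finsupp.single [] r) = Finsupp.single [] r := by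
  induction m with
  | zero => rfl
  | succ m ih =>
    rw [pow_succ', Module.End.mul_apply, ih, SD_apply, lin, Finsupp.linearCombination_single,
      sd_nil, Finsupp.smul_single_one]

theorem SD_mp {Γ : Type} [Group Γ] [MulAction Γ Y] {cen : Finset Y → Y}
    (hc : ∀ (g : Γ) (s : Finset Y), s.Nonempty → cen (s.image (g • ·)) = g • cen s) (g : Γ)
    (m : ℕ) (u : List Y →₀ ℤ) : (SD cen ^ m) (mp g u) = mp g ((SD cen ^ m) u) := by
  induction m with
  | zero => rfl
  | succ m ih =>
    rw [pow_succ', Module.End.mul_apply, Module.End.mul_apply, ih, SD_apply, SD_apply]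
    exact lin_mp (s := Set.univ) (fun g l _ => sd_map hc g _ l rfl) g
      (mem_spt.2 fun _ _ => Set.mem_univ _)

theorem SD_spt {cen : Finset Y → Y} {P : Set Y}
    (hP : ∀ s : Finset Y, s.Nonempty → (∀ x ∈ s, x ∈ P) → cen s ∈ P) (n m : ℕ)
    {u : List Y →₀ ℤ}
    (hu : u ∈ Finsupp.supported ℤ ℤ {l : List Y | l.length = n ∧ ∀ x ∈ l, x ∈ P}) :
    (SD cen ^ m) u ∈ Finsupp.supported ℤ ℤ {l : List Y | l.length = n ∧ ∀ x ∈ l, x ∈ P} := by
  induction m with
  | zero => exact hu
  | succ m ih =>
    rw [pow_succ', Module.End.mul_apply, SD_apply]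
    refine lin_mem _ fun l hl => ?_
    obtain ⟨h1, h2⟩ := mem_spt.1 ih l hl
    exact sd_spt cen hP n l h1 h2

theorem SD_dist {Y : Type} [MetricSpace Y] [DecidableEq Y] {cen : Finset Y → Y}
    (h1 : ∀ (s : Finset Y), s.Nonempty → ∀ (p : Y) (R : ℝ), (∀ x ∈ s, dist p x ≤ R) →
      dist p (cen s) ≤ R)
    (h2 : ∀ (s : Finset Y) (d : ℝ), (∀ x ∈ s, ∀ y ∈ s, dist x y ≤ d) →
      ∀ x ∈ s, dist (cen s) x ≤ 3 / 4 * d) {d : ℝ} (hd : 0 ≤ d) (m : ℕ) {u : List Y →₀ ℤ}
    (hu : u ∈ Finsupp.supported ℤ ℤ {l : List Y | ∀ x ∈ l, ∀ y ∈ l, dist x y ≤ d}) :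
    (SD cen ^ m) u ∈ Finsupp.supported ℤ ℤ
      {l : List Y | ∀ x ∈ l, ∀ y ∈ l, dist x y ≤ (3 / 4) ^ m * d} := by
  induction m with
  | zero =>
    refine spt_mono (fun l hl x hx y hy => ?_) hu
    rw [pow_zero, one_mul]
    exact hl x hx y hy
  | succ m ih =>
    rw [show SD cen ^ (m + 1) = SD cen * SD cen ^ m from pow_succ' _ _, Module.End.mul_apply,
      SD_apply]
    refine lin_mem _ fun l hl => ?_
    have h3 := mem_spt.1 ih l hl
    have h4 := sd_dist h1 h2 (d := (3 / 4) ^ m * d) (by positivity) _ l rfl h3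
    refine spt_mono (fun l hl x hx y hy => ?_) h4
    rw [pow_succ', mul_assoc]
    exact hl x hx y hy

end

end ThickThin
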