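import Mathlib
import Pool.Agent.Lib_MP_9dbe3a.ASd
import Pool.Agent.Lib_MP_9dbe3a.ACone

/-!
# Thick-thin, algebra: from a complex to chains of lists, and to the labelled list complex
-/

namespace ThickThin

section

variable {Γ C Y : Type} [Group Γ] [MulAction Γ C] [MulAction Γ Y]

/-- The straight chain of a cell of dimension `n`. -/
noncomputable def jN (X : Cx ℤ C) (b : C → Y) : ℕ → C → (List Y →₀ ℤ)
  | 0, c => Finsupp.single [b c] (X.eps c)
  | n + 1, c => pre (b c) (lin (jN X b n) (X.bd c))

/-- The straight chain of a cell. -/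
noncomputable def j1 (X : Cx ℤ C) (b : C → Y) (c : C) : List Y →₀ ℤ := jN X b (X.dim c) c

variable {X : Cx ℤ C} (hX : IsCx Γ X) {b : C → Y}

theorem j1_zero {c : C} (hc : X.dim c = 0) : j1 X b c = Finsupp.single [b c] (X.eps c) := by
  unfold j1
  rw [hc]
  rfl

include hX in
theorem j1_succ {c : C} {n : ℕ} (hc : X.dim c = n + 1) :
    j1 X b c = pre (b c) (lin (j1 X b) (X.bd c)) := by
  have h1 : j1 X b c = pre (b c) (lin (jN X b n) (X.bd c)) := by
    unfold j1
    rw [hc]
    rfl
  rw [h1]
  congr 1
  apply lin_congr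
  intro p hp
  have h2 := hX.bd_dim c p hp
  unfold j1
  rw [show X.dim p = n by omega]

theorem bdl_j1_zero {c : C} (hc : X.dim c = 0) :
    lin bdl (j1 X b c) = Finsupp.single [] (X.eps c) := by
  rw [j1_zero hc, lin, Finsupp.linearCombination_single, bdl_cons]
  have : (bdl ([] : List Y)) = 0 := rfl
  rw [this, map_zero, sub_zero, Finsupp.smul_single_one]

include hX in
theorem bdl_j1_succ (n : ℕ) : ∀ c : C, X.dim c = n + 1 →
    lin bdl (j1 X b c) = lin (j1 X b) (X.bd c) := by
  induction n with
  | zero =>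
    intro c hc
    rw [j1_succ hX hc, lin_bdl_pre]
    have h1 : lin bdl (lin (j1 X b) (X.bd c)) = 0 := by
      rw [lin_lin]
      have h2 : lin (fun p => lin bdl (j1 X b p)) (X.bd c) =
          lin (fun p => Finsupp.single ([] : List Y) (X.eps p)) (X.bd c) := by
        apply lin_congr
        intro p hp
        have h3 := hX.bd_dim c p hp
        exact bdl_j1_zero (by omega)
      rw [h2]
      have h4 := hX.eps_bd c
      have h5 : lin (fun p => Finsupp.single ([] : List Y) (X.eps p)) (X.bd c) =
          Finsupp.single ([] : List Y) (lin X.eps (X.bd c)) := by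
        rw [lin, lin, Finsupp.linearCombination_apply, Finsupp.linearCombination_apply,
          Finsupp.sum, Finsupp.sum, Finsupp.single_finsetSum]
        refine Finset.sum_congr rfl fun p _ => ?_
        rw [Finsupp.smul_single]
      rw [h5, h4, Finsupp.single_zero]
    rw [h1, map_zero, sub_zero]
  | succ n ih =>
    intro c hc
    rw [j1_succ hX hc, lin_bdl_pre]
    have h1 : lin bdl (lin (j1 X b) (X.bd c)) = 0 := by
      rw [lin_lin]
      have h2 : lin (fun p => lin bdl (j1 X b p)) (X.bd c) =
          lin (fun p => lin (j1 X b) (X.bd p)) (X.bd c) := by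
        apply lin_congr
        intro p hp
        have h3 := hX.bd_dim c p hp
        exact ih p (by omega)
      rw [h2, ← lin_lin, hX.bd_bd, map_zero]
    rw [h1, map_zero, sub_zero]

include hX in
theorem j1_len (n : ℕ) : ∀ c : C, X.dim c = n →
    j1 X b c ∈ Finsupp.supported ℤ ℤ {l : List Y | l.length = n + 1} := by
  induction n with
  | zero =>
    intro c hc
    rw [j1_zero hc]
    exact Finsupp.single_mem_supported ℤ _ rfl
  | succ n ih =>
    intro c hc
    rw [j1_succ hX hc, pre_eq]
    refine lin_mem _ fun l hl => Finsupp.single_mem_supported ℤ 1 ?_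
    have h1 : lin (j1 X b) (X.bd c) ∈ Finsupp.supported ℤ ℤ {l : List Y | l.length = n + 1} := by
      refine lin_mem _ fun p hp => ih p ?_
      have h3 := hX.bd_dim c p hp
      omega
    show (b c :: l).length = n + 1 + 1
    rw [List.length_cons, mem_spt.1 h1 l hl]

include hX in
theorem j1_smul (hb : ∀ (g : Γ) c, b (g • c) = g • b c) (g : Γ) (n : ℕ) : ∀ c : C, X.dim c = n →
    j1 X b (g • c) = mp g (j1 X b c) := by
  induction n with
  | zero =>
    intro c hc
    have hc' : X.dim (g • c) = 0 := by rw [hX.dim_smul, hc]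
    rw [j1_zero hc, j1_zero hc', mp_single, hb, hX.eps_smul]
    rfl
  | succ n ih =>
    intro c hc
    have hc' : X.dim (g • c) = n + 1 := by rw [hX.dim_smul, hc]
    rw [j1_succ hX hc, j1_succ hX hc', mp_pre, hb]
    congr 1
    have h2 : mp g (lin (j1 X b) (X.bd c)) = lin (fun p => mp g (j1 X b p)) (X.bd c) := by
      rw [lin, lin, Finsupp.linearCombination_apply, Finsupp.linearCombination_apply, Finsupp.sum,
        Finsupp.sum, map_sum]
      exact Finset.sum_congr rfl fun l _ => map_smul _ _ _
    have h3 : act ℤ g (X.bd c) = lin (fun p => Finsupp.single (g • p) (1 : ℤ)) (X.bd c) := by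
      rw [lin, Finsupp.linearCombination_apply, act, Finsupp.lmapDomain_apply, Finsupp.mapDomain]
      refine Finset.sum_congr rfl fun p _ => ?_
      exact (Finsupp.smul_single_one _ _).symm
    rw [h2, hX.bd_smul, h3, lin_lin]
    apply lin_congr
    intro p hp
    have h4 := hX.bd_dim c p hp
    rw [lin_single, ih p (by omega)]

end

/-! ## To the labelled list complex -/

section

variable {Γ Y : Type} [Group Γ] [MulAction Γ Y] (S : LS Γ Y)

/-- A chain of lists as a chain of the labelled list complex. -/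
noncomputable def toS : (List Y →₀ ℤ) →ₗ[ℤ] (S.Cell →₀ ℤ) := (S.io false) ∘ₗ (lin S.sg)

theorem toS_apply (u : List Y →₀ ℤ) : toS S u = S.io false (lin S.sg u) := rfl

theorem toS_mp (g : Γ) (u : List Y →₀ ℤ) : toS S (mp g u) = act ℤ g (toS S u) := by
  rw [toS_apply, toS_apply, ← S.io_act]
  congr 1
  induction u using Finsupp.induction_linear with
  | zero => simp only [map_zero]
  | add u v hu hv => rw [map_add, map_add, hu, hv, map_add, map_add]
  | single l r =>
    rw [mp_single, lin, Finsupp.linearCombination_single, Finsupp.linearCombination_single,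
      map_smul, S.act_sg]

theorem sg_bdl (l : List Y) : lin S.sg (bdl l) = S.bS l := by
  rw [bdl_sum, map_sum]
  unfold LS.bS
  refine Finset.sum_congr rfl fun i _ => ?_
  rw [map_smul, lin_single]

theorem toS_bd {u : List Y →₀ ℤ} (hu : u ∈ Finsupp.supported ℤ ℤ S.A) :
    lin S.cx.bd (toS S u) = toS S (lin bdl u) := by
  have h1 : lin S.cx.bd (toS S u) = S.io false (S.ex S.bS (lin S.sg u)) := S.lin_io_false _
  rw [h1, toS_apply]
  congr 1
  rw [lin_lin, LS.ex, lin_lin]
  apply lin_congr
  intro l hl
  rw [sg_bdl]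
  exact S.ex_sg S.bS (mem_spt.1 hu l hl)

theorem toS_nil (r : ℤ) : toS S (Finsupp.single [] r) = 0 := by
  rw [toS_apply, lin, Finsupp.linearCombination_single, S.sg_of_not (fun h => S.ne _ h rfl),
    smul_zero, map_zero]

theorem toS_inDim {u : List Y →₀ ℤ} {n : ℕ}
    (hu : u ∈ Finsupp.supported ℤ ℤ {l : List Y | l.length = n + 1}) :
    InDim S.cx n (toS S u) := by
  classical
  intro c hc
  obtain ⟨l, b⟩ := c
  rw [toS_apply] at hc
  by_cases hb : b = false
  · subst hb
    rw [S.io_apply] at hc
    have h1 : S.Len (n + 1) (lin S.sg u) := by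
      rw [lin, Finsupp.linearCombination_apply]
      refine LS.Len.sum S _ _ fun l' hl' => ?_
      exact (LS.Len.sg S (mem_spt.1 hu l' (Finsupp.mem_support_iff.1 hl'))).smul _ _
    have h2 := h1 l hc
    show l.1.length - 1 = n
    rw [h2, Nat.add_sub_cancel]
  · exact absurd (S.io_apply_ne (fun h => hb h.symm) _ l) hc

theorem toS_eps {u : List Y →₀ ℤ} (hu : u ∈ Finsupp.supported ℤ ℤ S.A)
    (hu1 : u ∈ Finsupp.supported ℤ ℤ {l : List Y | l.length = 1}) {r : ℤ}
    (h : lin bdl u = Finsupp.single [] r) : lin S.cx.eps (toS S u) = r := by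
  classical
  have h1 : lin bdl u = Finsupp.single [] (lin (fun _ => (1 : ℤ)) u) := by
    have h2 : lin bdl u = lin (fun _ => Finsupp.single ([] : List Y) (1 : ℤ)) u := by
      apply lin_congr
      intro l hl
      obtain ⟨y, rfl⟩ := List.length_eq_one_iff.1 (mem_spt.1 hu1 l hl)
      rw [bdl_cons]
      have : (bdl ([] : List Y)) = 0 := rfl
      rw [this, map_zero, sub_zero]
    rw [h2, lin, lin, Finsupp.linearCombination_apply, Finsupp.linearCombination_apply,
      Finsupp.sum, Finsupp.sum, Finsupp.single_finsetSum]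
    refine Finset.sum_congr rfl fun p _ => ?_
    rw [Finsupp.smul_single]
  have h3 : lin (fun _ => (1 : ℤ)) u = r := by
    rw [h1] at h
    have h4 := DFunLike.congr_fun h []
    rwa [Finsupp.single_eq_same, Finsupp.single_eq_same] at h4
  rw [← h3, toS_apply, S.eps_io_false, lin_lin]
  apply lin_congr
  intro l hl
  rw [S.sg_of_mem (mem_spt.1 hu l hl), lin_single]
  have h5 : l.length = 1 := mem_spt.1 hu1 l hl
  simp [h5]

/-- The chain map. -/
theorem toS_isMap {C : Type} [MulAction Γ C] [DecidableEq Y] {X : Cx ℤ C} (hX : IsCx Γ X)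
    {b : C → Y} (hb : ∀ (g : Γ) c, b (g • c) = g • b c) {cen : Finset Y → Y}
    (hc : ∀ (g : Γ) (s : Finset Y), s.Nonempty → cen (s.image (g • ·)) = g • cen s) (m N : ℕ)
    (hA : ∀ c, (SD cen ^ m) (j1 X b c) ∈ Finsupp.supported ℤ ℤ S.A) :
    IsMap Γ X S.cx N (fun c => toS S ((SD cen ^ m) (j1 X b c))) := by
  have hlen : ∀ c, (SD cen ^ m) (j1 X b c) ∈
      Finsupp.supported ℤ ℤ {l : List Y | l.length = X.dim c + 1} := by
    intro c
    have h1 := SD_spt (cen := cen) (P := Set.univ) (fun _ _ _ => Set.mem_univ _) (X.dim c + 1) m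
      (u := j1 X b c) (mem_spt.2 fun l hl =>
        ⟨mem_spt.1 (j1_len hX (b := b) _ c rfl) l hl, fun _ _ => Set.mem_univ _⟩)
    exact spt_mono (fun l hl => hl.1) h1
  constructor
  · intro g c
    rw [j1_smul hX hb g _ c rfl, SD_mp hc, toS_mp]
  · intro c
    exact toS_inDim S (hlen c)
  · intro c _
    rw [toS_bd S (hA c), bdl_SD]
    rcases Nat.eq_zero_or_pos (X.dim c) with h0 | h0
    · rw [bdl_j1_zero h0, SD_nil, toS_nil, hX.bd_zero h0, map_zero]
    · obtain ⟨n, hn⟩ : ∃ n, X.dim c = n + 1 := ⟨X.dim c - 1, by omega⟩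
      rw [bdl_j1_succ hX n c hn]
      rw [lin, lin, Finsupp.linearCombination_apply, Finsupp.linearCombination_apply, Finsupp.sum,
        Finsupp.sum, map_sum, map_sum]
      refine Finset.sum_congr rfl fun p _ => ?_
      rw [map_smul, map_smul]
  · intro c h0
    refine toS_eps S (hA c) ?_ ?_
    · have := hlen c
      rwa [h0] at this
    · rw [bdl_SD, bdl_j1_zero h0, SD_nil]

end

end ThickThin
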