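import Mathlib

/-!
# Thick-thin: the definitions of the statements

* `BNC a Y`: the metric space `Y` is complete, has midpoints, has curvature `≤ 0` and `≥ -a` (both
  in the sense of the comparison for the distances to the midpoints), and its geodesics can be
  prolonged. The universal cover of a complete Riemannian manifold with sectional curvatures in
  `[-a, 0]` is such a space.
* `FinVol Γ Y μ`: `Γ` acts on `Y` by isometries, freely and discretely, `μ` is an invariant measure
  with uniform lower and upper bounds for the balls of every radius, and the quotient has finite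
  volume.
* `CanLeave C`: the set `C` can be homotoped to leave every compact set.
-/

namespace ThickThin

open MeasureTheory Metric

/-- `m` is a midpoint of `x` and `y`. -/
def IsMid {Y : Type} [MetricSpace Y] (x y m : Y) : Prop :=
  dist x m = dist x y / 2 ∧ dist m y = dist x y / 2

/-- Curvature in `[-a, 0]`. -/
structure BNC (a : ℝ) (Y : Type) [MetricSpace Y] : Prop where
  pos : 0 < a
  complete : CompleteSpace Y
  mid : ∀ x y : Y, ∃ m, IsMid x y m
  upper : ∀ x y m : Y, IsMid x y m → ∀ z : Y,
    dist z m ^ 2 ≤ dist z x ^ 2 / 2 + dist z y ^ 2 / 2 - dist x y ^ 2 / 4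
  lower : ∀ x y m : Y, IsMid x y m → ∀ z : Y,
    Real.cosh (√a * dist z x) + Real.cosh (√a * dist z y) ≤
      2 * Real.cosh (√a * dist x y / 2) * Real.cosh (√a * dist z m)
  prolong : ∀ x y : Y, x ≠ y → ∀ r, 0 < r → ∃ z, dist x z = dist x y + r ∧ dist y z = r

/-- A free discrete action by isometries with finite covolume, for a measure with bounded
geometry. -/
structure FinVol (Γ Y : Type) [Group Γ] [MulAction Γ Y] [MetricSpace Y] [MeasurableSpace Y]
    (μ : Measure Y) : Prop where
  isom : ∀ (g : Γ) (x y : Y), dist (g • x) (g • y) = dist x y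
  free : ∀ y : Y, ∃ r > 0, ∀ g : Γ, g ≠ 1 → r ≤ dist y (g • y)
  inv : ∀ (g : Γ) (A : Set Y), MeasurableSet A → μ ((g • ·) ⁻¹' A) = μ A
  low : ∀ r > 0, ∃ v > 0, ∀ y : Y, v ≤ μ (ball y r)
  upp : ∀ r : ℝ, ∃ V < ⊤, ∀ y : Y, μ (ball y r) ≤ V
  cofin : ∃ F : Set Y, MeasurableSet F ∧ μ F < ⊤ ∧ ∀ y, ∃ g : Γ, g • y ∈ F

/-- The subset `C` of `M` can be homotoped to leave every compact set. -/
def CanLeave {M : Type} [TopologicalSpace M] (C : Set M) : Prop :=
  ∀ K : Set M, IsCompact K → ∃ H : C(unitInterval × C, M), ∀ c : C, H (0, c) = c ∧ H (1, c) ∉ K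

/-- The quotient manifold. -/
abbrev Quo (Γ Y : Type) [Group Γ] [MulAction Γ Y] : Type := Quotient (MulAction.orbitRel Γ Y)

/-- `s` is a non-trivial element which moves some point of `Y` by less than `ε`. -/
def IsSmall {Γ : Type} (Y : Type) [Group Γ] [MulAction Γ Y] [MetricSpace Y] (ε : ℝ) (s : Γ) :
    Prop :=
  s ≠ 1 ∧ ∃ y : Y, dist y (s • y) < ε

/-- `s` and `t` are joined by a chain of small elements, each of which commutes with the next
one. -/
def CommConn {Γ : Type} (Y : Type) [Group Γ] [MulAction Γ Y] [MetricSpace Y] (ε : ℝ) (s t : Γ) :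
    Prop :=
  Relation.ReflTransGen (fun u v : Γ => IsSmall Y ε v ∧ Commute u v) s t

end ThickThin
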