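import Mathlib
import Pool.Agent.Lib_MP_9dbe3a.Defs

/-!
# Thick-thin: the covering and the lifting of homotopies
-/

namespace ThickThin

open MeasureTheory Metric Topology

section

variable {Γ Y : Type} [Group Γ] [MulAction Γ Y] [MetricSpace Y] [MeasurableSpace Y] {μ : Measure Y}

/-- The projection to the quotient. -/
def prj (Γ : Type) {Y : Type} [Group Γ] [MulAction Γ Y] (y : Y) : Quo Γ Y :=
  Quotient.mk (MulAction.orbitRel Γ Y) y

omit [MetricSpace Y] [MeasurableSpace Y] in
theorem prj_eq {x y : Y} : prj Γ x = prj Γ y ↔ x ∈ MulAction.orbit Γ y := Quotient.eq''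

omit [MetricSpace Y] [MeasurableSpace Y] in
theorem prj_smul (g : Γ) (y : Y) : prj Γ (g • y) = prj Γ y := prj_eq.2 ⟨g, rfl⟩

theorem FinVol.cont (h : FinVol Γ Y μ) : ContinuousConstSMul Γ Y :=
  ⟨fun g => (Isometry.of_dist_eq (h.isom g)).continuous⟩

theorem FinVol.qcov (h : FinVol Γ Y μ) : IsQuotientCoveringMap (prj Γ (Y := Y)) Γ := by
  have := h.cont
  exact
  { toIsQuotientMap := isQuotientMap_quotient_mk'
    toContinuousConstSMul := this
    apply_eq_iff_mem_orbit := prj_eq
    disjoint := by
      intro e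
      obtain ⟨r, hr, h1⟩ := h.free e
      refine ⟨ball e (r / 2), ball_mem_nhds e (by linarith), ?_⟩
      rintro g ⟨x, ⟨y, hy, rfl⟩, hx⟩
      by_contra hg
      have h2 := h1 g hg
      have h3 : dist (g • e) (g • y) = dist e y := h.isom g e y
      have h4 := dist_triangle e (g • y) (g • e)
      rw [mem_ball] at hy hx
      rw [dist_comm (g • y) (g • e), h3, dist_comm e y, dist_comm e (g • y)] at h4
      simp only at hx
      linarith }

/-- The map at the end of a homotopy which pushes `C` away from `Q`, lifted. -/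
theorem FinVol.exists_lift (h : FinVol Γ Y μ) {C : Set (Quo Γ Y)} (hC : CanLeave C)
    {Q : Set (Quo Γ Y)} (hQ : IsCompact Q) {A : Set Y} (hA : ∀ y ∈ A, prj Γ y ∈ C)
    (hAi : ∀ (g : Γ), ∀ y ∈ A, g • y ∈ A) :
    ∃ f : Y → Y, ContinuousOn f A ∧ (∀ (g : Γ), ∀ y ∈ A, f (g • y) = g • f y) ∧
      ∀ y ∈ A, prj Γ (f y) ∉ Q := by
  classical
  have hcov := h.qcov.isCoveringMap
  have hcont := h.cont
  obtain ⟨H, hH⟩ := hC Q hQ
  have hprj : Continuous (prj Γ (Y := Y)) := hcov.continuous
  let q : C(A, C) := ⟨fun y => ⟨prj Γ y.1, hA y.1 y.2⟩, by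
    exact Continuous.subtype_mk (hprj.comp continuous_subtype_val) _⟩
  let H' : C(unitInterval × A, Quo Γ Y) :=
    H.comp ((ContinuousMap.id unitInterval).prodMap q)
  let f₀ : C(A, Y) := ⟨Subtype.val, continuous_subtype_val⟩
  have h0 : ∀ a : A, H' (0, a) = prj Γ (f₀ a) := fun a => (hH (q a)).1
  let L : C(unitInterval × A, Y) := hcov.liftHomotopy H' f₀ h0
  have hL : prj Γ ∘ L = H' := hcov.liftHomotopy_lifts H' f₀ h0
  have hL0 : ∀ a : A, L (0, a) = a := hcov.liftHomotopy_zero H' f₀ h0
  have hequi : ∀ (g : Γ) (t : unitInterval) (a : A), L (t, ⟨g • a.1, hAi g a.1 a.2⟩) = g • L (t, a) := by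
    intro g
    let s : C(A, A) := ⟨fun a => ⟨g • a.1, hAi g a.1 a.2⟩, by
      exact Continuous.subtype_mk ((continuous_const_smul g).comp continuous_subtype_val) _⟩
    -- both sides lift the same homotopy with the same start
    let H'' : C(unitInterval × A, Quo Γ Y) := H'.comp ((ContinuousMap.id unitInterval).prodMap s)
    let f₁ : C(A, Y) := ⟨fun a => g • a.1, (continuous_const_smul g).comp continuous_subtype_val⟩
    have h1 : ∀ a : A, H'' (0, a) = prj Γ (f₁ a) := by
      intro a
      exact h0 (s a)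
    have e1 : L.comp ((ContinuousMap.id unitInterval).prodMap s) = hcov.liftHomotopy H'' f₁ h1 := by
      rw [hcov.eq_liftHomotopy_iff']
      constructor
      · ext x
        exact congrFun hL (x.1, s x.2)
      · intro a
        exact hL0 (s a)
    have e2 : (⟨fun x => g • L x, (continuous_const_smul g).comp L.continuous⟩ :
        C(unitInterval × A, Y)) = hcov.liftHomotopy H'' f₁ h1 := by
      rw [hcov.eq_liftHomotopy_iff']
      constructor
      · ext x
        have h2 : prj Γ (L x) = H' x := congrFun hL x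
        have h3 : H' x = H'' x := by
          show H (x.1, q x.2) = H (x.1, q (s x.2))
          congr 2
          exact Subtype.ext (prj_smul g x.2.1).symm
        show prj Γ (g • L x) = H'' x
        rw [prj_smul, h2, h3]
      · intro a
        show g • L (0, a) = g • a.1
        rw [hL0]
    intro t a
    have e3 := congrArg (fun F : C(unitInterval × A, Y) => F (t, a)) (e1.trans e2.symm)
    exact e3
  refine ⟨fun y => if hy : y ∈ A then L (1, ⟨y, hy⟩) else y, ?_, ?_, ?_⟩
  · rw [continuousOn_iff_continuous_domRestrict]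
    have : Set.domRestrict A (fun y => if hy : y ∈ A then L (1, ⟨y, hy⟩) else y) =
        fun a : A => L (1, a) := by
      funext a
      exact dif_pos a.2
    rw [this]
    exact L.continuous.comp (Continuous.prodMk_right 1)
  · intro g y hy
    have h1 : (if hy : g • y ∈ A then L (1, ⟨g • y, hy⟩) else g • y) =
        g • (if hy : y ∈ A then L (1, ⟨y, hy⟩) else y) := by
      rw [dif_pos hy, dif_pos (hAi g y hy)]
      exact hequi g 1 ⟨y, hy⟩
    exact h1
  · intro y hy
    simp only [dif_pos hy]
    have h1 : prj Γ (L (1, ⟨y, hy⟩)) = H' (1, ⟨y, hy⟩) := congrFun hL _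
    rw [h1]
    exact (hH (q ⟨y, hy⟩)).2

end

end ThickThin
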