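import Mathlib
import Pool.Agent.Lib_MP_9dbe3a.GLift

/-!
# Thick-thin: packing, properness, and the compact thick part
-/

namespace ThickThin

open MeasureTheory Metric Topology

section

variable {Γ Y : Type} [Group Γ] [MulAction Γ Y] [MetricSpace Y] [MeasurableSpace Y]
  [BorelSpace Y] {μ : Measure Y}

theorem FinVol.packing (h : FinVol Γ Y μ) (R : ℝ) {r : ℝ} (hr : 0 < r) :
    ∃ N : ℕ, ∀ (p : Y) (s : Finset Y), (∀ x ∈ s, dist p x ≤ R) →
      (∀ x ∈ s, ∀ y ∈ s, x ≠ y → r ≤ dist x y) → s.card ≤ N := by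
  obtain ⟨V, hV, hV'⟩ := h.upp (R + r)
  obtain ⟨v, hv, hv'⟩ := h.low (r / 2) (by linarith)
  have h1 : V / v < ⊤ := ENNReal.div_lt_top hV.ne hv.ne'
  obtain ⟨N, hN⟩ := ENNReal.exists_nat_gt h1.ne
  refine ⟨N, fun p s hs hs' => ?_⟩
  have h2 : (s.card : ENNReal) * v ≤ V := by
    calc (s.card : ENNReal) * v = ∑ x ∈ s, v := by
          rw [Finset.sum_const, nsmul_eq_mul]
      _ ≤ ∑ x ∈ s, μ (ball x (r / 2)) := Finset.sum_le_sum fun x _ => hv' x
      _ = μ (⋃ x ∈ s, ball x (r / 2)) := by
          rw [measure_biUnion_finset]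
          · intro x hx y hy hxy
            refine ball_disjoint_ball ?_
            have := hs' x hx y hy hxy
            linarith
          · intro x _
            exact measurableSet_ball
      _ ≤ μ (ball p (R + r)) := by
          apply measure_mono
          intro z hz
          simp only [Set.mem_iUnion, mem_ball] at hz
          obtain ⟨x, hx, hz⟩ := hz
          have h3 := hs x hx
          have h4 := dist_triangle z x p
          rw [mem_ball]
          rw [dist_comm x p] at h4
          linarith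
      _ ≤ V := hV' p
  have h3 : (s.card : ENNReal) ≤ V / v := by
    rw [ENNReal.le_div_iff_mul_le (Or.inl hv.ne') (Or.inr hV.ne)]
    exact h2
  have h4 : (s.card : ENNReal) < N := lt_of_le_of_lt h3 hN
  exact_mod_cast h4.le

/-- A finite `r`-net in the points of `A` which are at distance at most `R` from `p`. -/
theorem FinVol.net (h : FinVol Γ Y μ) (R : ℝ) {r : ℝ} (hr : 0 < r) :
    ∃ N : ℕ, ∀ (p : Y) (A : Set Y), (∀ x ∈ A, dist p x ≤ R) → ∃ s : Finset Y, s.card ≤ N ∧
      (∀ x ∈ s, x ∈ A) ∧ ∀ x ∈ A, ∃ y ∈ s, dist x y < r := by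
  classical
  obtain ⟨N, hN⟩ := h.packing R hr
  refine ⟨N, fun p A hA => ?_⟩
  obtain ⟨P, hP⟩ : ∃ P : ℕ → Prop, P = fun n => ∃ s : Finset Y, s.card = n ∧ (∀ x ∈ s, x ∈ A) ∧
    (∀ x ∈ s, ∀ y ∈ s, x ≠ y → r ≤ dist x y) := ⟨_, rfl⟩
  have h0 : P 0 := by
    rw [hP]
    exact ⟨∅, rfl, by simp, by simp⟩
  have hfg := Nat.findGreatest_spec (P := P) (Nat.zero_le N) h0
  obtain ⟨m, hm⟩ : ∃ m, m = Nat.findGreatest P N := ⟨_, rfl⟩
  rw [← hm] at hfg
  have hmax : ∀ k, P k → k ≤ m := by
    intro k hk
    have hk' := hk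
    rw [hP] at hk'
    obtain ⟨s, hs1, hs2, hs3⟩ := hk'
    have h1 : s.card ≤ N := hN p s (fun x hx => hA x (hs2 x hx)) hs3
    rw [hm]
    exact Nat.le_findGreatest (hs1 ▸ h1) hk
  have hfg' := hfg
  rw [hP] at hfg'
  obtain ⟨s, hs1, hs2, hs3⟩ := hfg'
  refine ⟨s, hN p s (fun x hx => hA x (hs2 x hx)) hs3, hs2, fun x hx => ?_⟩
  by_contra hc
  push Not at hc
  have hxs : x ∉ s := by
    intro hxs
    have := hc x hxs
    rw [dist_self] at this
    linarith
  have h2 : P (m + 1) := by
    rw [hP]
    refine ⟨insert x s, ?_, ?_, ?_⟩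
    · rw [Finset.card_insert_of_notMem hxs, hs1]
    · intro y hy
      rcases Finset.mem_insert.1 hy with rfl | hy
      · exact hx
      · exact hs2 y hy
    · intro y hy z hz hyz
      rcases Finset.mem_insert.1 hy with h5 | h5
      · rcases Finset.mem_insert.1 hz with h6 | h6
        · exact absurd (h5.trans h6.symm) hyz
        · rw [h5]
          exact hc z h6
      · rcases Finset.mem_insert.1 hz with h6 | h6
        · rw [h6, dist_comm]
          exact hc y h5
        · exact hs3 y h5 z h6 hyz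
  have := hmax _ h2
  omega

theorem FinVol.proper (h : FinVol Γ Y μ) (hc : CompleteSpace Y) : ProperSpace Y := by
  refine ⟨fun p R => ?_⟩
  rw [isCompact_iff_totallyBounded_isComplete]
  refine ⟨?_, isClosed_closedBall.isComplete⟩
  rw [Metric.totallyBounded_iff]
  intro ε hε
  obtain ⟨N, hN⟩ := h.net R hε
  obtain ⟨s, _, _, hs⟩ := hN p (closedBall p R) (fun x hx => by
    rw [dist_comm]
    exact hx)
  refine ⟨s, s.finite_toSet, fun x hx => ?_⟩
  obtain ⟨y, hy, hxy⟩ := hs x hx
  simp only [Set.mem_iUnion, mem_ball]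
  exact ⟨y, hy, hxy⟩

/-- Finitely many elements move `p` by at most `R`. -/
theorem FinVol.finite_disp (h : FinVol Γ Y μ) (p : Y) (R : ℝ) :
    {g : Γ | dist p (g • p) ≤ R}.Finite := by
  classical
  obtain ⟨r, hr, hfree⟩ := h.free p
  obtain ⟨N, hN⟩ := h.packing R hr
  have hsep : ∀ g k : Γ, g ≠ k → r ≤ dist (g • p) (k • p) := by
    intro g k hgk
    have h1 := hfree (g⁻¹ * k) (by
      intro h0
      exact hgk (inv_mul_eq_one.1 h0))
    rw [← h.isom g] at h1
    rwa [smul_smul, mul_inv_cancel_left] at h1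
  by_contra hinf
  obtain ⟨t, ht, htc⟩ := Set.Infinite.exists_subset_card_eq hinf (N + 1)
  have h1 := hN p (t.image (· • p)) (by
    intro x hx
    obtain ⟨g, hg, rfl⟩ := Finset.mem_image.1 hx
    exact ht hg) (by
    intro x hx y hy hxy
    obtain ⟨g, hg, rfl⟩ := Finset.mem_image.1 hx
    obtain ⟨k, hk, rfl⟩ := Finset.mem_image.1 hy
    exact hsep g k (fun e => hxy (by rw [e])))
  rw [Finset.card_image_of_injective, htc] at h1
  · omega
  · intro g k hgk
    by_contra hne
    have h2 := hsep g k hne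
    have h3 : g • p = k • p := hgk
    rw [h3, dist_self] at h2
    linarith

theorem FinVol.countable (h : FinVol Γ Y μ) [Nonempty Y] : Countable Γ := by
  obtain ⟨p⟩ := (inferInstance : Nonempty Y)
  have h1 : (Set.univ : Set Γ) = ⋃ n : ℕ, {g : Γ | dist p (g • p) ≤ n} := by
    ext g
    simp only [Set.mem_univ, Set.mem_iUnion, Set.mem_ofPred_eq, true_iff]
    exact exists_nat_ge _
  rw [← Set.countable_univ_iff, h1]
  exact Set.countable_iUnion fun n => (h.finite_disp p n).countable

/-- The thick part of the quotient is relatively compact. -/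
theorem FinVol.thick (h : FinVol Γ Y μ) [Nonempty Y] (hc : CompleteSpace Y) {ε : ℝ} (hε : 0 < ε) :
    ∃ Q : Set (Quo Γ Y), IsCompact Q ∧ ∀ y : Y, prj Γ y ∉ Q →
      ∃ g : Γ, g ≠ 1 ∧ dist y (g • y) < ε := by
  classical
  have hΓ := h.countable
  have hprop := h.proper hc
  have hcont := h.cont
  obtain ⟨F, hF, hFfin, hF'⟩ := h.cofin
  obtain ⟨v, hv, hv'⟩ := h.low (ε / 2) (by linarith)
  have h1 : μ F / v < ⊤ := ENNReal.div_lt_top hFfin.ne hv.ne'
  obtain ⟨N, hN⟩ := ENNReal.exists_nat_gt h1.ne
  obtain ⟨T, hT⟩ : ∃ T : Set Y, T = {y | ∀ g : Γ, g ≠ 1 → ε ≤ dist y (g • y)} := ⟨_, rfl⟩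
  -- separated families
  obtain ⟨S, hS⟩ : ∃ S : Finset Y → Prop, S = fun s => (∀ x ∈ s, x ∈ T) ∧
    (∀ x ∈ s, ∀ y ∈ s, x ≠ y → ∀ g : Γ, ε ≤ dist x (g • y)) := ⟨_, rfl⟩
  have hbound : ∀ s, S s → s.card ≤ N := by
    intro s hs
    rw [hS] at hs
    obtain ⟨hs1, hs2⟩ := hs
    have hsep : ∀ x ∈ s, ∀ y ∈ s, ∀ g k : Γ, (x ≠ y ∨ g ≠ k) →
        Disjoint ((g • ·) ⁻¹' ball x (ε / 2)) ((k • ·) ⁻¹' ball y (ε / 2)) := by
      intro x hx y hy g k hne
      rw [Set.disjoint_left]
      intro z hz hz'
      simp only [Set.mem_preimage, mem_ball] at hz hz'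
      have h2 : dist x ((g * k⁻¹) • y) < ε := by
        have h3 := dist_triangle x (g • z) ((g * k⁻¹) • y)
        have h4 : dist (g • z) ((g * k⁻¹) • y) = dist (k • z) y := by
          rw [← h.isom (g * k⁻¹) (k • z) y, smul_smul, inv_mul_cancel_right]
        rw [h4, dist_comm x (g • z)] at h3
        linarith
      by_cases hxy : x = y
      · subst hxy
        have hgk : g ≠ k := by
          rcases hne with hne | hne
          · exact absurd rfl hne
          · exact hne
        have h5 := hs1 x hx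
        rw [hT] at h5
        have h6 := h5 (g * k⁻¹) (fun h0 => hgk (mul_inv_eq_one.1 h0))
        linarith
      · have := hs2 x hx y hy hxy (g * k⁻¹)
        linarith
    obtain ⟨B, hB⟩ : ∃ B, B = ⋃ x ∈ s, ball x (ε / 2) := ⟨_, rfl⟩
    have hBm : MeasurableSet B := by
      rw [hB]
      exact s.measurableSet_biUnion fun x _ => measurableSet_ball
    have hB1 : (s.card : ENNReal) * v ≤ μ B := by
      calc (s.card : ENNReal) * v = ∑ x ∈ s, v := by
            rw [Finset.sum_const, nsmul_eq_mul]
        _ ≤ ∑ x ∈ s, μ (ball x (ε / 2)) := Finset.sum_le_sum fun x _ => hv' x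
        _ = μ B := by
            rw [hB, measure_biUnion_finset]
            · intro x hx y hy hxy
              have := hsep x hx y hy 1 1 (Or.inl hxy)
              simpa using this
            · intro x _
              exact measurableSet_ball
    have hB2 : μ B ≤ μ F := by
      have hmeas : ∀ g : Γ, Measurable (fun y : Y => g • y) := fun g =>
        (continuous_const_smul g).measurable
      calc μ B ≤ μ (⋃ g : Γ, B ∩ (g • ·) ⁻¹' F) := by
            apply measure_mono
            intro y hy
            obtain ⟨g, hg⟩ := hF' y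
            exact Set.mem_iUnion.2 ⟨g, hy, hg⟩
        _ ≤ ∑' g : Γ, μ (B ∩ (g • ·) ⁻¹' F) := measure_iUnion_le _
        _ = ∑' g : Γ, μ ((g⁻¹ • ·) ⁻¹' B ∩ F) := by
            congr 1
            funext g
            rw [← h.inv g ((g⁻¹ • ·) ⁻¹' B ∩ F) (((hmeas g⁻¹) hBm).inter hF)]
            congr 1
            ext y
            simp only [Set.mem_inter_iff, Set.mem_preimage, inv_smul_smul]
        _ = μ (⋃ g : Γ, (g⁻¹ • ·) ⁻¹' B ∩ F) := by
            rw [measure_iUnion]
            · intro g k hgk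
              have : Disjoint ((g⁻¹ • ·) ⁻¹' B : Set Y) ((k⁻¹ • ·) ⁻¹' B) := by
                rw [Set.disjoint_left]
                intro z hz hz'
                rw [hB] at hz hz'
                simp only [Set.mem_preimage, Set.mem_iUnion, exists_prop] at hz hz'
                obtain ⟨x, hx, hzx⟩ := hz
                obtain ⟨y, hy, hzy⟩ := hz'
                exact (Set.disjoint_left.1 (hsep x hx y hy g⁻¹ k⁻¹ (Or.inr (fun e =>
                  hgk (inv_injective e))))) hzx hzy
              exact this.mono Set.inter_subset_left Set.inter_subset_left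
            · intro g
              exact ((hmeas g⁻¹) hBm).inter hF
        _ ≤ μ F := by
            apply measure_mono
            intro y hy
            obtain ⟨g, hg⟩ := Set.mem_iUnion.1 hy
            exact hg.2
    have h3 : (s.card : ENNReal) ≤ μ F / v := by
      rw [ENNReal.le_div_iff_mul_le (Or.inl hv.ne') (Or.inr hFfin.ne)]
      exact hB1.trans hB2
    have h4 : (s.card : ENNReal) < N := lt_of_le_of_lt h3 hN
    exact_mod_cast h4.le
  -- a maximal family
  obtain ⟨P, hP⟩ : ∃ P : ℕ → Prop, P = fun n => ∃ s : Finset Y, s.card = n ∧ S s := ⟨_, rfl⟩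
  have h0 : P 0 := by
    rw [hP]
    refine ⟨∅, rfl, ?_⟩
    rw [hS]
    exact ⟨by simp, by simp⟩
  have hfg := Nat.findGreatest_spec (P := P) (Nat.zero_le N) h0
  obtain ⟨m, hm⟩ : ∃ m, m = Nat.findGreatest P N := ⟨_, rfl⟩
  rw [← hm] at hfg
  have hmax : ∀ k, P k → k ≤ m := by
    intro k hk
    have hk' := hk
    rw [hP] at hk'
    obtain ⟨s, hs1, hs2⟩ := hk'
    have h2 : s.card ≤ N := hbound s hs2
    rw [hm]
    exact Nat.le_findGreatest (hs1 ▸ h2) hk
  rw [hP] at hfg
  obtain ⟨s, hs1, hs2⟩ := hfg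
  refine ⟨prj Γ '' ⋃ x ∈ s, closedBall x ε, ?_, ?_⟩
  · apply IsCompact.image
    · exact s.isCompact_biUnion fun x _ => isCompact_closedBall x ε
    · exact h.qcov.isCoveringMap.continuous
  · intro y hy
    by_contra hne
    push Not at hne
    have hyT : y ∈ T := by
      rw [hT]
      exact hne
    have hfar : ∀ x ∈ s, ∀ g : Γ, ε ≤ dist x (g • y) := by
      intro x hx g
      by_contra hlt
      push Not at hlt
      apply hy
      refine ⟨g • y, ?_, prj_smul g y⟩
      simp only [Set.mem_iUnion, mem_closedBall]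
      exact ⟨x, hx, by rw [dist_comm]; exact hlt.le⟩
    have hys : y ∉ s := by
      intro hys
      have := hfar y hys 1
      rw [one_smul, dist_self] at this
      linarith
    have h2 : P (m + 1) := by
      rw [hP]
      refine ⟨insert y s, ?_, ?_⟩
      · rw [Finset.card_insert_of_notMem hys, hs1]
      · have hs3 := hs2
        rw [hS] at hs3 ⊢
        refine ⟨?_, ?_⟩
        · intro x hx
          rcases Finset.mem_insert.1 hx with rfl | hx
          · exact hyT
          · exact hs3.1 x hx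
        · intro x hx z hz hxz g
          rcases Finset.mem_insert.1 hx with h6 | h6
          · rcases Finset.mem_insert.1 hz with h7 | h7
            · exact absurd (h6.trans h7.symm) hxz
            · have h5 := hfar z h7 g⁻¹
              rw [← h.isom g, smul_inv_smul, dist_comm, ← h6] at h5
              exact h5
          · rcases Finset.mem_insert.1 hz with h7 | h7
            · rw [h7]
              exact hfar x h6 g
            · exact hs3.2 x h6 z h7 hxz g
    have := hmax _ h2
    omega

end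

end ThickThin
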