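import Mathlib
import Pool.Agent.Lib_MP_9dbe3a.GPack

/-!
# Thick-thin: circumcentres
-/

namespace ThickThin

open MeasureTheory Metric Topology Filter

section

variable {Y : Type} [MetricSpace Y] {a : ℝ}

/-- Uniformly convex functions. -/
def UCx {Y : Type} [MetricSpace Y] (F : Y → ℝ) : Prop :=
  ∀ x y m : Y, IsMid x y m → F m ≤ F x / 2 + F y / 2 - dist x y ^ 2 / 4

theorem UCx.sharp (hY : BNC a Y) {F : Y → ℝ} (hF : UCx F) {c : Y} (hc : ∀ y, F c ≤ F y) (y : Y) :
    F c + dist y c ^ 2 ≤ F y := by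
  have key : ∀ (k : ℕ) (y : Y), F c + (1 - (1 / 2) ^ k) * dist y c ^ 2 ≤ F y := by
    intro k
    induction k with
    | zero =>
      intro y
      have := hc y
      simpa using this
    | succ k ih =>
      intro y
      obtain ⟨m, hm⟩ := hY.mid y c
      have h1 := ih m
      have h2 := hF y c m hm
      rw [hm.2] at h1
      have e : ((1 : ℝ) / 2) ^ (k + 1) = (1 / 2) ^ k / 2 := by ring
      rw [e]
      nlinarith
  have h1 : Tendsto (fun k : ℕ => F c + (1 - (1 / 2 : ℝ) ^ k) * dist y c ^ 2) atTop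
      (𝓝 (F c + (1 - 0) * dist y c ^ 2)) := by
    refine Tendsto.const_add _ (Tendsto.mul_const _ (Tendsto.const_sub _ ?_))
    exact tendsto_pow_atTop_nhds_zero_of_lt_one (by norm_num) (by norm_num)
  have h2 := le_of_tendsto' h1 (fun k => key k y)
  linarith

theorem UCx.exists_min (hY : BNC a Y) [Nonempty Y] {F : Y → ℝ} (hF : UCx F) (hF0 : ∀ y, 0 ≤ F y)
    (hFc : Continuous F) : ∃ c, ∀ y, F c ≤ F y := by
  have := hY.complete
  obtain ⟨I, hI⟩ : ∃ I, I = sInf (Set.range F) := ⟨_, rfl⟩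
  have hbdd : BddBelow (Set.range F) := ⟨0, by
    rintro _ ⟨y, rfl⟩
    exact hF0 y⟩
  have hle : ∀ y, I ≤ F y := fun y => hI ▸ csInf_le hbdd ⟨y, rfl⟩
  have hex : ∀ n : ℕ, ∃ y, F y < I + 1 / (n + 1) := by
    intro n
    have h1 : sInf (Set.range F) < I + 1 / (n + 1) := by
      rw [← hI]
      have : (0 : ℝ) < 1 / (n + 1) := by positivity
      linarith
    obtain ⟨_, ⟨y, rfl⟩, hy⟩ := exists_lt_of_csInf_lt (Set.range_nonempty F) h1
    exact ⟨y, hy⟩
  choose u hu using hex
  have hcau : CauchySeq u := by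
    rw [Metric.cauchySeq_iff']
    intro ε hε
    obtain ⟨N, hN⟩ := exists_nat_gt (4 / ε ^ 2)
    refine ⟨N, fun n hn => ?_⟩
    obtain ⟨m, hm⟩ := hY.mid (u n) (u N)
    have h1 := hF _ _ m hm
    have h2 := hle m
    have h3 := hu n
    have h4 := hu N
    have h5 : (1 : ℝ) / (n + 1) ≤ 1 / (N + 1) := by
      apply one_div_le_one_div_of_le (by positivity)
      have : (N : ℝ) ≤ n := by exact_mod_cast hn
      linarith
    have h6 : dist (u n) (u N) ^ 2 < 4 * (1 / (N + 1)) := by linarith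
    have h7 : 4 * (1 / ((N : ℝ) + 1)) < ε ^ 2 := by
      have h8 : 4 / ε ^ 2 < N + 1 := by linarith
      rw [div_lt_iff₀ (by positivity)] at h8
      rw [mul_one_div, div_lt_iff₀ (by positivity)]
      linarith
    exact lt_of_pow_lt_pow_left₀ 2 hε.le (h6.trans h7)
  obtain ⟨c, hc⟩ := cauchySeq_tendsto_of_complete hcau
  refine ⟨c, fun y => ?_⟩
  have h1 : Tendsto (fun n => F (u n)) atTop (𝓝 (F c)) := (hFc.tendsto c).comp hc
  have h2 : Tendsto (fun n : ℕ => I + 1 / ((n : ℝ) + 1)) atTop (𝓝 (I + 0)) :=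
    tendsto_const_nhds.add tendsto_one_div_add_atTop_nhds_zero_nat
  have h3 := le_of_tendsto_of_tendsto' h1 h2 (fun n => (hu n).le)
  have := hle y
  linarith

/-- The square of the radius of `s` seen from `y`. -/
noncomputable def rad2 (s : Finset Y) (hs : s.Nonempty) (y : Y) : ℝ :=
  s.sup' hs fun x => dist y x ^ 2

theorem rad2_ucx (hY : BNC a Y) (s : Finset Y) (hs : s.Nonempty) : UCx (rad2 s hs) := by
  intro x y m hm
  apply Finset.sup'_le
  intro z hz
  have h1 := hY.upper x y m hm z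
  have h2 : dist x z ^ 2 ≤ rad2 s hs x := Finset.le_sup' (fun w => dist x w ^ 2) hz
  have h3 : dist y z ^ 2 ≤ rad2 s hs y := Finset.le_sup' (fun w => dist y w ^ 2) hz
  rw [dist_comm m z]
  rw [dist_comm x z] at h2
  rw [dist_comm y z] at h3
  linarith

theorem rad2_nonneg (s : Finset Y) (hs : s.Nonempty) (y : Y) : 0 ≤ rad2 s hs y := by
  obtain ⟨x, hx⟩ := hs
  exact (sq_nonneg (dist y x)).trans (Finset.le_sup' (fun w => dist y w ^ 2) hx)

theorem rad2_cont (s : Finset Y) (hs : s.Nonempty) : Continuous (rad2 s hs) := by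
  have h1 : rad2 s hs = s.sup' hs fun x y => dist y x ^ 2 := by
    funext y
    unfold rad2
    rw [Finset.sup'_apply]
  rw [h1]
  exact Continuous.finset_sup' hs fun x _ => (continuous_id.dist continuous_const).pow 2

/-- There is an equivariant notion of centre of the finite sets. -/
theorem exists_cen {Γ : Type} [Group Γ] [MulAction Γ Y] (hY : BNC a Y) [Nonempty Y] [DecidableEq Y]
    (hiso : ∀ (g : Γ) (x y : Y), dist (g • x) (g • y) = dist x y) :
    ∃ cen : Finset Y → Y,
      (∀ (g : Γ) (s : Finset Y), s.Nonempty → cen (s.image (g • ·)) = g • cen s) ∧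
      (∀ (s : Finset Y), s.Nonempty → ∀ (p : Y) (R : ℝ), (∀ x ∈ s, dist p x ≤ R) →
        dist p (cen s) ≤ R) ∧
      (∀ (s : Finset Y) (d : ℝ), (∀ x ∈ s, ∀ y ∈ s, dist x y ≤ d) →
        ∀ x ∈ s, dist (cen s) x ≤ 3 / 4 * d) := by
  classical
  have hex : ∀ s : Finset Y, ∃ c : Y, ∀ hs : s.Nonempty, ∀ y, rad2 s hs c ≤ rad2 s hs y := by
    intro s
    by_cases hs : s.Nonempty
    · obtain ⟨c, hc⟩ := (rad2_ucx hY s hs).exists_min hY (rad2_nonneg s hs) (rad2_cont s hs)
      exact ⟨c, fun _ => hc⟩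
    · exact ⟨Classical.arbitrary Y, fun h => absurd h hs⟩
  choose cen hcen using hex
  refine ⟨cen, ?_, ?_, ?_⟩
  · intro g s hs
    have hs' : (s.image (g • ·)).Nonempty := hs.image _
    have e : ∀ y, rad2 (s.image (g • ·)) hs' (g • y) = rad2 s hs y := by
      intro y
      unfold rad2
      rw [Finset.sup'_image]
      congr 1
      funext x
      simp only [Function.comp_apply]
      rw [hiso]
    have h1 := (rad2_ucx hY _ hs').sharp hY (hcen _ hs') (g • cen s)
    rw [e] at h1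
    have h2 : rad2 s hs (cen s) ≤ rad2 (s.image (g • ·)) hs' (cen (s.image (g • ·))) := by
      have h3 := e (g⁻¹ • cen (s.image (g • ·)))
      rw [smul_inv_smul] at h3
      rw [h3]
      exact hcen s hs _
    have h3 : dist (g • cen s) (cen (s.image (g • ·))) ^ 2 ≤ 0 := by linarith
    have h4 : dist (g • cen s) (cen (s.image (g • ·))) = 0 := by
      have := sq_nonneg (dist (g • cen s) (cen (s.image (g • ·))))
      exact pow_eq_zero_iff (two_ne_zero) |>.1 (le_antisymm h3 this)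
    exact (dist_eq_zero.1 h4).symm
  · intro s hs p R hR
    have h1 := (rad2_ucx hY _ hs).sharp hY (hcen _ hs) p
    have h2 := rad2_nonneg s hs (cen s)
    have hR0 : 0 ≤ R := by
      obtain ⟨x, hx⟩ := hs
      exact dist_nonneg.trans (hR x hx)
    have h3 : rad2 s hs p ≤ R ^ 2 := by
      apply Finset.sup'_le
      intro x hx
      exact pow_le_pow_left₀ dist_nonneg (hR x hx) 2
    have h4 : dist p (cen s) ^ 2 ≤ R ^ 2 := by linarith
    exact (pow_le_pow_iff_left₀ dist_nonneg hR0 two_ne_zero).1 h4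
  · intro s d hd x hx
    have hs : s.Nonempty := ⟨x, hx⟩
    have hd0 : 0 ≤ d := dist_nonneg.trans (hd x hx x hx)
    obtain ⟨w, hw, hw'⟩ := Finset.exists_mem_eq_sup' hs (fun x => dist (cen s) x ^ 2)
    have h1 := (rad2_ucx hY _ hs).sharp hY (hcen _ hs) w
    have h2 : rad2 s hs w ≤ d ^ 2 := by
      apply Finset.sup'_le
      intro x hx
      exact pow_le_pow_left₀ dist_nonneg (hd w hw x hx) 2
    have h3 : rad2 s hs (cen s) = dist (cen s) w ^ 2 := hw'
    have h4 : dist (cen s) x ^ 2 ≤ rad2 s hs (cen s) :=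
      Finset.le_sup' (fun x => dist (cen s) x ^ 2) hx
    rw [dist_comm w] at h1
    have h5 : dist (cen s) x ^ 2 ≤ (3 / 4 * d) ^ 2 := by nlinarith
    exact (pow_le_pow_iff_left₀ dist_nonneg (by positivity) two_ne_zero).1 h5

end

section

variable {Γ Y : Type} [Group Γ] [MulAction Γ Y] [MetricSpace Y] [MeasurableSpace Y]
  {μ : Measure Y} {a : ℝ}

theorem FinVol.smul_free (h : FinVol Γ Y μ) {g : Γ} {y : Y} (hg : g • y = y) : g = 1 := by
  by_contra hne
  obtain ⟨r, hr, h1⟩ := h.free y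
  have h2 := h1 g hne
  rw [hg, dist_self] at h2
  linarith

/-- The group is torsion-free. -/
theorem FinVol.pow_ne_one (h : FinVol Γ Y μ) (hY : BNC a Y) [Nonempty Y] {g : Γ} (hg : g ≠ 1)
    {n : ℕ} (hn : n ≠ 0) : g ^ n ≠ 1 := by
  classical
  intro hgn
  obtain ⟨cen, h1, _, _⟩ := exists_cen (Γ := Γ) hY h.isom
  obtain ⟨y⟩ := (inferInstance : Nonempty Y)
  obtain ⟨s, hs⟩ : ∃ s : Finset Y, s = (Finset.range n).image (fun i => g ^ i • y) := ⟨_, rfl⟩
  have hne : s.Nonempty := by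
    rw [hs]
    exact (Finset.nonempty_range_iff.2 hn).image _
  have hinv : s.image (g • ·) = s := by
    rw [hs]
    ext x
    simp only [Finset.mem_image, Finset.mem_range]
    constructor
    · rintro ⟨_, ⟨i, hi, rfl⟩, rfl⟩
      by_cases hin : i + 1 < n
      · exact ⟨i + 1, hin, by rw [pow_succ', mul_smul]⟩
      · have : i + 1 = n := by omega
        refine ⟨0, Nat.pos_of_ne_zero hn, ?_⟩
        rw [pow_zero, one_smul, smul_smul, ← pow_succ', this, hgn, one_smul]
    · rintro ⟨i, hi, rfl⟩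
      rcases Nat.eq_zero_or_pos i with h0 | h0
      · refine ⟨g ^ (n - 1) • y, ⟨n - 1, by omega, rfl⟩, ?_⟩
        rw [h0, pow_zero, one_smul, smul_smul, ← pow_succ', Nat.sub_add_cancel (by omega), hgn,
          one_smul]
      · refine ⟨g ^ (i - 1) • y, ⟨i - 1, by omega, rfl⟩, ?_⟩
        rw [smul_smul, ← pow_succ', Nat.sub_add_cancel h0]
  have h2 := h1 g s hne
  rw [hinv] at h2
  exact hg (h.smul_free h2.symm)

end

end ThickThin
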