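import Mathlib

/-!
# Thick-thin: metric spaces with both median inequalities

`Med D`: `D` is a distance function on `Y` such that all midpoints satisfy the median inequality of
curvature `≤ 0` and the reverse one of curvature `≥ -1`, and all geodesics can be prolonged.
-/

namespace ThickThin

open Real

/-- A distance function with curvature in `[-1, 0]`, in terms of midpoints. -/
structure Med {Y : Type} (D : Y → Y → ℝ) : Prop where
  self : ∀ x, D x x = 0
  symm : ∀ x y, D x y = D y x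
  tri : ∀ x y z, D x z ≤ D x y + D y z
  zero : ∀ x y, D x y = 0 → x = y
  mid : ∀ x y, ∃ m, D x m = D x y / 2 ∧ D m y = D x y / 2
  upper : ∀ x y m, D x m = D x y / 2 → D m y = D x y / 2 → ∀ z,
    D z m ^ 2 ≤ D z x ^ 2 / 2 + D z y ^ 2 / 2 - D x y ^ 2 / 4
  lower : ∀ x y m, D x m = D x y / 2 → D m y = D x y / 2 → ∀ z,
    cosh (D z x) + cosh (D z y) ≤ 2 * cosh (D x y / 2) * cosh (D z m)
  ext : ∀ x y, x ≠ y → ∀ r, 0 < r → ∃ z, D x z = D x y + r ∧ D y z = r

section

variable {Y : Type} {D : Y → Y → ℝ}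

theorem Med.nonneg (h : Med D) (x y : Y) : 0 ≤ D x y := by
  have h1 := h.tri x y x
  rw [h.self, h.symm y x] at h1
  linarith

/-- The quadrilateral quantity. -/
def qd (D : Y → Y → ℝ) (x y z w : Y) : ℝ := D x w ^ 2 + D y z ^ 2 - D x z ^ 2 - D y w ^ 2

theorem qd_add (D : Y → Y → ℝ) (x m y z w : Y) : qd D x y z w = qd D x m z w + qd D m y z w := by
  unfold qd
  ring

theorem qd_add' (D : Y → Y → ℝ) (x y z m w : Y) : qd D x y z w = qd D x y z m + qd D x y m w := by
  unfold qd
  ring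

/-- The Euler inequality. -/
theorem Med.euler (h : Med D) (x y z w : Y) : qd D x y z w ≤ D x y ^ 2 + D z w ^ 2 := by
  obtain ⟨m, h1, h2⟩ := h.mid x w
  have h3 := h.upper x w m h1 h2 y
  have h4 := h.upper x w m h1 h2 z
  have h5 : D y z ≤ D y m + D z m := by
    have := h.tri y m z
    rwa [h.symm m z] at this
  have h6 : D y z ^ 2 ≤ 2 * D y m ^ 2 + 2 * D z m ^ 2 := by
    have h7 := h.nonneg y z
    nlinarith [sq_nonneg (D y m - D z m)]
  have h8 := h.symm x z
  have h9 := h.symm x y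
  unfold qd
  rw [h8, h9]
  linarith

theorem Med.euler_pow (h : Med D) (n : ℕ) :
    (∀ x y z w : Y, qd D x y z w ≤ (2 : ℝ) ^ n * D x y ^ 2 + ((2 : ℝ) ^ n)⁻¹ * D z w ^ 2) ∧
    (∀ x y z w : Y, qd D x y z w ≤ ((2 : ℝ) ^ n)⁻¹ * D x y ^ 2 + (2 : ℝ) ^ n * D z w ^ 2) := by
  induction n with
  | zero =>
    constructor
    · intro x y z w
      have := h.euler x y z w
      simpa using this
    · intro x y z w
      have := h.euler x y z w
      simpa using this
  | succ n ih =>
    have hp : (0 : ℝ) < 2 ^ n := by positivity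
    constructor
    · intro x y z w
      obtain ⟨m, h1, h2⟩ := h.mid z w
      have h3 := ih.1 x y z m
      have h4 := ih.1 x y m w
      rw [h1] at h3
      rw [h2] at h4
      rw [qd_add' D x y z m w]
      have e1 : (2 : ℝ) ^ (n + 1) = 2 * 2 ^ n := by ring
      have e2 : ((2 : ℝ) ^ (n + 1))⁻¹ = ((2 : ℝ) ^ n)⁻¹ / 2 := by
        rw [e1, mul_inv]
        ring
      rw [e2, e1]
      nlinarith
    · intro x y z w
      obtain ⟨m, h1, h2⟩ := h.mid x y
      have h3 := ih.2 x m z w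
      have h4 := ih.2 m y z w
      rw [h1] at h3
      rw [h2] at h4
      rw [qd_add D x m y z w]
      have e1 : (2 : ℝ) ^ (n + 1) = 2 * 2 ^ n := by ring
      have e2 : ((2 : ℝ) ^ (n + 1))⁻¹ = ((2 : ℝ) ^ n)⁻¹ / 2 := by
        rw [e1, mul_inv]
        ring
      rw [e2, e1]
      nlinarith

theorem Med.quad_le (h : Med D) (x y z w : Y) : qd D x y z w ≤ 3 * D x y * D z w := by
  rcases (h.nonneg x y).eq_or_lt with h0 | h0
  · have e := h.zero x y h0.symm
    subst e
    unfold qd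
    rw [h.self]
    nlinarith
  rcases (h.nonneg z w).eq_or_lt with h1 | h1
  · have e := h.zero z w h1.symm
    subst e
    unfold qd
    rw [h.self]
    nlinarith
  -- the general case
  have key : ∀ a b : ℝ, 0 < a → 0 < b → a ≤ b → ∃ n : ℕ, (2 : ℝ) ^ n * a ≤ b ∧ b ≤ 2 ^ n * (2 * a) := by
    intro a b ha hb hab
    have h2 : 1 ≤ b / a := by
      rw [le_div_iff₀ ha]
      linarith
    obtain ⟨n, hn, hn'⟩ := exists_nat_pow_near h2 (by norm_num : (1 : ℝ) < 2)
    refine ⟨n, ?_, ?_⟩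
    · rwa [le_div_iff₀ ha] at hn
    · rw [div_lt_iff₀ ha, pow_succ] at hn'
      nlinarith
  rcases le_total (D x y) (D z w) with hle | hle
  · obtain ⟨n, hn1, hn2⟩ := key _ _ h0 h1 hle
    have h3 := (h.euler_pow n).1 x y z w
    have hp : (0 : ℝ) < 2 ^ n := by positivity
    have h4 : (2 : ℝ) ^ n * D x y ^ 2 ≤ D x y * D z w := by nlinarith
    have h5 : ((2 : ℝ) ^ n)⁻¹ * D z w ^ 2 ≤ 2 * (D x y * D z w) := by
      rw [inv_mul_le_iff₀ hp]
      nlinarith
    linarith
  · obtain ⟨n, hn1, hn2⟩ := key _ _ h1 h0 hle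
    have h3 := (h.euler_pow n).2 x y z w
    have hp : (0 : ℝ) < 2 ^ n := by positivity
    have h4 : (2 : ℝ) ^ n * D z w ^ 2 ≤ D x y * D z w := by nlinarith
    have h5 : ((2 : ℝ) ^ n)⁻¹ * D x y ^ 2 ≤ 2 * (D x y * D z w) := by
      rw [inv_mul_le_iff₀ hp]
      nlinarith
    linarith

/-- The quadrilateral inequality (with the constant 3 instead of 2). -/
theorem Med.quad (h : Med D) (x y z w : Y) :
    |D x w ^ 2 + D y z ^ 2 - D x z ^ 2 - D y w ^ 2| ≤ 3 * D x y * D z w := by
  rw [abs_le]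
  have h1 := h.quad_le x y z w
  have h2 := h.quad_le y x z w
  rw [h.symm y x] at h2
  unfold qd at h1 h2
  constructor <;> linarith

end

end ThickThin
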