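import Mathlib
import Pool.Agent.Lib_MP_9dbe3a.GMed

/-!
# Thick-thin: growth of the displacement and the commutator estimate
-/

namespace ThickThin

open Real

theorem sinh_mul_le {u v : ℝ} (hu : 0 ≤ u) (hv : 0 < v) (huv : u ≤ v) :
    sinh u ≤ u / v * sinh v := by
  have h1 : ConvexOn ℝ (Set.Ici 0) sinh := by
    apply MonotoneOn.convexOn_of_deriv (convex_Ici 0) continuous_sinh.continuousOn
      differentiable_sinh.differentiableOn
    rw [Real.deriv_sinh, interior_Ici]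
    intro x hx y hy hxy
    exact cosh_le_cosh.2 (by rwa [abs_of_pos hx, abs_of_pos hy])
  have ha : (0 : ℝ) ≤ 1 - u / v := by
    rw [sub_nonneg, div_le_one hv]
    exact huv
  have hb : (0 : ℝ) ≤ u / v := by positivity
  have hab : 1 - u / v + u / v = 1 := by ring
  have h2 := h1.2 (Set.mem_Ici.2 (le_refl (0 : ℝ))) (Set.mem_Ici.2 hv.le) ha hb hab
  simp only [smul_eq_mul, mul_zero, zero_add, sinh_zero] at h2
  rwa [div_mul_cancel₀ u hv.ne'] at h2

/-- The function `x ↦ cosh √x` is convex: its tangent line. -/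
theorem cosh_tangent {u v : ℝ} (hu : 0 ≤ u) (hv : 0 < v) :
    cosh v + sinh v / (2 * v) * (u ^ 2 - v ^ 2) ≤ cosh u := by
  have hd : ∀ x : ℝ, HasDerivAt (fun x => cosh x - sinh v / (2 * v) * x ^ 2)
      (sinh x - sinh v / v * x) x := by
    intro x
    have h1 := (hasDerivAt_cosh x).sub (((hasDerivAt_id x).pow 2).const_mul (sinh v / (2 * v)))
    have e : sinh x - sinh v / v * x =
        sinh x - sinh v / (2 * v) * ((2 : ℕ) * id x ^ (2 - 1) * 1) := by
      simp only [id, Nat.cast_ofNat, mul_one, pow_one, show 2 - 1 = 1 from rfl]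
      field_simp
    rw [e]
    exact h1
  have hc : Continuous (fun x => cosh x - sinh v / (2 * v) * x ^ 2) :=
    continuous_iff_continuousAt.2 fun x => (hd x).continuousAt
  have hdiff : Differentiable ℝ (fun x => cosh x - sinh v / (2 * v) * x ^ 2) :=
    fun x => (hd x).differentiableAt
  rcases le_total u v with huv | huv
  · have h1 : AntitoneOn (fun x => cosh x - sinh v / (2 * v) * x ^ 2) (Set.Icc 0 v) := by
      apply antitoneOn_of_deriv_nonpos (convex_Icc 0 v) hc.continuousOn hdiff.differentiableOn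
      intro x hx
      rw [interior_Icc] at hx
      rw [(hd x).deriv]
      have h2 := sinh_mul_le hx.1.le hv hx.2.le
      have h3 : sinh v / v * x = x / v * sinh v := by ring
      linarith
    have h2 := h1 (Set.mem_Icc.2 ⟨hu, huv⟩) (Set.mem_Icc.2 ⟨hv.le, le_refl v⟩) huv
    simp only at h2
    linarith
  · have h1 : MonotoneOn (fun x => cosh x - sinh v / (2 * v) * x ^ 2) (Set.Ici v) := by
      apply monotoneOn_of_deriv_nonneg (convex_Ici v) hc.continuousOn hdiff.differentiableOn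
      intro x hx
      rw [interior_Ici] at hx
      have hx' : v < x := hx
      rw [(hd x).deriv]
      have h2 := sinh_mul_le hv.le (hv.trans hx') hx'.le
      have h3 : sinh v / v * x = x / v * sinh v := by ring
      have h4 : x / v * sinh v ≤ sinh x := by
        have h5 : x / v * sinh v ≤ x / v * (v / x * sinh x) :=
          mul_le_mul_of_nonneg_left h2 (by have := hv.trans hx'; positivity)
        have h6 : x / v * (v / x * sinh x) = sinh x := by
          have := hv.trans hx'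
          field_simp
        linarith
      linarith
    have h2 := h1 (Set.mem_Ici.2 (le_refl v)) (Set.mem_Ici.2 huv) huv
    simp only at h2
    linarith

section

variable {Y : Type} {D : Y → Y → ℝ}

theorem cosh_one_lt : cosh 1 < 1.56 := by
  rw [cosh_eq]
  have h1 := exp_one_lt_d9
  have h2 : exp (-1 : ℝ) < 0.37 := by
    rw [exp_neg, inv_lt_comm₀ (exp_pos _) (by norm_num)]
    have := exp_one_gt_d9
    linarith [this, (by norm_num : (0.37 : ℝ)⁻¹ < 2.7182818283)]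
  linarith

theorem sinh_one_lt : sinh 1 < 1.2 := by
  rw [sinh_eq]
  have h1 := exp_one_lt_d9
  have h2 : 0.36 < exp (-1 : ℝ) := by
    rw [exp_neg, lt_inv_comm₀ (by norm_num) (exp_pos _)]
    have := exp_one_lt_d9
    linarith [this, (by norm_num : (2.7182818286 : ℝ) < 0.36⁻¹)]
  linarith

theorem cosh_sub_one_le {b : ℝ} (h0 : 0 ≤ b) (h1 : b ≤ 1) : cosh b - 1 ≤ b ^ 2 := by
  rcases h0.eq_or_lt with h | h
  · rw [← h]
    simp
  -- tangent at 1 of the convex function: use `cosh b - 1 = 2 sinh² (b/2)`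
  have h2 : cosh b = 1 + 2 * sinh (b / 2) ^ 2 := by
    have h3 := cosh_two_mul (b / 2)
    rw [mul_div_cancel₀ b (by norm_num : (2 : ℝ) ≠ 0)] at h3
    have h4 := cosh_sq (b / 2)
    rw [h3, h4]
    ring
  have h3 := sinh_mul_le (u := b / 2) (v := 1) (by linarith) one_pos (by linarith)
  have h5 : 0 ≤ sinh (b / 2) := sinh_nonneg_iff.2 (by linarith)
  have h6 : sinh (b / 2) ≤ b / 2 * 1.2 := by
    have := sinh_one_lt
    nlinarith
  rw [h2]
  nlinarith

theorem sq_le_cosh (d : ℝ) : d ^ 2 / 2 ≤ cosh d - 1 := by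
  have h2 : cosh d = 1 + 2 * sinh (d / 2) ^ 2 := by
    have h3 := cosh_two_mul (d / 2)
    rw [mul_div_cancel₀ d (by norm_num : (2 : ℝ) ≠ 0)] at h3
    have h4 := cosh_sq (d / 2)
    rw [h3, h4]
    ring
  have h3 : (d / 2) ^ 2 ≤ sinh (d / 2) ^ 2 := by
    rw [sq_le_sq]
    rcases le_total 0 (d / 2) with h | h
    · rw [abs_of_nonneg h, abs_of_nonneg (sinh_nonneg_iff.2 h)]
      exact self_le_sinh_iff.2 h
    · rw [abs_of_nonpos h, abs_of_nonpos (sinh_nonpos_iff.2 h)]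
      have := sinh_le_self_iff.2 h
      linarith
  rw [h2]
  linarith

/-- Growth of the displacement: if `g` moves the points of the ball of radius 1 around `p` by at most
`δ ≤ 1`, then it moves the points of the ball of radius 2 by at most `8 δ`. -/
theorem Med.grow (h : Med D) {g : Y → Y} (hg : ∀ x y, D (g x) (g y) = D x y) {p : Y} {δ : ℝ}
    (hδ : δ ≤ 1) (hp : ∀ x, D p x ≤ 1 → D x (g x) ≤ δ) {z : Y} (hz : D p z ≤ 2) :
    D z (g z) ≤ 8 * δ := by
  have hδ0 : 0 ≤ δ := (h.nonneg p (g p)).trans (hp p (by rw [h.self]; norm_num))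
  obtain ⟨m, hm1, hm2⟩ := h.mid p z
  obtain ⟨r, hr⟩ : ∃ r, r = D p z / 2 := ⟨_, rfl⟩
  have hr0 : 0 ≤ r := by
    rw [hr]
    have := h.nonneg p z
    linarith
  have hr1 : r ≤ 1 := by linarith
  rcases hr0.eq_or_lt with hr00 | hrpos
  · have : D p z = 0 := by linarith
    have e := h.zero p z this
    subst e
    have := hp p (by rw [h.self]; norm_num)
    linarith
  rw [← hr] at hm1 hm2
  obtain ⟨A, hA⟩ : ∃ A, A = D p (g p) := ⟨_, rfl⟩
  obtain ⟨B, hB⟩ : ∃ B, B = D m (g m) := ⟨_, rfl⟩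
  have hA0 : 0 ≤ A := hA ▸ h.nonneg _ _
  have hB0 : 0 ≤ B := hB ▸ h.nonneg _ _
  have hAδ : A ≤ δ := by
    rw [hA]
    exact hp p (by rw [h.self]; norm_num)
  have hBδ : B ≤ δ := by
    rw [hB]
    exact hp m (by linarith)
  have hgm1 : D (g p) (g m) = D (g p) (g z) / 2 := by rw [hg, hg, hm1, hr]
  have hgm2 : D (g m) (g z) = D (g p) (g z) / 2 := by rw [hg, hg, hm2, hr]
  have hgr : D (g p) (g z) / 2 = r := by rw [hg, hr]
  have hm1' : D p m = D p z / 2 := by rw [hm1, hr]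
  have hm2' : D m z = D p z / 2 := by rw [hm2, hr]
  have e2 := h.lower p z m hm1' hm2' (g z)
  have e3 := h.lower (g p) (g z) (g m) hgm1 hgm2 m
  have e4 := h.upper (g p) (g z) (g m) hgm1 hgm2 p
  have e5 := (abs_le.1 (h.quad p (g p) m (g m))).1
  rw [← hr] at e2
  rw [hgr] at e3
  have e4' : D (g p) (g z) ^ 2 / 4 = r ^ 2 := by
    have : D (g p) (g z) = 2 * r := by linarith
    rw [this]
    ring
  rw [e4'] at e4
  rw [← hA] at e4 e5
  rw [← hB] at e5 e3
  have e6 : D (g p) (g m) = r := by rw [hgm1, hgr]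
  rw [hm1, e6] at e5
  -- e5 : -(3 * A * B) ≤ D p (g m) ^ 2 + D (g p) m ^ 2 - r ^ 2 - r ^ 2
  have s1 := cosh_tangent (h.nonneg m (g p)) hrpos
  have s2 := cosh_tangent (h.nonneg (g z) p) (by linarith : 0 < 2 * r)
  have hs1 := h.symm (g p) m
  have hs2 := h.symm (g z) p
  have hs3 := h.symm (g z) z
  rw [hs1] at e5
  rw [hs2] at e2 s2
  rw [hs3] at e2
  have hs4 := h.symm (g z) m
  rw [hs4] at e2
  have hcr1 : cosh r ≤ cosh 1 := cosh_le_cosh.2 (by rw [abs_of_nonneg hr0, abs_one]; exact hr1)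
  have hcr : cosh r < 1.56 := lt_of_le_of_lt hcr1 cosh_one_lt
  have hcr0 : 1 ≤ cosh r := one_le_cosh r
  have hsr : sinh r ≤ r * 1.2 := by
    have h3 := sinh_mul_le (u := r) (v := 1) hr0 one_pos hr1
    have := sinh_one_lt
    nlinarith
  have hsr0 : 0 ≤ sinh r := sinh_nonneg_iff.2 hr0
  obtain ⟨c, hc⟩ : ∃ c, c = cosh r := ⟨_, rfl⟩
  obtain ⟨q, hq⟩ : ∃ q, q = sinh r / (2 * r) := ⟨_, rfl⟩
  have hq0 : 0 ≤ q := by
    rw [hq]
    positivity
  have hq1 : q ≤ 0.6 := by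
    rw [hq, div_le_iff₀ (by linarith)]
    linarith
  have hq2 : sinh (2 * r) / (2 * (2 * r)) = q * c := by
    rw [sinh_two_mul, hq, hc]
    field_simp
  have hc2 : cosh (2 * r) = 2 * c ^ 2 - 1 := by
    rw [cosh_two_mul, sinh_sq, ← hc]
    ring
  rw [hq2, hc2] at s2
  rw [← hc] at s1 e2 e3 hcr hcr0
  rw [← hq] at s1
  have hcB := cosh_sub_one_le hB0 (hBδ.trans hδ)
  -- abbreviations
  obtain ⟨a, ha⟩ : ∃ a, a = D p (g m) ^ 2 - r ^ 2 := ⟨_, rfl⟩
  obtain ⟨b, hb⟩ : ∃ b, b = D m (g p) ^ 2 - r ^ 2 := ⟨_, rfl⟩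
  have hab : -(3 * A * B) ≤ a + b := by
    rw [ha, hb]
    linarith
  have hD2 : 4 * r ^ 2 + 2 * a - A ^ 2 ≤ D p (g z) ^ 2 := by
    rw [ha]
    linarith
  have hqc : 0 ≤ q * c := mul_nonneg hq0 (by linarith)
  have s2' : 2 * c ^ 2 - 1 + q * c * (2 * a - A ^ 2) ≤ cosh (D p (g z)) := by
    refine le_trans ?_ s2
    have : q * c * (2 * a - A ^ 2) ≤ q * c * (D p (g z) ^ 2 - (2 * r) ^ 2) :=
      mul_le_mul_of_nonneg_left (by linarith) hqc
    linarith
  have s1' : c + q * b ≤ cosh (D m (g p)) := by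
    rw [hb]
    exact s1
  have f1 : cosh (D m (g z)) ≤ 2 * c * cosh B - (c + q * b) := by linarith
  have f2 : cosh (D z (g z)) ≤ 2 * c * (2 * c * cosh B - (c + q * b)) -
      (2 * c ^ 2 - 1 + q * c * (2 * a - A ^ 2)) := by
    have : 2 * c * cosh (D m (g z)) ≤ 2 * c * (2 * c * cosh B - (c + q * b)) :=
      mul_le_mul_of_nonneg_left f1 (by linarith)
    linarith
  clear e2 e3 e4 e5 s1 s2
  have f3 : cosh (D z (g z)) - 1 ≤ 4 * c ^ 2 * (cosh B - 1) + q * c * (A ^ 2 - 2 * (a + b)) := by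
    have : 2 * c * (2 * c * cosh B - (c + q * b)) - (2 * c ^ 2 - 1 + q * c * (2 * a - A ^ 2)) - 1 =
        4 * c ^ 2 * (cosh B - 1) + q * c * (A ^ 2 - 2 * (a + b)) := by ring
    linarith
  have f4 : q * c * (A ^ 2 - 2 * (a + b)) ≤ q * c * (A ^ 2 + 6 * (A * B)) :=
    mul_le_mul_of_nonneg_left (by linarith) hqc
  have f5 : A ^ 2 + 6 * (A * B) ≤ 7 * δ ^ 2 := by nlinarith
  have hqc1 : q * c ≤ 0.6 * 1.56 := mul_le_mul hq1 hcr.le (by linarith) (by norm_num)
  have f6 : q * c * (A ^ 2 + 6 * (A * B)) ≤ 0.6 * 1.56 * (7 * δ ^ 2) :=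
    mul_le_mul hqc1 f5 (by positivity) (by norm_num)
  have f7 : 4 * c ^ 2 * (cosh B - 1) ≤ 4 * 1.56 ^ 2 * δ ^ 2 := by
    have g1 : c ^ 2 ≤ 1.56 ^ 2 := by
      apply pow_le_pow_left₀ (by linarith) hcr.le
    have g2 : cosh B - 1 ≤ δ ^ 2 := hcB.trans (pow_le_pow_left₀ hB0 hBδ 2)
    have g3 : 0 ≤ cosh B - 1 := by
      have := one_le_cosh B
      linarith
    calc 4 * c ^ 2 * (cosh B - 1) ≤ 4 * 1.56 ^ 2 * (cosh B - 1) := by nlinarith
      _ ≤ 4 * 1.56 ^ 2 * δ ^ 2 := by nlinarith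
  have f8 := sq_le_cosh (D z (g z))
  have f9 : D z (g z) ^ 2 ≤ (8 * δ) ^ 2 := by nlinarith
  exact abs_le_of_sq_le_sq' f9 (by positivity) |>.2

/-- The commutator estimate. -/
theorem Med.comm (h : Med D) {g k : Y → Y} (hg : ∀ x y, D (g x) (g y) = D x y)
    (hk : ∀ x y, D (k x) (k y) = D x y) (sg : Function.Surjective g) (sk : Function.Surjective k)
    {p : Y} {δ η : ℝ} (hδ : δ ≤ 1 / 4) (hη : η ≤ 1 / 4)
    (hp : ∀ x, D p x ≤ 1 → D x (g x) ≤ δ) (hp' : ∀ x, D p x ≤ 1 → D x (k x) ≤ η)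
    {x : Y} (hx : D p x ≤ 1) : D (g (k x)) (k (g x)) ≤ 48 * δ * η := by
  have hδ0 : 0 ≤ δ := (h.nonneg p (g p)).trans (hp p (by rw [h.self]; norm_num))
  have hη0 : 0 ≤ η := (h.nonneg p (k p)).trans (hp' p (by rw [h.self]; norm_num))
  by_cases hne : k (g x) = g (k x)
  · rw [hne, h.self]
    positivity
  obtain ⟨z, hz1, hz2⟩ := h.ext (k (g x)) (g (k x)) hne (1 / 2) (by norm_num)
  have hz3 : D p z ≤ 2 := by
    have h1 := h.tri p x z
    have h2 := h.tri x (g (k x)) z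
    have h3 := h.tri x (g x) (g (k x))
    rw [hg] at h3
    have h4 := hp x hx
    have h5 := hp' x hx
    linarith
  have hzg := h.grow hg (by linarith) hp hz3
  have hzk := h.grow hk (by linarith) hp' hz3
  obtain ⟨z', rfl⟩ := sg z
  obtain ⟨w, hw⟩ := sk (g z')
  have q1 := abs_le.1 (h.quad x (k x) (g z') z')
  have q2 := abs_le.1 (h.quad x (g x) (g z') w)
  -- `D x z' = D (g x) (g z')`
  have a1 : D x z' = D (g x) (g z') := (hg _ _).symm
  have a2 : D (k x) z' = D (g (k x)) (g z') := (hg _ _).symm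
  have a3 : D x w = D (k x) (g z') := by rw [← hw, hk]
  have a4 : D (g x) w = D (k (g x)) (g z') := by rw [← hw, hk]
  have a5 : D (g z') z' ≤ 8 * δ := by
    rw [h.symm, ← hg z' (g z')]
    exact hzg
  have a6 : D (g z') w ≤ 8 * η := by
    rw [h.symm, ← hk w (g z'), hw]
    exact hzk
  rw [a1, a2] at q1
  rw [a3, a4] at q2
  have b1 := hp x hx
  have b2 := hp' x hx
  have b3 := h.nonneg x (g x)
  have b4 := h.nonneg x (k x)
  have b5 := h.nonneg (g z') z'
  have b6 := h.nonneg (g z') w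
  obtain ⟨L, hL⟩ : ∃ L, L = D (k (g x)) (g (k x)) := ⟨_, rfl⟩
  have hL0 : 0 ≤ L := hL ▸ h.nonneg _ _
  rw [← hL] at hz1
  rw [hz1] at q2
  rw [hz2] at q1
  have c1 : 3 * D x (k x) * D (g z') z' ≤ 3 * η * (8 * δ) := by
    apply mul_le_mul _ a5 b5 (by positivity)
    linarith
  have c2 : 3 * D x (g x) * D (g z') w ≤ 3 * δ * (8 * η) := by
    apply mul_le_mul _ a6 b6 (by positivity)
    linarith
  have c3 : L ≤ 48 * δ * η := by
    nlinarith [q1.1, q1.2, q2.1, q2.2]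
  rw [h.symm, ← hL]
  exact c3

end

end ThickThin
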