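import Mathlib
import Pool.Agent.Lib_MP_9dbe3a.GGrow

/-!
# Thick-thin: the norm `nu p g` of an isometry at a point, and commuting elements of minimal norm
-/

namespace ThickThin

section

variable {Y Γ : Type} [Group Γ] [MulAction Γ Y] {D : Y → Y → ℝ}

/-- The largest displacement of `g` on the ball of radius 1 around `p`. -/
noncomputable def nu (D : Y → Y → ℝ) (p : Y) (g : Γ) : ℝ :=
  sSup {t | ∃ x, D p x ≤ 1 ∧ t = D x (g • x)}

/-- The action is by isometries. -/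
def Iso (Γ : Type) [Group Γ] [MulAction Γ Y] (D : Y → Y → ℝ) : Prop :=
  ∀ (g : Γ) (x y : Y), D (g • x) (g • y) = D x y

theorem nu_bdd (h : Med D) (hI : Iso Γ D) (p : Y) (g : Γ) :
    BddAbove {t | ∃ x, D p x ≤ 1 ∧ t = D x (g • x)} := by
  refine ⟨D p (g • p) + 2, ?_⟩
  rintro t ⟨x, hx, rfl⟩
  have h1 := h.tri x p (g • x)
  have h2 := h.tri p (g • p) (g • x)
  rw [hI g p x] at h2
  rw [h.symm x p] at h1
  linarith

theorem le_nu (h : Med D) (hI : Iso Γ D) {p x : Y} (g : Γ) (hx : D p x ≤ 1) :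
    D x (g • x) ≤ nu D p g :=
  le_csSup (nu_bdd h hI p g) ⟨x, hx, rfl⟩

theorem nu_le (h : Med D) {p : Y} {g : Γ} {c : ℝ} (hc : ∀ x, D p x ≤ 1 → D x (g • x) ≤ c) :
    nu D p g ≤ c := by
  apply csSup_le
  · exact ⟨_, p, by rw [h.self]; norm_num, rfl⟩
  · rintro t ⟨x, hx, rfl⟩
    exact hc x hx

theorem disp_le_nu (h : Med D) (hI : Iso Γ D) (p : Y) (g : Γ) : D p (g • p) ≤ nu D p g :=
  le_nu h hI g (by rw [h.self]; norm_num)

theorem nu_nonneg (h : Med D) (hI : Iso Γ D) (p : Y) (g : Γ) : 0 ≤ nu D p g :=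
  (h.nonneg _ _).trans (disp_le_nu h hI p g)

theorem nu_conj_le (h : Med D) (hI : Iso Γ D) (k : Γ) (p : Y) (g : Γ) :
    nu D (k • p) (k * g * k⁻¹) ≤ nu D p g := by
  apply nu_le h
  intro x hx
  have h1 : D p (k⁻¹ • x) ≤ 1 := by
    have := hI k p (k⁻¹ • x)
    rw [smul_inv_smul] at this
    rw [← this]
    exact hx
  have h2 := le_nu h hI g h1
  have h3 : D x ((k * g * k⁻¹) • x) = D (k⁻¹ • x) (g • k⁻¹ • x) := by
    rw [← hI k (k⁻¹ • x), smul_inv_smul, mul_smul, mul_smul]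
  rw [h3]
  exact h2

theorem nu_conj (h : Med D) (hI : Iso Γ D) (k : Γ) (p : Y) (g : Γ) :
    nu D (k • p) (k * g * k⁻¹) = nu D p g := by
  apply le_antisymm (nu_conj_le h hI k p g)
  have h1 := nu_conj_le h hI k⁻¹ (k • p) (k * g * k⁻¹)
  rw [inv_smul_smul] at h1
  have h2 : k⁻¹ * (k * g * k⁻¹) * k⁻¹⁻¹ = g := by group
  rwa [h2] at h1

theorem nu_grow (h : Med D) (hI : Iso Γ D) {p q : Y} {g : Γ} (hpq : D p q ≤ 1)
    (h1 : nu D p g ≤ 1) : nu D q g ≤ 8 * nu D p g := by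
  apply nu_le h
  intro x hx
  have h2 : D p x ≤ 2 := by
    have := h.tri p q x
    linarith
  exact h.grow (g := (g • ·)) (hI g) h1 (fun y hy => le_nu h hI g hy) h2

theorem nu_comm (h : Med D) (hI : Iso Γ D) {p : Y} {g k : Γ} (hg : nu D p g ≤ 1 / 4)
    (hk : nu D p k ≤ 1 / 4) : nu D p (g⁻¹ * k⁻¹ * g * k) ≤ 48 * nu D p g * nu D p k := by
  apply nu_le h
  intro x hx
  have h1 := h.comm (g := (g • ·)) (k := (k • ·)) (hI g) (hI k) (MulAction.surjective g)
    (MulAction.surjective k) hg hk (fun y hy => le_nu h hI g hy) (fun y hy => le_nu h hI k hy) hx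
  have h2 : D x ((g⁻¹ * k⁻¹ * g * k) • x) = D (g • k • x) (k • g • x) := by
    rw [← hI (k * g) x, h.symm]
    congr 1
    · rw [← mul_smul, ← mul_smul]
      congr 1
      group
    · rw [mul_smul]
  rw [h2]
  exact h1

/-- A non-trivial element of minimal norm at `p` commutes with the elements of small norm. -/
theorem commute_of_min (h : Med D) (hI : Iso Γ D) (hfree : ∀ (g : Γ) (x : Y), g • x = x → g = 1)
    {p : Y} {z k : Γ} (hz : z ≠ 1) (hmin : ∀ s : Γ, s ≠ 1 → nu D p z ≤ nu D p s)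
    (hz1 : nu D p z ≤ 1 / 4) (hk : nu D p k ≤ 1 / 96) : Commute z k := by
  have h1 := nu_comm h hI hz1 (by linarith : nu D p k ≤ 1 / 4)
  have hpos : 0 < nu D p z := by
    rcases (nu_nonneg h hI p z).eq_or_lt with h0 | h0
    · exfalso
      have h2 := disp_le_nu h hI p z
      rw [← h0] at h2
      have h3 : D p (z • p) = 0 := le_antisymm h2 (h.nonneg _ _)
      exact hz (hfree z p (h.zero _ _ h3).symm)
    · exact h0
  have h2 : nu D p (z⁻¹ * k⁻¹ * z * k) < nu D p z := by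
    have := nu_nonneg h hI p k
    nlinarith
  have h3 : z⁻¹ * k⁻¹ * z * k = 1 := by
    by_contra hne
    exact absurd (hmin _ hne) (not_le.2 h2)
  have h4 : z * k = k * z := by
    have : k * z * (z⁻¹ * k⁻¹ * z * k) = z * k := by group
    rw [h3, mul_one] at this
    exact this.symm
  exact h4

end

end ThickThin
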