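import Mathlib
import Pool.Agent.Lib_MP_9dbe3a.GCirc
import Pool.Agent.Lib_MP_9dbe3a.GNu

/-!
# Thick-thin: elements of small norm at the thin points
-/

namespace ThickThin

open MeasureTheory Metric Topology Filter

section

variable {Γ Y : Type} [Group Γ] [MulAction Γ Y] [MetricSpace Y] {a : ℝ}

/-- The rescaled distance. -/
noncomputable def dD (a : ℝ) (Y : Type) [MetricSpace Y] (x y : Y) : ℝ := √a * dist x y

theorem BNC.med (hY : BNC a Y) : Med (dD a Y) where
  self x := by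
    unfold dD
    rw [dist_self, mul_zero]
  symm x y := by
    unfold dD
    rw [dist_comm]
  tri x y z := by
    unfold dD
    have h1 := mul_le_mul_of_nonneg_left (dist_triangle x y z) (Real.sqrt_nonneg a)
    linarith
  zero x y h := by
    unfold dD at h
    rcases mul_eq_zero.1 h with h | h
    · exact absurd h (Real.sqrt_pos.2 hY.pos).ne'
    · exact dist_eq_zero.1 h
  mid x y := by
    obtain ⟨m, h1, h2⟩ := hY.mid x y
    refine ⟨m, ?_, ?_⟩
    · unfold dD
      rw [h1]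
      ring
    · unfold dD
      rw [h2]
      ring
  upper x y m h1 h2 z := by
    unfold dD at *
    have hs := Real.sqrt_pos.2 hY.pos
    have e1 : dist x m = dist x y / 2 := by
      have : √a * dist x m = √a * (dist x y / 2) := by rw [h1]; ring
      exact mul_left_cancel₀ hs.ne' this
    have e2 : dist m y = dist x y / 2 := by
      have : √a * dist m y = √a * (dist x y / 2) := by rw [h2]; ring
      exact mul_left_cancel₀ hs.ne' this
    have h3 := hY.upper x y m ⟨e1, e2⟩ z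
    have h4 := mul_le_mul_of_nonneg_left h3 (sq_nonneg √a)
    nlinarith
  lower x y m h1 h2 z := by
    unfold dD at *
    have hs := Real.sqrt_pos.2 hY.pos
    have e1 : dist x m = dist x y / 2 := by
      have : √a * dist x m = √a * (dist x y / 2) := by rw [h1]; ring
      exact mul_left_cancel₀ hs.ne' this
    have e2 : dist m y = dist x y / 2 := by
      have : √a * dist m y = √a * (dist x y / 2) := by rw [h2]; ring
      exact mul_left_cancel₀ hs.ne' this
    exact hY.lower x y m ⟨e1, e2⟩ z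
  ext x y hxy r hr := by
    have hs := Real.sqrt_pos.2 hY.pos
    obtain ⟨z, h1, h2⟩ := hY.prolong x y hxy (r / √a) (by positivity)
    refine ⟨z, ?_, ?_⟩
    · unfold dD
      rw [h1, mul_add, mul_div_cancel₀ r hs.ne']
    · unfold dD
      rw [h2, mul_div_cancel₀ r hs.ne']

theorem dD_iso (a : ℝ) (hiso : ∀ (g : Γ) (x y : Y), dist (g • x) (g • y) = dist x y) :
    Iso Γ (dD a Y) := by
  intro g x y
  unfold dD
  rw [hiso]

variable [MeasurableSpace Y] [BorelSpace Y] {μ : Measure Y}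

theorem FinVol.small (h : FinVol Γ Y μ) (hY : BNC a Y) [Nonempty Y] {η : ℝ} (hη : 0 < η) :
    ∃ ε > 0, ∀ (p : Y) (g : Γ), g ≠ 1 → dist p (g • p) < ε →
      ∃ s : Γ, s ≠ 1 ∧ nu (dD a Y) p s ≤ η := by
  classical
  have hs := Real.sqrt_pos.2 hY.pos
  obtain ⟨b, hb⟩ : ∃ b, b = √a := ⟨_, rfl⟩
  rw [← hb] at hs
  obtain ⟨r, hr⟩ : ∃ r, r = η / (4 * b) := ⟨_, rfl⟩
  have hr0 : 0 < r := by
    rw [hr]
    positivity
  obtain ⟨N₀, hN₀⟩ := h.net (1 / b) hr0
  obtain ⟨N₁, hN₁⟩ := h.net (2 / b) hr0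
  obtain ⟨m, hm⟩ : ∃ m, m = (N₁ + 1) ^ N₀ := ⟨_, rfl⟩
  refine ⟨1 / (b * (m + 1)), by positivity, fun p g hg hd => ?_⟩
  obtain ⟨s₀, hs₀, hs₀', hs₀''⟩ := hN₀ p {x | dist p x ≤ 1 / b} (fun x hx => hx)
  obtain ⟨s₁, hs₁, hs₁', hs₁''⟩ := hN₁ p {x | dist p x ≤ 2 / b} (fun x hx => hx)
  have hgi : ∀ i : ℕ, dist p (g ^ i • p) ≤ i * (1 / (b * (m + 1))) := by
    intro i
    induction i with
    | zero => simp
    | succ i ih =>
      have h1 := dist_triangle p (g ^ i • p) (g ^ (i + 1) • p)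
      have h2 : dist (g ^ i • p) (g ^ (i + 1) • p) = dist p (g • p) := by
        rw [pow_succ, mul_smul, h.isom]
      rw [h2] at h1
      push_cast
      linarith
  have hgi' : ∀ i : ℕ, i ≤ m → dist p (g ^ i • p) ≤ 1 / b := by
    intro i hi
    refine (hgi i).trans ?_
    have h1 : (i : ℝ) ≤ m + 1 := by
      have : (i : ℝ) ≤ m := by exact_mod_cast hi
      linarith
    calc (i : ℝ) * (1 / (b * (m + 1))) ≤ (m + 1) * (1 / (b * (m + 1))) := by
          apply mul_le_mul_of_nonneg_right h1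
          positivity
      _ = 1 / b := by
          field_simp
  have hsel : ∀ (i : Fin (m + 1)) (x : s₀), ∃ y : s₁, dist (g ^ i.1 • x.1) y.1 < r := by
    intro i x
    have h1 : g ^ i.1 • x.1 ∈ {x | dist p x ≤ 2 / b} := by
      show dist p (g ^ i.1 • x.1) ≤ 2 / b
      have h2 := dist_triangle p (g ^ i.1 • p) (g ^ i.1 • x.1)
      rw [h.isom] at h2
      have h3 := hgi' i.1 (Nat.lt_succ_iff.1 i.2)
      have h4 : dist p x.1 ≤ 1 / b := hs₀' x.1 x.2
      have h5 : 2 / b = 1 / b + 1 / b := by ring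
      linarith
    obtain ⟨y, hy, hy'⟩ := hs₁'' _ h1
    exact ⟨⟨y, hy⟩, hy'⟩
  choose φ hφ using hsel
  have hcard : Fintype.card (s₀ → s₁) < Fintype.card (Fin (m + 1)) := by
    rw [Fintype.card_fun, Fintype.card_fin, Fintype.card_coe, Fintype.card_coe, hm]
    calc s₁.card ^ s₀.card ≤ (N₁ + 1) ^ s₀.card := Nat.pow_le_pow_left (by omega) _
      _ ≤ (N₁ + 1) ^ N₀ := Nat.pow_le_pow_right (by omega) hs₀
      _ < (N₁ + 1) ^ N₀ + 1 := Nat.lt_succ_self _
  obtain ⟨i, j, hij, hφij⟩ := Fintype.exists_ne_map_eq_of_card_lt φ hcard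
  -- without loss of generality `i < j`
  have key : ∀ i j : Fin (m + 1), i < j → φ i = φ j → ∃ s : Γ, s ≠ 1 ∧ nu (dD a Y) p s ≤ η := by
    intro i j hij hφij
    refine ⟨g ^ (j.1 - i.1), h.pow_ne_one hY hg (by
      have : i.1 < j.1 := hij
      omega), ?_⟩
    apply nu_le hY.med
    intro x hx
    have hx' : dist p x ≤ 1 / b := by
      unfold dD at hx
      rw [← hb] at hx
      rw [le_div_iff₀ hs]
      linarith
    obtain ⟨x₀, hx₀, hx₀'⟩ := hs₀'' x hx'
    have h1 := hφ i ⟨x₀, hx₀⟩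
    have h2 := hφ j ⟨x₀, hx₀⟩
    rw [← hφij] at h2
    have h3 : dist (g ^ i.1 • x₀) (g ^ j.1 • x₀) < 2 * r := by
      have := dist_triangle (g ^ i.1 • x₀) (φ i ⟨x₀, hx₀⟩).1 (g ^ j.1 • x₀)
      rw [dist_comm (φ i ⟨x₀, hx₀⟩).1] at this
      linarith
    have h4 : dist x₀ (g ^ (j.1 - i.1) • x₀) < 2 * r := by
      rw [← h.isom (g ^ i.1), smul_smul, ← pow_add]
      have : i.1 + (j.1 - i.1) = j.1 := by
        have : i.1 < j.1 := hij
        omega
      rw [this]
      exact h3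
    have h5 : dist x (g ^ (j.1 - i.1) • x) ≤ 4 * r := by
      have h6 := dist_triangle x x₀ (g ^ (j.1 - i.1) • x)
      have h7 := dist_triangle x₀ (g ^ (j.1 - i.1) • x₀) (g ^ (j.1 - i.1) • x)
      rw [h.isom, dist_comm x₀ x] at h7
      linarith
    unfold dD
    rw [← hb]
    calc b * dist x (g ^ (j.1 - i.1) • x) ≤ b * (4 * r) := mul_le_mul_of_nonneg_left h5 hs.le
      _ = η := by
          rw [hr]
          field_simp
  rcases lt_or_gt_of_ne hij with h1 | h1
  · exact key i j h1 hφij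
  · exact key j i h1 hφij.symm

end

end ThickThin
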