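import Mathlib
import Pool.Agent.Lib_MP_9dbe3a.GThin

/-!
# Thick-thin: commuting labels of the thin points
-/

namespace ThickThin

open MeasureTheory Metric Topology Filter

section

variable {Γ Y : Type} [Group Γ] [MulAction Γ Y] [MetricSpace Y] {a : ℝ} [MeasurableSpace Y]
  [BorelSpace Y] {μ : Measure Y}

/-- Outside of a compact set of the quotient there are equivariant non-trivial labels which commute
for nearby points. -/
theorem FinVol.exists_label (h : FinVol Γ Y μ) (hY : BNC a Y) [Nonempty Y] {ε : ℝ} (hε : 0 < ε) :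
    ∃ Q : Set (Quo Γ Y), IsCompact Q ∧ ∃ w : Y → Γ, ∀ y, prj Γ y ∉ Q →
      w y ≠ 1 ∧ (∀ g : Γ, w (g • y) = g * w y * g⁻¹) ∧ dist y (w y • y) < ε ∧
      ∀ x, prj Γ x ∉ Q → √a * dist x y ≤ 1 → Commute (w x) (w y) := by
  classical
  have hs := Real.sqrt_pos.2 hY.pos
  have hM := hY.med
  have hI := dD_iso (Γ := Γ) a h.isom
  have hfree : ∀ (g : Γ) (x : Y), g • x = x → g = 1 := fun g x e => h.smul_free e
  obtain ⟨η, hη⟩ : ∃ η, η = min (1 / 768) (√a * ε / 2) := ⟨_, rfl⟩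
  have hη0 : 0 < η := by
    rw [hη]
    exact lt_min (by norm_num) (by positivity)
  have hη1 : η ≤ 1 / 768 := hη ▸ min_le_left _ _
  have hη2 : η ≤ √a * ε / 2 := hη ▸ min_le_right _ _
  obtain ⟨ε₁, hε₁, hsm⟩ := h.small hY hη0
  obtain ⟨Q, hQ, hQ'⟩ := h.thick hY.complete hε₁
  -- minimal elements
  have hmin : ∀ y : Y, ∃ z : Γ, prj Γ y ∉ Q → z ≠ 1 ∧ nu (dD a Y) y z ≤ η ∧
      ∀ s : Γ, s ≠ 1 → nu (dD a Y) y z ≤ nu (dD a Y) y s := by
    intro y
    by_cases hy : prj Γ y ∉ Q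
    · obtain ⟨g, hg, hd⟩ := hQ' y hy
      obtain ⟨s, hs1, hs2⟩ := hsm y g hg hd
      have hfin : {z : Γ | z ≠ 1 ∧ nu (dD a Y) y z ≤ η}.Finite := by
        refine (h.finite_disp y (η / √a)).subset ?_
        rintro z ⟨_, hz⟩
        show dist y (z • y) ≤ η / √a
        rw [le_div_iff₀ hs]
        have h1 : √a * dist y (z • y) ≤ nu (dD a Y) y z := disp_le_nu hM hI y z
        linarith
      obtain ⟨z, hz, hz'⟩ := Set.exists_min_image _ (nu (dD a Y) y) hfin ⟨s, hs1, hs2⟩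
      refine ⟨z, fun _ => ⟨hz.1, hz.2, fun t ht => ?_⟩⟩
      by_cases h1 : nu (dD a Y) y t ≤ η
      · exact hz' t ⟨ht, h1⟩
      · exact hz.2.trans (not_le.1 h1).le
    · exact ⟨1, fun h1 => absurd h1 hy⟩
  choose w₀ hw₀ using hmin
  -- representatives of the orbits
  obtain ⟨rep, hrep⟩ : ∃ rep : Y → Y, rep = fun y => (prj Γ y).out := ⟨_, rfl⟩
  have hrep1 : ∀ y, ∃ g : Γ, g • rep y = y := by
    intro y
    have h1 : prj Γ (rep y) = prj Γ y := by
      rw [hrep]
      exact Quotient.out_eq _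
    obtain ⟨g, hg⟩ := prj_eq.1 h1.symm
    exact ⟨g, hg⟩
  have hrep2 : ∀ (g : Γ) (y : Y), rep (g • y) = rep y := by
    intro g y
    rw [hrep]
    show (prj Γ (g • y)).out = (prj Γ y).out
    rw [prj_smul]
  choose γ hγ using hrep1
  have hγ2 : ∀ (g : Γ) (y : Y), γ (g • y) = g * γ y := by
    intro g y
    have h1 : γ (g • y) • rep y = (g * γ y) • rep y := by
      have := hγ (g • y)
      rw [hrep2] at this
      rw [this, mul_smul, hγ]
    have h2 : ((g * γ y)⁻¹ * γ (g • y)) • rep y = rep y := by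
      rw [mul_smul, h1, inv_smul_smul]
    have h3 := hfree _ _ h2
    exact (inv_mul_eq_one.1 h3).symm
  obtain ⟨w, hw⟩ : ∃ w : Y → Γ, w = fun y => γ y * w₀ (rep y) * (γ y)⁻¹ := ⟨_, rfl⟩
  have hprop : ∀ y, prj Γ y ∉ Q → w y ≠ 1 ∧ nu (dD a Y) y (w y) ≤ η ∧
      ∀ s : Γ, s ≠ 1 → nu (dD a Y) y (w y) ≤ nu (dD a Y) y s := by
    intro y hy
    have h0 : prj Γ (rep y) ∉ Q := by
      have : prj Γ (rep y) = prj Γ y := by
        conv_rhs => rw [← hγ y]
        rw [prj_smul]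
      rwa [this]
    obtain ⟨h1, h2, h3⟩ := hw₀ (rep y) h0
    have h4 : nu (dD a Y) y (w y) = nu (dD a Y) (rep y) (w₀ (rep y)) := by
      have := nu_conj hM hI (γ y) (rep y) (w₀ (rep y))
      rw [hγ] at this
      rw [hw]
      exact this
    refine ⟨?_, ?_, ?_⟩
    · rw [hw]
      intro h5
      apply h1
      have h6 : γ y * w₀ (rep y) * (γ y)⁻¹ = 1 := h5
      exact conj_eq_one_iff.1 h6
    · rw [h4]
      exact h2
    · intro s hs'
      rw [h4]
      have h5 := h3 ((γ y)⁻¹ * s * γ y) (by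
        intro h6
        apply hs'
        have h7 : (γ y)⁻¹ * s * ((γ y)⁻¹)⁻¹ = 1 := by rwa [inv_inv]
        exact conj_eq_one_iff.1 h7)
      refine h5.trans (le_of_eq ?_)
      have h6 := nu_conj hM hI (γ y) (rep y) ((γ y)⁻¹ * s * γ y)
      rw [hγ] at h6
      rw [← h6]
      congr 1
      group
  refine ⟨Q, hQ, w, fun y hy => ?_⟩
  obtain ⟨h1, h2, h3⟩ := hprop y hy
  refine ⟨h1, fun g => ?_, ?_, fun x hx hxy => ?_⟩
  · rw [hw]
    show γ (g • y) * w₀ (rep (g • y)) * (γ (g • y))⁻¹ = g * (γ y * w₀ (rep y) * (γ y)⁻¹) * g⁻¹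
    rw [hγ2, hrep2, mul_inv_rev]
    group
  · have h4 : √a * dist y (w y • y) ≤ nu (dD a Y) y (w y) := disp_le_nu hM hI y (w y)
    have h5 : √a * dist y (w y • y) < √a * ε := by
      have : √a * ε / 2 < √a * ε := by
        have : 0 < √a * ε := by positivity
        linarith
      linarith
    exact lt_of_mul_lt_mul_left h5 hs.le
  · obtain ⟨g1, g2, g3⟩ := hprop x hx
    have h4 : nu (dD a Y) x (w y) ≤ 8 * nu (dD a Y) y (w y) := by
      apply nu_grow hM hI
      · show √a * dist y x ≤ 1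
        rwa [dist_comm]
      · linarith
    exact commute_of_min hM hI hfree g1 g3 (by linarith) (by linarith)

end

end ThickThin
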