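import Mathlib
import Pool.Agent.Lib_MP_9dbe3a.GLabel

/-!
# Thick-thin: the commuting graph
-/

namespace ThickThin

open MeasureTheory Metric Topology Filter

section

variable {Γ Y : Type} [Group Γ] [MulAction Γ Y] [MetricSpace Y] {a : ℝ}

theorem BNC.mid_mem (hY : BNC a Y) {p x y m : Y} {R : ℝ} (hx : dist p x ≤ R) (hy : dist p y ≤ R)
    (hm : IsMid x y m) : dist p m ≤ R := by
  have h1 := hY.upper x y m hm p
  have hR : 0 ≤ R := dist_nonneg.trans hx
  have h2 : dist p x ^ 2 ≤ R ^ 2 := pow_le_pow_left₀ dist_nonneg hx 2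
  have h3 : dist p y ^ 2 ≤ R ^ 2 := pow_le_pow_left₀ dist_nonneg hy 2
  have h4 : dist p m ^ 2 ≤ R ^ 2 := by
    have := sq_nonneg (dist x y)
    linarith
  exact (pow_le_pow_iff_left₀ dist_nonneg hR two_ne_zero).1 h4

theorem IsSmall.conj {ε : ℝ} (hiso : ∀ (g : Γ) (x y : Y), dist (g • x) (g • y) = dist x y) {s : Γ}
    (hs : IsSmall Y ε s) (g : Γ) : IsSmall Y ε (g * s * g⁻¹) := by
  obtain ⟨h1, y, hy⟩ := hs
  refine ⟨fun h => h1 (conj_eq_one_iff.1 h), g • y, ?_⟩
  have : (g * s * g⁻¹) • g • y = g • s • y := by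
    rw [smul_smul, smul_smul]
    congr 1
    group
  rw [this, hiso]
  exact hy

theorem CommConn.conj {ε : ℝ} (hiso : ∀ (g : Γ) (x y : Y), dist (g • x) (g • y) = dist x y)
    {s t : Γ} (h : CommConn Y ε s t) (g : Γ) : CommConn Y ε (g * s * g⁻¹) (g * t * g⁻¹) := by
  unfold CommConn at *
  induction h with
  | refl => exact Relation.ReflTransGen.refl
  | tail _ h2 ih =>
    refine ih.tail ⟨h2.1.conj hiso g, ?_⟩
    have h3 := h2.2.eq
    show _ * _ = _ * _
    rename_i u v _
    have e1 : g * u * g⁻¹ * (g * v * g⁻¹) = g * (u * v) * g⁻¹ := by group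
    have e2 : g * v * g⁻¹ * (g * u * g⁻¹) = g * (v * u) * g⁻¹ := by group
    rw [e1, e2, h3]

theorem CommConn.symm {ε : ℝ} {s t : Γ} (h : CommConn Y ε s t) (hs : IsSmall Y ε s) :
    IsSmall Y ε t ∧ CommConn Y ε t s := by
  unfold CommConn at *
  induction h with
  | refl => exact ⟨hs, Relation.ReflTransGen.refl⟩
  | tail _ h2 ih =>
    exact ⟨h2.1, (Relation.ReflTransGen.single ⟨ih.1, h2.2.symm⟩).trans ih.2⟩

variable [MeasurableSpace Y] [BorelSpace Y] {μ : Measure Y}

/-- If for some `ε` no component of the commuting graph of the small elements is invariant under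
conjugation, then some compact set cannot be homotoped to leave every compact set. -/
theorem commuting_main (h : FinVol Γ Y μ) (hY : BNC a Y) [Nonempty Y] [Group.FG Γ] {ε : ℝ}
    (hε : 0 < ε) (hc : ∀ s : Γ, IsSmall Y ε s → ∃ g : Γ, ¬ CommConn Y ε s (g * s * g⁻¹)) :
    ∃ C : Set (Quo Γ Y), IsCompact C ∧ ¬ CanLeave C := by
  classical
  have hprop := h.proper hY.complete
  have hcont := h.cont
  have hs := Real.sqrt_pos.2 hY.pos
  obtain ⟨p⟩ := (inferInstance : Nonempty Y)
  obtain ⟨S, hS⟩ := (Group.FG.out : (⊤ : Subgroup Γ).FG)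
  obtain ⟨R, hR⟩ : ∃ R : ℝ, ∀ g ∈ S, dist p (g • p) ≤ R := by
    obtain ⟨R, hR⟩ := (S.image (fun g => dist p (g • p))).exists_le
    exact ⟨R, fun g hg => hR _ (Finset.mem_image_of_mem _ hg)⟩
  obtain ⟨R', hR'⟩ : ∃ R', R' = max R 0 := ⟨_, rfl⟩
  have hR'0 : 0 ≤ R' := hR' ▸ le_max_right _ _
  have hRR' : R ≤ R' := hR' ▸ le_max_left _ _
  refine ⟨prj Γ '' closedBall p R', (isCompact_closedBall p R').image
    h.qcov.isCoveringMap.continuous, fun hC => ?_⟩
  obtain ⟨Q, hQ, w, hw⟩ := h.exists_label hY hε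
  obtain ⟨f, hf1, hf2, hf3⟩ := h.exists_lift hC hQ (A := {y | ∃ g : Γ, g • y ∈ closedBall p R'}) (by
    rintro y ⟨g, hg⟩
    exact ⟨g • y, hg, prj_smul g y⟩) (by
    rintro k y ⟨g, hg⟩
    exact ⟨g * k⁻¹, by rwa [smul_smul, inv_mul_cancel_right]⟩)
  have hsub : closedBall p R' ⊆ {y | ∃ g : Γ, g • y ∈ closedBall p R'} := fun y hy =>
    ⟨1, by rwa [one_smul]⟩
  have huc : UniformContinuousOn f (closedBall p R') :=
    (isCompact_closedBall p R').uniformContinuousOn_of_continuous (hf1.mono hsub)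
  obtain ⟨δ, hδ, hfδ⟩ := Metric.uniformContinuousOn_iff.1 huc (1 / √a) (by positivity)
  have hthin : ∀ y ∈ closedBall p R', prj Γ (f y) ∉ Q := fun y hy => hf3 y (hsub hy)
  have hconn : ∀ (n : ℕ) (x y : Y), x ∈ closedBall p R' → y ∈ closedBall p R' →
      dist x y / 2 ^ n < δ → CommConn Y ε (w (f x)) (w (f y)) := by
    intro n
    induction n with
    | zero =>
      intro x y hx hy hxy
      rw [pow_zero, div_one] at hxy
      have h1 := hfδ x hx y hy hxy
      have h2 := hw (f y) (hthin y hy)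
      have h3 := hw (f x) (hthin x hx)
      refine Relation.ReflTransGen.single ⟨⟨h2.1, f y, h2.2.2.1⟩, ?_⟩
      refine h2.2.2.2 (f x) (hthin x hx) ?_
      rw [lt_div_iff₀ hs] at h1
      linarith
    | succ n ih =>
      intro x y hx hy hxy
      obtain ⟨m, hm⟩ := hY.mid x y
      have hm' : m ∈ closedBall p R' := by
        rw [mem_closedBall, dist_comm] at hx hy ⊢
        exact hY.mid_mem hx hy hm
      have e : dist x y / 2 ^ (n + 1) = dist x y / 2 / 2 ^ n := by
        rw [pow_succ]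
        field_simp
      refine (ih x m hx hm' ?_).trans (ih m y hm' hy ?_)
      · rw [hm.1, ← e]
        exact hxy
      · rw [hm.2, ← e]
        exact hxy
  have hball : ∀ x y : Y, x ∈ closedBall p R' → y ∈ closedBall p R' →
      CommConn Y ε (w (f x)) (w (f y)) := by
    intro x y hx hy
    obtain ⟨n, hn⟩ := exists_nat_gt (dist x y / δ)
    refine hconn n x y hx hy ?_
    rw [div_lt_iff₀ hδ] at hn
    rw [div_lt_iff₀ (by positivity)]
    have h1 : (n : ℝ) ≤ 2 ^ n := by exact_mod_cast Nat.lt_two_pow_self.le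
    nlinarith
  have hp : p ∈ closedBall p R' := mem_closedBall_self hR'0
  obtain ⟨s, hs'⟩ : ∃ s, s = w (f p) := ⟨_, rfl⟩
  have hwp := hw (f p) (hthin p hp)
  have hsmall : IsSmall Y ε s := by
    rw [hs']
    exact ⟨hwp.1, f p, hwp.2.2.1⟩
  have hgen : ∀ g ∈ S, CommConn Y ε s (g * s * g⁻¹) := by
    intro g hg
    have h1 := hball p (g • p) hp (by
      rw [mem_closedBall, dist_comm]
      exact (hR g hg).trans hRR')
    rw [hf2 g p (hsub hp), hwp.2.1 g, ← hs'] at h1
    exact h1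
  have hall : ∀ g : Γ, CommConn Y ε s (g * s * g⁻¹) := by
    intro g
    have hg : g ∈ Subgroup.closure (S : Set Γ) := by
      rw [hS]
      trivial
    induction hg using Subgroup.closure_induction with
    | mem g hg => exact hgen g hg
    | one =>
      rw [one_mul, inv_one, mul_one]
      exact Relation.ReflTransGen.refl
    | mul g k _ _ ihg ihk =>
      refine ihg.trans ?_
      have h1 := ihk.conj h.isom g
      have e : g * (k * s * k⁻¹) * g⁻¹ = g * k * s * (g * k)⁻¹ := by group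
      rwa [e] at h1
    | inv g _ ih =>
      have h1 := ih.conj h.isom g⁻¹
      have e : g⁻¹ * (g * s * g⁻¹) * g⁻¹⁻¹ = s := by group
      rw [e] at h1
      exact (h1.symm (hsmall.conj h.isom g⁻¹)).2
  obtain ⟨g, hg⟩ := hc s hsmall
  exact hg (hall g)

end

end ThickThin
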