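import Mathlib
import Pool.Agent.Lib_MP_9dbe3a.AJ
import Pool.Agent.Lib_MP_9dbe3a.GComm
import Pool.Agent.Lib_MP_394d50_cub.EOp

/-!
# Thick-thin: the factorisation through a labelled list complex

If every compact subset of the quotient can be homotoped to leave every compact set then every free
cofinite complex maps to a labelled list complex whose labels are small elements.
-/

namespace ThickThin

open MeasureTheory Metric SingerVS

section

variable {Γ Y : Type} [Group Γ] [MetricSpace Y] [MulAction Γ Y] [MeasurableSpace Y] [BorelSpace Y]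
  {μ : Measure Y} {a : ℝ}

/-- Finitely many orbits of lists. -/
theorem finite_orb_lists (h : FinVol Γ Y μ) {F : Set Y} (hF : F.Finite) {f : Y → Y}
    (hf : ∀ (g : Γ), ∀ y ∈ F, f (g • y) = g • f y) {R : ℝ} (S : LS Γ Y) {J : ℕ}
    (hJ : ∀ l ∈ S.A, l.length < J) (hSF : ∀ l ∈ S.A, ∀ x ∈ l, ∃ g : Γ, g • x ∈ F)
    (hSd : ∀ l ∈ S.A, ∀ x ∈ l, ∀ y ∈ l, dist (f x) (f y) ≤ R) : Finite (Orb Γ S.Cell) := by
  classical
  -- the possible entries of the lists which begin with an element of `F`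
  obtain ⟨E, hE⟩ : ∃ E : Set Y, E = ⋃ x₀ ∈ F, ⋃ y₀ ∈ F, (fun k : Γ => k • y₀) ''
    {k : Γ | dist (f y₀) (k • f y₀) ≤ dist (f y₀) (f x₀) + R} := ⟨_, rfl⟩
  have hEf : E.Finite := by
    rw [hE]
    exact hF.biUnion fun x₀ _ => hF.biUnion fun y₀ _ => (h.finite_disp _ _).image _
  have hfinE : Finite E := hEf.to_subtype
  have hlf : {l : List E | l.length < J}.Finite := List.finite_length_lt E J
  have hlists : {l : List Y | l.length < J ∧ ∀ x ∈ l, x ∈ E}.Finite := by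
    refine (hlf.image (List.map Subtype.val)).subset ?_
    rintro l ⟨h1, h2⟩
    refine ⟨l.attachWith (· ∈ E) h2, ?_, ?_⟩
    · show (l.attachWith (· ∈ E) h2).length < J
      rwa [List.length_attachWith]
    · exact List.attachWith_map_subtype_val h2
  have hT : {l : S.T | l.1.length < J ∧ ∀ x ∈ l.1, x ∈ E}.Finite :=
    Set.Finite.of_finite_image (f := Subtype.val) (hlists.subset (by
      rintro _ ⟨l, hl, rfl⟩
      exact hl)) Subtype.val_injective.injOn
  have hT' := (hT.prod (Set.finite_univ (α := Bool))).to_subtype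
  refine Finite.of_surjective (fun z : ({l : S.T | l.1.length < J ∧ ∀ x ∈ l.1, x ∈ E} ×ˢ
    (Set.univ : Set Bool) : Set (S.T × Bool)) => (Quotient.mk'' (z.1 : S.Cell) : Orb Γ S.Cell)) ?_
  intro o
  induction o using Quotient.inductionOn' with
  | h c =>
    obtain ⟨⟨l, hl⟩, b⟩ := c
    cases l with
    | nil => exact absurd rfl (S.ne _ hl)
    | cons x l =>
      obtain ⟨g, hg⟩ := hSF _ hl x List.mem_cons_self
      refine ⟨⟨g • (⟨x :: l, hl⟩, b), ?_⟩, ?_⟩
      · refine Set.mem_prod.2 ⟨⟨?_, ?_⟩, Set.mem_univ _⟩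
        · show ((x :: l).map (g • ·)).length < J
          rw [List.length_map]
          exact hJ _ hl
        · intro y hy
          have hy' : y ∈ (x :: l).map (g • ·) := hy
          obtain ⟨y', hy'1, rfl⟩ := List.mem_map.1 hy'
          obtain ⟨k, hk⟩ := hSF _ hl y' hy'1
          have h1 := hSd _ hl x List.mem_cons_self y' hy'1
          rw [hE]
          simp only [Set.mem_iUnion]
          refine ⟨g • x, hg, k • y', hk, g * k⁻¹, ?_, ?_⟩
          · -- the distance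
            have h2 : f x = g⁻¹ • f (g • x) := by
              rw [← hf g⁻¹ _ hg, inv_smul_smul]
            have h3 : f y' = k⁻¹ • f (k • y') := by
              rw [← hf k⁻¹ _ hk, inv_smul_smul]
            rw [h2, h3] at h1
            have h4 : dist (f (g • x)) ((g * k⁻¹) • f (k • y')) ≤ R := by
              rw [← h.isom g, smul_inv_smul, smul_smul] at h1
              exact h1
            exact (dist_triangle _ (f (g • x)) _).trans (by linarith)
          · show (g * k⁻¹) • k • y' = g • y'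
            rw [mul_smul, inv_smul_smul]
      · exact Quotient.sound' ⟨g, rfl⟩

/-- The factorisation. -/
theorem exists_LS (h : FinVol Γ Y μ) (hY : BNC a Y) [Nonempty Y] {ε : ℝ} (hε : 0 < ε) {C : Type}
    [MulAction Γ C] {X : Cx ℤ C} (hX : IsCx Γ X) (hfin : Finite (Orb Γ C))
    (hall : ∀ K : Set (Quo Γ Y), IsCompact K → CanLeave K) :
    ∃ (S : LS Γ Y) (J : ℕ), (∀ l ∈ S.A, l.length < J) ∧
      (∀ l ∈ S.A, ∀ x ∈ l, IsSmall Y ε (S.z x)) ∧ Finite (Orb Γ S.Cell) ∧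
      ∃ φ, ∀ N, IsMap Γ X S.cx N φ := by
  classical
  have hprop := h.proper hY.complete
  have hs := Real.sqrt_pos.2 hY.pos
  have hfinT : Fintype (Orb Γ C) := Fintype.ofFinite _
  obtain ⟨p⟩ := (inferInstance : Nonempty Y)
  obtain ⟨b, hb, -⟩ := equi_choice (Γ := Γ) (C := C) (M := Y) hX.free (fun g y => g • y)
    (fun y => one_smul Γ y) (fun g h y => mul_smul g h y) (fun _ _ => True)
    (fun _ _ _ _ => trivial) (fun _ => ⟨p, trivial⟩)
  obtain ⟨cen, hc1, hc2, hc3⟩ := exists_cen (Γ := Γ) hY h.isom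
  -- the points of a finite family of chains
  have hpts : ∀ U : Orb Γ C → (List Y →₀ ℤ),
      {x : Y | ∃ o, ∃ l, U o l ≠ 0 ∧ x ∈ l}.Finite := by
    intro U
    have h1 : {x : Y | ∃ o, ∃ l, U o l ≠ 0 ∧ x ∈ l} =
        ⋃ o : Orb Γ C, ⋃ l ∈ (U o).support, {x : Y | x ∈ l} := by
      ext x
      simp only [Set.mem_ofPred_eq, Set.mem_iUnion, Finsupp.mem_support_iff, exists_prop]
    rw [h1]
    refine Set.finite_iUnion fun o => ?_
    exact Set.Finite.biUnion (U o).support.finite_toSet fun l _ => List.finite_toSet l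
  obtain ⟨R₀, hR₀⟩ : ∃ R₀ : ℝ, ∀ x ∈ {x : Y | ∃ o : Orb Γ C, ∃ l, j1 X b o.out l ≠ 0 ∧ x ∈ l},
      dist p x ≤ R₀ := by
    obtain ⟨R₀, hR₀⟩ := ((hpts fun o => j1 X b o.out).image (fun x => dist p x)).bddAbove
    exact ⟨R₀, fun x hx => hR₀ ⟨x, hx, rfl⟩⟩
  obtain ⟨R, hRdef⟩ : ∃ R, R = max R₀ 0 := ⟨_, rfl⟩
  have hR0 : 0 ≤ R := hRdef ▸ le_max_right _ _
  have hRR : R₀ ≤ R := hRdef ▸ le_max_left _ _
  have hC := hall (prj Γ '' closedBall p R) ((isCompact_closedBall p R).image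
    h.qcov.isCoveringMap.continuous)
  obtain ⟨Q, hQ, w, hw⟩ := h.exists_label hY hε
  obtain ⟨A, hAdef⟩ : ∃ A : Set Y, A = {y | ∃ g : Γ, g • y ∈ closedBall p R} := ⟨_, rfl⟩
  have hAi : ∀ (g : Γ), ∀ y ∈ A, g • y ∈ A := by
    rw [hAdef]
    rintro k y ⟨g, hg⟩
    exact ⟨g * k⁻¹, by rwa [smul_smul, inv_mul_cancel_right]⟩
  obtain ⟨f, hf1, hf2, hf3⟩ := h.exists_lift hC hQ (A := A) (by
    rw [hAdef]
    rintro y ⟨g, hg⟩
    exact ⟨g • y, hg, prj_smul g y⟩) hAi
  have hsub : closedBall p R ⊆ A := fun y hy => by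
    rw [hAdef]
    exact ⟨1, by rwa [one_smul]⟩
  have huc : UniformContinuousOn f (closedBall p R) :=
    (isCompact_closedBall p R).uniformContinuousOn_of_continuous (hf1.mono hsub)
  obtain ⟨δ, hδ, hfδ⟩ := Metric.uniformContinuousOn_iff.1 huc (1 / √a) (by positivity)
  obtain ⟨m, hm⟩ : ∃ m : ℕ, (3 / 4 : ℝ) ^ m * (2 * R) < δ := by
    obtain ⟨m, hm⟩ := exists_pow_lt_of_lt_one (x := δ / (2 * R + 1)) (by positivity)
      (show (3 / 4 : ℝ) < 1 by norm_num)
    refine ⟨m, ?_⟩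
    rw [lt_div_iff₀ (by positivity)] at hm
    have : (0 : ℝ) < (3 / 4) ^ m := by positivity
    nlinarith
  -- the chains of the representatives
  obtain ⟨U, hU⟩ : ∃ U : Orb Γ C → (List Y →₀ ℤ), U = fun o => (SD cen ^ m) (j1 X b o.out) :=
    ⟨_, rfl⟩
  have hin0 : ∀ o : Orb Γ C, j1 X b o.out ∈ Finsupp.supported ℤ ℤ
      {l : List Y | l.length = X.dim o.out + 1 ∧ ∀ x ∈ l, x ∈ closedBall p R} := by
    intro o
    refine mem_spt.2 fun l hl => ⟨mem_spt.1 (j1_len hX (b := b) _ o.out rfl) l hl, fun x hx => ?_⟩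
    rw [mem_closedBall, dist_comm]
    exact (hR₀ x ⟨o, l, hl, hx⟩).trans hRR
  have hin1 : ∀ o : Orb Γ C, U o ∈ Finsupp.supported ℤ ℤ
      {l : List Y | l.length = X.dim o.out + 1 ∧ ∀ x ∈ l, x ∈ closedBall p R} := by
    intro o
    rw [hU]
    refine SD_spt (fun s hs hsP => ?_) _ m (hin0 o)
    rw [mem_closedBall, dist_comm]
    refine hc2 s hs p R fun x hx => ?_
    have := hsP x hx
    rwa [mem_closedBall, dist_comm] at this
  have hin2 : ∀ o : Orb Γ C, U o ∈ Finsupp.supported ℤ ℤ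
      {l : List Y | ∀ x ∈ l, ∀ y ∈ l, dist x y ≤ (3 / 4) ^ m * (2 * R)} := by
    intro o
    rw [hU]
    refine SD_dist hc2 hc3 (by positivity) m ?_
    refine mem_spt.2 fun l hl x hx y hy => ?_
    have h1 := (mem_spt.1 (hin0 o) l hl).2
    have h2 := h1 x hx
    have h3 := h1 y hy
    rw [mem_closedBall] at h2 h3
    have h4 := dist_triangle_right x y p
    linarith
  obtain ⟨F, hF⟩ : ∃ F : Set Y, F = {x : Y | ∃ o, ∃ l, U o l ≠ 0 ∧ x ∈ l} := ⟨_, rfl⟩
  have hFf : F.Finite := hF ▸ hpts U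
  have hFb : F ⊆ closedBall p R := by
    rw [hF]
    rintro x ⟨o, l, hl, hx⟩
    exact (mem_spt.1 (hin1 o) l hl).2 x hx
  have hFA : ∀ x, (∃ g : Γ, g • x ∈ F) → x ∈ A := by
    rintro x ⟨g, hg⟩
    rw [hAdef]
    exact ⟨g, hFb hg⟩
  -- the labelled lists
  obtain ⟨J, hJ⟩ : ∃ J : ℕ, ∀ o : Orb Γ C, X.dim o.out + 1 < J := by
    refine ⟨(∑ o : Orb Γ C, X.dim o.out) + 2, fun o => ?_⟩
    have := Finset.single_le_sum (f := fun o : Orb Γ C => X.dim o.out) (fun _ _ => Nat.zero_le _)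
      (Finset.mem_univ o)
    omega
  obtain ⟨S, hSA, hSz⟩ : ∃ S : LS Γ Y, S.A = {l | l ≠ [] ∧ l.length < J ∧
      (∀ x ∈ l, ∃ g : Γ, g • x ∈ F) ∧ ∀ x ∈ l, ∀ y ∈ l, √a * dist (f x) (f y) ≤ 1} ∧
      S.z = fun y => if y ∈ A then w (f y) else 1 := by
    refine ⟨⟨{l | l ≠ [] ∧ l.length < J ∧
      (∀ x ∈ l, ∃ g : Γ, g • x ∈ F) ∧ ∀ x ∈ l, ∀ y ∈ l, √a * dist (f x) (f y) ≤ 1},
      fun y => if y ∈ A then w (f y) else 1, ?_, ?_, ?_, ?_, ?_, ?_⟩, rfl, rfl⟩
    · rintro g l ⟨h1, h2, h3, h4⟩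
      refine ⟨?_, ?_, ?_, ?_⟩
      · rwa [Ne, List.map_eq_nil_iff]
      · rwa [List.length_map]
      · intro x hx
        obtain ⟨x', hx', rfl⟩ := List.mem_map.1 hx
        obtain ⟨k, hk⟩ := h3 x' hx'
        exact ⟨k * g⁻¹, by rwa [smul_smul, inv_mul_cancel_right]⟩
      · intro x hx y hy
        obtain ⟨x', hx', rfl⟩ := List.mem_map.1 hx
        obtain ⟨y', hy', rfl⟩ := List.mem_map.1 hy
        rw [hf2 g x' (hFA x' (h3 x' hx')), hf2 g y' (hFA y' (h3 y' hy')), h.isom]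
        exact h4 x' hx' y' hy'
    · rintro l ⟨h1, -⟩
      exact h1
    · rintro l ⟨h1, h2, h3, h4⟩ h5 i hi
      have h6 : (l.eraseIdx i).length = l.length - 1 := List.length_eraseIdx_of_lt hi
      refine ⟨?_, ?_, ?_, ?_⟩
      · intro h7
        rw [h7, List.length_nil] at h6
        omega
      · omega
      · intro x hx
        exact h3 x (List.mem_of_mem_eraseIdx hx)
      · intro x hx y hy
        exact h4 x (List.mem_of_mem_eraseIdx hx) y (List.mem_of_mem_eraseIdx hy)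
    · intro g y
      by_cases hy : y ∈ A
      · have hgy := hAi g y hy
        simp only [if_pos hy, if_pos hgy]
        rw [hf2 g y hy]
        exact (hw (f y) (hf3 y hy)).2.1 g
      · have hgy : g • y ∉ A := fun h1 => hy (by
          have := hAi g⁻¹ _ h1
          rwa [inv_smul_smul] at this)
        simp only [if_neg hy, if_neg hgy, mul_one, mul_inv_cancel]
    · rintro l ⟨h1, h2, h3, h4⟩ x hx y hy
      have hxA := hFA x (h3 x hx)
      have hyA := hFA y (h3 y hy)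
      simp only [if_pos hxA, if_pos hyA]
      exact (hw (f y) (hf3 y hyA)).2.2.2 (f x) (hf3 x hxA) (h4 x hx y hy)
    · intro g y hg
      exact h.smul_free hg
  have hSA' : ∀ l, l ∈ S.A ↔ l ≠ [] ∧ l.length < J ∧
      (∀ x ∈ l, ∃ g : Γ, g • x ∈ F) ∧ ∀ x ∈ l, ∀ y ∈ l, √a * dist (f x) (f y) ≤ 1 := by
    intro l
    rw [hSA]
    exact Iff.rfl
  have hUA : ∀ o, U o ∈ Finsupp.supported ℤ ℤ S.A := by
    intro o
    refine mem_spt.2 fun l hl => (hSA' l).2 ?_
    obtain ⟨h1, h2⟩ := mem_spt.1 (hin1 o) l hl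
    refine ⟨?_, ?_, ?_, ?_⟩
    · intro h3
      rw [h3, List.length_nil] at h1
      omega
    · rw [h1]
      exact hJ o
    · intro x hx
      refine ⟨1, ?_⟩
      rw [one_smul, hF]
      exact ⟨o, l, hl, hx⟩
    · intro x hx y hy
      have h3 := mem_spt.1 (hin2 o) l hl x hx y hy
      have h4 := hfδ x (h2 x hx) y (h2 y hy) (h3.trans_lt hm)
      rw [lt_div_iff₀ hs] at h4
      linarith
  refine ⟨S, J, fun l hl => ((hSA' l).1 hl).2.1, fun l hl x hx => ?_, ?_, _,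
    fun N => toS_isMap S hX hb hc1 m N fun c => ?_⟩
  · have hxA := hFA x (((hSA' l).1 hl).2.2.1 x hx)
    rw [hSz]
    simp only [if_pos hxA]
    have h1 := hw (f x) (hf3 x hxA)
    exact ⟨h1.1, f x, h1.2.2.1⟩
  · refine finite_orb_lists h hFf (f := f) (R := 1 / √a) (fun g y hy => hf2 g y (hsub (hFb hy))) S
      (fun l hl => ((hSA' l).1 hl).2.1) (fun l hl => ((hSA' l).1 hl).2.2.1)
      (fun l hl x hx y hy => ?_)
    rw [le_div_iff₀ hs]
    have := ((hSA' l).1 hl).2.2.2 x hx y hy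
    linarith
  · obtain ⟨g, o, rfl⟩ := exists_rep (H := Γ) c
    rw [j1_smul hX hb g _ _ rfl, SD_mp hc1, mp_eq]
    refine lin_mem _ fun l hl => Finsupp.single_mem_supported ℤ 1 ?_
    refine S.smul_mem g l (mem_spt.1 (hUA o) l ?_)
    rw [hU]
    exact hl

end

end ThickThin
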