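import Mathlib
import Pool.Agent.Lib_MP_9dbe3a.AFac

/-!
# Thick-thin, algebra: cohomology of the labelled list complex with twisted coefficients
-/

namespace ThickThin

open MeasureTheory SingerVS

section

variable {Γ V : Type} [Group Γ] [AddCommGroup V] (ρ : Γ →* AddMonoid.End V)

theorem lin_actV {C : Type} [MulAction Γ C] {F : C → V} (hF : ∀ (g : Γ) c, F (g • c) = ρ g (F c))
    (g : Γ) (u : C →₀ ℤ) : lin F (act ℤ g u) = ρ g (lin F u) := by
  induction u using Finsupp.induction_linear with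
  | zero => simp only [map_zero]
  | add u v hu hv => rw [map_add, map_add, hu, hv, map_add, map_add]
  | single c r =>
    rw [act_single, lin, Finsupp.linearCombination_single, Finsupp.linearCombination_single, hF,
      map_zsmul]

variable {Y : Type} [MulAction Γ Y] (S : LS Γ Y)

namespace LS

/-- `∏ (z_i - 1)` on `V`. -/
noncomputable def pv (l : List Y) : AddMonoid.End V := (l.map fun x => ρ (S.z x) - 1).prod

theorem pv_cons (y : Y) (l : List Y) (v : V) :
    S.pv ρ (y :: l) v = ρ (S.z y) (S.pv ρ l v) - S.pv ρ l v := by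
  unfold pv
  rw [List.map_cons, List.prod_cons]
  rfl

theorem pv_bij {l : List Y} (h : ∀ x ∈ l, Function.Bijective fun v => ρ (S.z x) v - v) :
    Function.Bijective (S.pv ρ l) := by
  induction l with
  | nil => exact Function.bijective_id
  | cons y l ih =>
    have h1 := ih fun x hx => h x (List.mem_cons_of_mem y hx)
    have h2 := (h y List.mem_cons_self).comp h1
    have h3 : ⇑(S.pv ρ (y :: l)) = (fun v => ρ (S.z y) v - v) ∘ ⇑(S.pv ρ l) := by
      funext v
      exact S.pv_cons ρ y l v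
    rw [h3]
    exact h2

theorem pv_smul (g : Γ) (l : List Y) (v : V) :
    S.pv ρ (l.map (g • ·)) (ρ g v) = ρ g (S.pv ρ l v) := by
  induction l with
  | nil => rfl
  | cons y l ih =>
    rw [List.map_cons, pv_cons, pv_cons, ih, S.zc, map_mul, map_mul, map_sub]
    congr 1
    show ρ g (ρ (S.z y) (ρ g⁻¹ (ρ g (S.pv ρ l v)))) = _
    have h1 : ρ g⁻¹ (ρ g (S.pv ρ l v)) = S.pv ρ l v := by
      have h2 : (ρ g⁻¹ * ρ g) (S.pv ρ l v) = S.pv ρ l v := by
        rw [← map_mul, inv_mul_cancel, map_one]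
        rfl
      exact h2
    rw [h1]

theorem pv_erase {l : List Y} (hl : l ∈ S.A) {i : ℕ} (hi : i < l.length) (v : V) :
    ρ (zi S.z l i) (S.pv ρ (l.eraseIdx i) v) - S.pv ρ (l.eraseIdx i) v = S.pv ρ l v := by
  obtain ⟨m, hm⟩ : ∃ m, m = l.map fun x => (ρ (S.z x) - 1) := ⟨_, rfl⟩
  have hi' : i < m.length := by
    rw [hm, List.length_map]
    exact hi
  have hcomm : ∀ x ∈ l, ∀ y ∈ l, Commute (ρ (S.z x) - 1) (ρ (S.z y) - 1) := by
    intro x hx y hy
    have h1 : Commute (ρ (S.z x)) (ρ (S.z y)) := (S.comm l hl x hx y hy).map ρ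
    exact ((h1.sub_left (Commute.one_left _)).sub_right
      ((Commute.one_right _).sub_left (Commute.one_left _)))
  have h1 := List.mul_prod_eraseIdx hi' (by
    intro a ha
    have ha' := List.mem_of_mem_take ha
    rw [hm] at ha'
    obtain ⟨y, hy, rfl⟩ := List.mem_map.1 ha'
    have h2 : m[i] = ρ (S.z l[i]) - 1 := by
      simp only [hm, List.getElem_map]
    rw [h2]
    exact hcomm _ (List.getElem_mem _) y hy)
  have h2 : m[i] = ρ (S.z l[i]) - 1 := by
    simp only [hm, List.getElem_map]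
  have h3 : m.eraseIdx i = (l.eraseIdx i).map fun x => (ρ (S.z x) - 1) := by
    rw [hm, List.eraseIdx_map]
  rw [h2, h3] at h1
  have h4 := DFunLike.congr_fun h1 v
  rw [zi_of_lt _ _ hi]
  unfold pv
  rw [← hm, ← h4]
  rfl

theorem lin_pz {u : S.T → V} (hu : ∀ (g : Γ) c, u (g • c) = ρ g (u c)) (m : List Y)
    (w : S.T →₀ ℤ) : lin u (S.pz m w) = S.pv ρ m (lin u w) := by
  induction m with
  | nil => rfl
  | cons y m ih =>
    have h1 : S.pz (y :: m) w = act ℤ (S.z y) (S.pz m w) - S.pz m w := by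
      unfold pz
      rw [List.map_cons, List.prod_cons]
      rfl
    rw [h1, map_sub, lin_actV ρ hu, ih, pv_cons]

theorem lin_io {u : S.Cell → V} (b : Bool) (w : S.T →₀ ℤ) :
    lin u (S.io b w) = lin (fun l : S.T => u (l, b)) w := by
  induction w using Finsupp.induction_linear with
  | zero => simp only [map_zero]
  | add a c ha hc => rw [map_add, map_add, map_add, ha, hc]
  | single c r =>
    rw [io_single, lin, lin, Finsupp.linearCombination_single, Finsupp.linearCombination_single]

/-- Every twisted cocycle of the complex is a coboundary. -/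
theorem coh (hz : ∀ l ∈ S.A, ∀ x ∈ l, Function.Bijective fun v => ρ (S.z x) v - v) {n : ℕ}
    {u : S.Cell → V} (hu : ∀ (g : Γ) c, u (g • c) = ρ g (u c))
    (hc : ∀ c, S.cx.dim c = n + 1 → lin u (S.cx.bd c) = 0) :
    ∃ w : S.Cell → V, (∀ (g : Γ) c, w (g • c) = ρ g (w c)) ∧
      ∀ c, S.cx.dim c = n → u c = lin w (S.cx.bd c) := by
  classical
  have hbij : ∀ l : S.T, Function.Bijective (S.pv ρ l.1) := fun l => S.pv_bij ρ (hz l.1 l.2)
  have hex : ∀ l : S.T, ∃ v : V, S.pv ρ l.1 v = u (l, true) := fun l => (hbij l).2 _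
  choose w₀ hw₀ using hex
  have hw₀e : ∀ (g : Γ) (l : S.T), w₀ (g • l) = ρ g (w₀ l) := by
    intro g l
    apply (hbij (g • l)).1
    rw [hw₀]
    have h1 : S.pv ρ (g • l).1 (ρ g (w₀ l)) = ρ g (S.pv ρ l.1 (w₀ l)) := S.pv_smul ρ g l.1 _
    rw [h1, hw₀]
    exact hu g (l, true)
  have hu₀ : ∀ (g : Γ) (l : S.T), u (g • l, false) = ρ g (u (l, false)) := fun g l =>
    hu g ((l, false) : S.T × Bool)
  have hu₁ : ∀ (g : Γ) (l : S.T), u (g • l, true) = ρ g (u (l, true)) := fun g l =>
    hu g ((l, true) : S.T × Bool)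
  obtain ⟨w, hw⟩ : ∃ w : S.Cell → V, w = fun c => if c.2 = true then 0 else w₀ c.1 := ⟨_, rfl⟩
  have hwf : ∀ l : S.T, w (l, false) = w₀ l := fun l => by
    rw [hw]
    exact if_neg (by simp)
  have hwt : ∀ l : S.T, w (l, true) = 0 := fun l => by
    rw [hw]
    exact if_pos rfl
  have hlf : ∀ x : S.T →₀ ℤ, lin w (S.io false x) = lin w₀ x := by
    intro x
    rw [lin_io]
    exact lin_congr fun l _ => hwf l
  have hlt : ∀ x : S.T →₀ ℤ, lin w (S.io true x) = 0 := by
    intro x
    rw [lin_io]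
    have h1 : lin (fun l : S.T => w (l, true)) x = lin (fun _ : S.T => (0 : V)) x :=
      lin_congr fun l _ => hwt l
    rw [h1, lin, Finsupp.linearCombination_apply, Finsupp.sum]
    exact Finset.sum_eq_zero fun _ _ => smul_zero _
  refine ⟨w, ?_, ?_⟩
  · rintro g ⟨l, b⟩
    cases b
    · show w (g • l, false) = _
      rw [hwf, hwf, hw₀e]
    · show w (g • l, true) = _
      rw [hwt, hwt, map_zero]
  · rintro ⟨l, b⟩ hdim
    have hlen := S.length_pos l.2
    cases b
    · -- lists of length `n + 1`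
      have hd : l.1.length - 1 = n := hdim
      show u (l, false) = lin w (S.io false (S.bS l.1))
      rw [hlf]
      apply (hbij l).1
      have h1 : lin u (S.cx.bd ((l, true) : S.T × Bool)) = 0 := hc _ (by
        show l.1.length = n + 1
        omega)
      have h2 : lin u (S.cx.bd ((l, true) : S.T × Bool)) =
          lin u (S.io false (S.tS l.1)) - lin u (S.io true (S.bZ l.1)) := map_sub _ _ _
      rw [h2, sub_eq_zero, lin_io, lin_io, tS, S.lin_pz ρ hu₀, S.sg_of_mem l.2, lin_single] at h1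
      rw [h1]
      unfold bZ bS
      rw [map_sum, map_sum, map_sum]
      refine Finset.sum_congr rfl fun i hi => ?_
      have hi' := Finset.mem_range.1 hi
      rw [map_smul, map_smul, map_zsmul, map_sub, lin_actV ρ hu₁]
      congr 1
      have h3 : lin (fun l : S.T => u (l, true)) (S.sg (l.1.eraseIdx i)) =
          S.pv ρ (l.1.eraseIdx i) (lin w₀ (S.sg (l.1.eraseIdx i))) := by
        by_cases hA : l.1.eraseIdx i ∈ S.A
        · rw [S.sg_of_mem hA, lin_single, lin_single]
          exact (hw₀ ⟨_, hA⟩).symm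
        · rw [S.sg_of_not hA, map_zero, map_zero, map_zero]
      rw [h3]
      exact S.pv_erase ρ l.2 hi' _
    · -- lists of length `n`
      show u (l, true) = lin w (S.io false (S.tS l.1) - S.io true (S.bZ l.1))
      rw [map_sub, hlf, hlt, sub_zero, tS, S.lin_pz ρ hw₀e, S.sg_of_mem l.2, lin_single, hw₀]

end LS

end

section

variable {Γ Y : Type} [Group Γ] [MetricSpace Y] [MulAction Γ Y] [MeasurableSpace Y] [BorelSpace Y]
  {μ : Measure Y} {a : ℝ}

/-- If every compact set can be homotoped to leave every compact set then the cohomology of `Γ` with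
coefficients on which the small elements act without fixed vectors and co-vectors vanishes. -/
theorem coh_of_leave (h : FinVol Γ Y μ) (hY : BNC a Y) [Nonempty Y] {ε : ℝ} (hε : 0 < ε)
    {C D : Type} [MulAction Γ C] [MulAction Γ D] {X : Cx ℤ C} (hX : IsCx Γ X) (hA : Acy X)
    (hfin : Finite (Orb Γ C)) {B : Cx ℤ D} (hB : IsCx Γ B) (hAB : Acy B)
    (hall : ∀ K : Set (Quo Γ Y), IsCompact K → CanLeave K) {V : Type} [AddCommGroup V]
    (ρ : Γ →* AddMonoid.End V)
    (hz : ∀ z : Γ, IsSmall Y ε z → Function.Bijective fun v => ρ z v - v) {n : ℕ} {u : D → V}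
    (hu : ∀ (g : Γ) c, u (g • c) = ρ g (u c)) (hc : ∀ c, B.dim c = n + 1 → lin u (B.bd c) = 0) :
    ∃ w : D → V, (∀ (g : Γ) c, w (g • c) = ρ g (w c)) ∧
      ∀ c, B.dim c = n → u c = lin w (B.bd c) := by
  obtain ⟨S, J, hJ, hsmall, hfinS, φ, hφ⟩ := exists_LS h hY hε hX hfin hall
  obtain ⟨α, hα⟩ := exists_map hB hX hA (n + 1)
  obtain ⟨β, hβ⟩ := exists_map S.isCx hB hAB (n + 1)
  have hψ := hα.comp (hφ (n + 1))
  obtain ⟨ψ, hψdef⟩ : ∃ ψ : D → (S.Cell →₀ ℤ), ψ = fun c => lin φ (α c) := ⟨_, rfl⟩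
  rw [← hψdef] at hψ
  obtain ⟨H, hH1, hH2, hH3⟩ := exists_homotopy hB hB hAB (isMap_id (n + 1)) (hψ.comp hβ)
    (n + 1) le_rfl
  -- the cocycle on the labelled list complex
  have hlinlin : ∀ {C' : Type} (f : C' → (D →₀ ℤ)) (x : C' →₀ ℤ),
      lin u (lin f x) = lin (fun c => lin u (f c)) x := fun f x => lin_lin f u x
  obtain ⟨G, hG1, hG2⟩ := S.coh ρ (fun l hl x hx => hz _ (hsmall l hl x hx)) (n := n)
    (u := fun c => lin u (β c)) (fun g c => by
      show lin u (β (g • c)) = ρ g (lin u (β c))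
      rw [hβ.equi, lin_actV ρ hu]) (fun c hcd => by
      rw [← hlinlin, ← hβ.bd c (by rw [hcd]), hlinlin]
      have h1 : lin (fun c => lin u (B.bd c)) (β c) = lin (fun _ => (0 : V)) (β c) := by
        apply lin_congr
        intro d hd
        refine hc d ?_
        rw [hβ.dim c d hd, hcd]
      rw [h1, lin, Finsupp.linearCombination_apply, Finsupp.sum]
      exact Finset.sum_eq_zero fun _ _ => smul_zero _)
  refine ⟨fun d => lin G (ψ d) + lin u (H d), ?_, ?_⟩
  · intro g d
    show lin G (ψ (g • d)) + lin u (H (g • d)) = ρ g (lin G (ψ d) + lin u (H d))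
    rw [hψ.equi, hH1, lin_actV ρ hG1, lin_actV ρ hu, map_add]
  · intro d hd
    have h1 := congrArg (lin u) (hH3 d (by omega))
    rw [map_add, map_sub, lin_single, hlinlin, hlinlin, hlinlin] at h1
    have h2 : lin (fun c => lin u (B.bd c)) (H d) = 0 := by
      have h3 : lin (fun c => lin u (B.bd c)) (H d) = lin (fun _ => (0 : V)) (H d) := by
        apply lin_congr
        intro e he
        refine hc e ?_
        rw [hH2 d e he, hd]
      rw [h3, lin, Finsupp.linearCombination_apply, Finsupp.sum]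
      exact Finset.sum_eq_zero fun _ _ => smul_zero _
    rw [h2, zero_add] at h1
    have h4 : lin (fun c => lin u (β c)) (ψ d) = lin (fun c => lin G (ψ c)) (B.bd d) := by
      have h5 : lin (fun c => lin u (β c)) (ψ d) = lin (fun c => lin G (S.cx.bd c)) (ψ d) := by
        apply lin_congr
        intro e he
        refine hG2 e ?_
        rw [hψ.dim d e he, hd]
      rw [h5, ← lin_lin, hψ.bd d (by omega), lin_lin]
    have h6 : lin (fun d => lin G (ψ d) + lin u (H d)) (B.bd d) =
        lin (fun c => lin G (ψ c)) (B.bd d) + lin (fun c => lin u (H c)) (B.bd d) := by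
      rw [lin, lin, lin, Finsupp.linearCombination_apply, Finsupp.linearCombination_apply,
        Finsupp.linearCombination_apply, ← Finsupp.sum_add]
      apply Finsupp.sum_congr
      intro c _
      rw [smul_add]
    rw [h6, ← h4, h1]
    abel

end

end ThickThin
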