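import Mathlib

/-!
# Thick-thin: acyclic simplicial complexes (definition for the statements)
-/

namespace ThickThin

/-- The boundary of a simplex, with the orientations given by the order of the vertices. It is
augmented: the boundary of a vertex is the empty simplex. -/
noncomputable def bdS {P : Type} [LinearOrder P] (σ : Finset P) : Finset P →₀ ℤ :=
  ∑ v ∈ σ, Finsupp.single (σ.erase v) ((-1 : ℤ) ^ (σ.filter (· < v)).card)

/-- The simplicial complex `X` (the set of its non-empty simplices) is acyclic over `ℤ`: it is not
empty, and every finite integral chain of `X` with boundary zero is the boundary of a finite integral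
chain of `X`. -/
structure AcyX {P : Type} [LinearOrder P] (X : Set (Finset P)) : Prop where
  nonempty : X.Nonempty
  bdry : ∀ z : Finset P →₀ ℤ, (∀ σ, z σ ≠ 0 → σ ∈ X) → Finsupp.linearCombination ℤ bdS z = 0 →
    ∃ w : Finset P →₀ ℤ, (∀ σ, w σ ≠ 0 → σ ∈ X) ∧ Finsupp.linearCombination ℤ bdS w = z

end ThickThin
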