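import Mathlib
import Pool.Agent.Lib_MP_9dbe3a.ACone
import Pool.Agent.Lib_MP_394d50_cub.EFil

/-!
# Thick-thin, algebra: the cone has no harmonic chains
-/

namespace ThickThin

open SingerVS SingerCub

/-- The cell complex of a complex over `ℤ`. -/
def toCell {C : Type} (X : Cx ℤ C) : CellCx C := ⟨X.dim, fun p q => X.bd q p⟩

theorem fc_of_isCx {Γ C : Type} [Group Γ] [MulAction Γ C] {X : Cx ℤ C} (hX : IsCx Γ X)
    (hfin : Finite (Orb Γ C)) : FC Γ (toCell X) where
  dim_smul := hX.dim_smul
  inc_smul h p q := by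
    show X.bd (h • q) (h • p) = X.bd q p
    rw [hX.bd_smul, act_smul_apply]
  inc_dim p q h := hX.bd_dim q p h
  faces q := by
    refine (X.bd q).hasFiniteSupport.subset fun p hp => ?_
    exact hp
  cofaces p := by
    classical
    have hsub : {q | (toCell X).inc p q ≠ 0} ⊆ ⋃ o : Orb Γ C, ⋃ s ∈ (X.bd o.out).support,
        {q | ∃ h : Γ, q = h • o.out ∧ h • s = p} := by
      intro q hq
      have hq' : X.bd q p ≠ 0 := hq
      obtain ⟨h, o, rfl⟩ := exists_rep (H := Γ) q
      rw [hX.bd_smul, act_apply] at hq'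
      simp only [Set.mem_iUnion]
      refine ⟨o, h⁻¹ • p, Finsupp.mem_support_iff.2 hq', h, rfl, smul_inv_smul h p⟩
    refine Set.Finite.subset ?_ hsub
    refine Set.finite_iUnion fun o => ?_
    refine Set.Finite.biUnion (X.bd o.out).support.finite_toSet fun s _ => ?_
    apply Set.Subsingleton.finite
    rintro q ⟨h, rfl, hh⟩ q' ⟨h', rfl, hh'⟩
    have h1 : (h'⁻¹ * h) • s = s := by
      rw [mul_smul, hh, ← hh', inv_smul_smul]
    have h2 := inv_mul_eq_one.1 (hX.free _ _ h1)
    rw [h2]
  sq p r := by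
    have h1 := DFunLike.congr_fun (hX.bd_bd r) p
    rw [Finsupp.zero_apply, lin, Finsupp.linearCombination_apply, Finsupp.sum_apply] at h1
    have h2 : ∑ᶠ q, (toCell X).inc p q * (toCell X).inc q r =
        ∑ q ∈ (X.bd r).support, X.bd q p * X.bd r q := by
      apply finsum_eq_sum_of_support_subset
      intro q hq
      rw [Function.mem_support] at hq
      exact Finsupp.mem_support_iff.2 (right_ne_zero_of_mul hq)
    rw [h2, ← h1, Finsupp.sum]
    refine Finset.sum_congr rfl fun q _ => ?_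
    rw [Finsupp.smul_apply, smul_eq_mul, mul_comm]
  free := hX.free
  cofin := hfin

/-- The function tends to zero at infinity. -/
def C0 {C : Type} (u : C → ℝ) : Prop := ∀ ε > 0, {c | ε ≤ |u c|}.Finite

theorem c0_of_l2 {C : Type} (z : L2 C) : C0 (fun c => z c) := by
  intro ε hε
  have h1 : Summable fun c : C => ‖z c‖ ^ (2 : ENNReal).toReal :=
    (lp.memℓp z).summable (by norm_num)
  have h2 := h1.tendsto_cofinite_zero
  have h3 : ∀ᶠ c in Filter.cofinite, ‖z c‖ ^ (2 : ENNReal).toReal < ε ^ 2 :=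
    h2.eventually_lt_const (by positivity)
  refine Set.Finite.subset h3 fun c hc => ?_
  show ¬ (‖z c‖ ^ (2 : ENNReal).toReal < ε ^ 2)
  have hc' : ε ≤ |z c| := hc
  rw [show (2 : ENNReal).toReal = ((2 : ℕ) : ℝ) by norm_num, Real.rpow_natCast, not_lt,
    Real.norm_eq_abs]
  exact pow_le_pow_left₀ hε.le hc' 2

section

variable {Γ C : Type} [Group Γ] [MulAction Γ C]

/-- `(g - 1) u`. -/
def dE (g : Γ) (u : C → ℝ) (c : C) : ℝ := u (g • c) - u c

theorem C0.dE {u : C → ℝ} (hu : C0 u) (g : Γ) : C0 (ThickThin.dE g u) := by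
  intro ε hε
  have h1 : {c | ε ≤ |ThickThin.dE g u c|} ⊆
      (fun c => g • c) ⁻¹' {c | ε / 2 ≤ |u c|} ∪ {c | ε / 2 ≤ |u c|} := by
    intro c hc
    by_contra h
    rw [Set.mem_union, not_or] at h
    have h2 : |u (g • c)| < ε / 2 := not_le.1 h.1
    have h3 : |u c| < ε / 2 := not_le.1 h.2
    have h4 : ε ≤ |u (g • c) - u c| := hc
    have h5 := abs_sub (u (g • c)) (u c)
    linarith
  refine Set.Finite.subset ?_ h1
  exact ((hu (ε / 2) (by linarith)).preimage (MulAction.injective g).injOn).union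
    (hu (ε / 2) (by linarith))

/-- `g - 1` is injective on the functions which tend to zero if `g` has infinite order. -/
theorem dE_inj {g : Γ} (hfree : ∀ (g : Γ) (c : C), g • c = c → g = 1)
    (hg : ∀ n : ℕ, n ≠ 0 → g ^ n ≠ 1) {O : Set C} (hO : ∀ c ∈ O, g • c ∈ O) {u : C → ℝ}
    (hu : C0 u) (h : ∀ c ∈ O, dE g u c = 0) : ∀ c ∈ O, u c = 0 := by
  intro c hc
  by_contra hne
  have h1 : ∀ n : ℕ, g ^ n • c ∈ O ∧ u (g ^ n • c) = u c := by
    intro n
    induction n with
    | zero => rw [pow_zero, one_smul]; exact ⟨hc, rfl⟩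
    | succ n ih =>
      rw [pow_succ', mul_smul]
      refine ⟨hO _ ih.1, ?_⟩
      have h2 := h _ ih.1
      unfold dE at h2
      rw [← ih.2]
      linarith
  have h2 : Function.Injective fun n : ℕ => g ^ n • c := by
    have key : ∀ m n : ℕ, m < n → g ^ m • c ≠ g ^ n • c := by
      intro m n hmn h3
      have h4 : g ^ (n - m) • c = c := by
        have h5 : g ^ n = g ^ m * g ^ (n - m) := by
          rw [← pow_add]
          congr 1
          omega
        rw [h5, mul_smul] at h3
        exact (smul_left_cancel _ h3).symm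
      exact hg (n - m) (by omega) (hfree _ _ h4)
    intro m n hmn
    rcases lt_trichotomy m n with h3 | h3 | h3
    · exact absurd hmn (key m n h3)
    · exact h3
    · exact absurd hmn.symm (key n m h3)
  have h3 := hu |u c| (abs_pos.2 hne)
  have h4 : (Set.range fun n : ℕ => g ^ n • c) ⊆ {c' | |u c| ≤ |u c'|} := by
    rintro _ ⟨n, rfl⟩
    show |u c| ≤ |u (g ^ n • c)|
    rw [(h1 n).2]
  exact (Set.infinite_range_of_injective h2) (h3.subset h4)

/-- `∏ (g - 1) u`, the first element of the list acting first on the function. -/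
def eE : List Γ → (C → ℝ) → (C → ℝ)
  | [], u => u
  | g :: gs, u => eE gs (dE g u)

theorem eE_inj (hfree : ∀ (g : Γ) (c : C), g • c = c → g = 1) {gs : List Γ}
    (hg : ∀ g ∈ gs, ∀ n : ℕ, n ≠ 0 → g ^ n ≠ 1) {O : Set C} (hO : ∀ g ∈ gs, ∀ c ∈ O, g • c ∈ O)
    {u : C → ℝ} (hu : C0 u) (h : ∀ c ∈ O, eE gs u c = 0) : ∀ c ∈ O, u c = 0 := by
  induction gs generalizing u with
  | nil => exact h
  | cons g gs ih =>
    have h1 := ih (fun g' hg' => hg g' (List.mem_cons_of_mem _ hg'))
      (fun g' hg' => hO g' (List.mem_cons_of_mem _ hg')) (hu.dE g) h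
    exact dE_inj hfree (hg g List.mem_cons_self) (hO g List.mem_cons_self) hu h1

/-- `∏ (g⁻¹ - 1) u`, the first element of the list acting last. -/
def fE : List Γ → (C → ℝ) → (C → ℝ)
  | [], u => u
  | g :: gs, u => dE g⁻¹ (fE gs u)

theorem fE_c0 {gs : List Γ} {u : C → ℝ} (hu : C0 u) : C0 (fE gs u) := by
  induction gs with
  | nil => exact hu
  | cons g gs ih => exact ih.dE g⁻¹

theorem fE_inj (hfree : ∀ (g : Γ) (c : C), g • c = c → g = 1) {gs : List Γ}
    (hg : ∀ g ∈ gs, ∀ n : ℕ, n ≠ 0 → g ^ n ≠ 1) {O : Set C}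
    (hO : ∀ g ∈ gs, ∀ c ∈ O, g⁻¹ • c ∈ O)
    {u : C → ℝ} (hu : C0 u) (h : ∀ c ∈ O, fE gs u c = 0) : ∀ c ∈ O, u c = 0 := by
  induction gs with
  | nil => exact h
  | cons g gs ih =>
    refine ih (fun g' hg' => hg g' (List.mem_cons_of_mem _ hg'))
      (fun g' hg' => hO g' (List.mem_cons_of_mem _ hg')) ?_
    refine dE_inj (g := g⁻¹) hfree ?_ (hO g List.mem_cons_self) (fE_c0 hu) h
    intro n hn h1
    apply hg g List.mem_cons_self n hn
    rw [inv_pow, inv_eq_one] at h1
    exact h1

/-- The pairing of a function and a chain. -/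
noncomputable def pr (u : C → ℝ) (w : C →₀ ℤ) : ℝ := lin (R := ℤ) u w

theorem pr_act (g : Γ) (u : C → ℝ) (w : C →₀ ℤ) :
    pr u (act ℤ g w) = pr (fun c => u (g • c)) w := by
  unfold pr
  induction w using Finsupp.induction_linear with
  | zero => simp only [map_zero]
  | add a b ha hb => rw [map_add, map_add, map_add, ha, hb]
  | single c r =>
    rw [act_single, lin, lin, Finsupp.linearCombination_single, Finsupp.linearCombination_single]

theorem pr_dE (g : Γ) (u : C → ℝ) (w : C →₀ ℤ) : pr u (act ℤ g w - w) = pr (dE g u) w := by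
  have h1 : pr u (act ℤ g w - w) = pr u (act ℤ g w) - pr u w := by
    unfold pr
    rw [map_sub]
  rw [h1, pr_act]
  unfold pr
  rw [lin, lin, lin, Finsupp.linearCombination_apply, Finsupp.linearCombination_apply,
    Finsupp.linearCombination_apply, ← Finsupp.sum_sub]
  apply Finsupp.sum_congr
  intro c _
  rw [← smul_sub]
  rfl

theorem pr_sum (u : C → ℝ) (w : C →₀ ℤ) : pr u w = ∑ c ∈ w.support, (w c : ℝ) * u c := by
  unfold pr
  rw [lin, Finsupp.linearCombination_apply, Finsupp.sum]
  refine Finset.sum_congr rfl fun c _ => ?_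
  rw [zsmul_eq_mul]

theorem pr_finsum (u : C → ℝ) (w : C →₀ ℤ) : pr u w = ∑ᶠ c, (w c : ℝ) * u c := by
  rw [pr_sum]
  symm
  apply finsum_eq_sum_of_support_subset
  intro c hc
  rw [Function.mem_support] at hc
  have h1 := left_ne_zero_of_mul hc
  exact Finsupp.mem_support_iff.2 (fun h => h1 (by rw [h, Int.cast_zero]))

end

namespace LS

variable {Γ V : Type} [Group Γ] [MulAction Γ V] (S : LS Γ V)

/-- The product of the `g - 1`. -/
noncomputable def pg : List Γ → (S.T →₀ ℤ) → (S.T →₀ ℤ)
  | [], w => w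
  | g :: gs, w => act ℤ g (pg gs w) - pg gs w

theorem pz_eq (l : List V) (w : S.T →₀ ℤ) : S.pz l w = S.pg (l.map S.z) w := by
  induction l with
  | nil => rfl
  | cons x l ih =>
    have h1 : S.pz (x :: l) w = act ℤ (S.z x) (S.pz l w) - S.pz l w := by
      unfold pz
      rw [List.map_cons, List.prod_cons]
      rfl
    rw [h1, List.map_cons, pg, ih]

theorem pr_pg (gs : List Γ) (u : S.T → ℝ) (w : S.T →₀ ℤ) : pr u (S.pg gs w) = pr (eE gs u) w := by
  induction gs generalizing u with
  | nil => rfl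
  | cons g gs ih => rw [pg, pr_dE, ih, eE]

/-- The labels. -/
def lab (m : S.T) : List Γ := m.1.map S.z

theorem lab_smul {g : Γ} {m : S.T} (h : ∀ x ∈ S.lab m, Commute g x) : S.lab (g • m) = S.lab m := by
  unfold lab at *
  rw [smul_val, List.map_map]
  apply List.map_congr_left
  intro x hx
  show S.z (g • x) = S.z x
  rw [S.zc]
  have h1 := h (S.z x) (List.mem_map_of_mem hx)
  rw [h1.eq, mul_inv_cancel_right]

theorem lab_comm (m : S.T) : ∀ x ∈ S.lab m, ∀ y ∈ S.lab m, Commute x y := by
  intro x hx y hy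
  obtain ⟨v, hv, rfl⟩ := List.mem_map.1 hx
  obtain ⟨w, hw, rfl⟩ := List.mem_map.1 hy
  exact S.comm m.1 m.2 v hv w hw

/-- A translate with prescribed labels. -/
theorem lab_smul_iff {m₀ m : S.T} {g : Γ} (hg : g ∈ S.lab m₀ ∨ g⁻¹ ∈ S.lab m₀) :
    S.lab (g • m) = S.lab m₀ ↔ S.lab m = S.lab m₀ := by
  have hc : ∀ x ∈ S.lab m₀, Commute g x := by
    intro x hx
    rcases hg with hg | hg
    · exact S.lab_comm m₀ g hg x hx
    · have := S.lab_comm m₀ _ hg x hx
      exact Commute.inv_left_iff.1 this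
  constructor
  · intro h
    have h1 : S.lab (g⁻¹ • g • m) = S.lab (g • m) := by
      apply S.lab_smul
      rw [h]
      intro x hx
      exact (hc x hx).inv_left
    rwa [inv_smul_smul, h] at h1
  · intro h
    rw [S.lab_smul, h]
    rw [h]
    exact hc

/-- The coefficient of `tS l` at a list with the same labels. -/
theorem pg_supp {m₀ : S.T} {gs : List Γ} (hgs : ∀ g ∈ gs, g ∈ S.lab m₀) {w : S.T →₀ ℤ}
    (hw : ∀ m, w m ≠ 0 → S.lab m ≠ S.lab m₀) : ∀ m, S.pg gs w m ≠ 0 → S.lab m ≠ S.lab m₀ := by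
  induction gs with
  | nil => exact hw
  | cons g gs ih =>
    intro m hm
    have ih' := ih fun g' hg' => hgs g' (List.mem_cons_of_mem _ hg')
    have hm' : (act ℤ g (S.pg gs w) - S.pg gs w) m ≠ 0 := hm
    rw [Finsupp.sub_apply, act_apply] at hm'
    by_cases h1 : S.pg gs w m = 0
    · rw [h1, sub_zero] at hm'
      have h2 := ih' _ hm'
      intro h3
      apply h2
      rw [S.lab_smul_iff (Or.inr (by rw [inv_inv]; exact hgs g List.mem_cons_self))]
      exact h3
    · exact ih' _ h1

theorem pg_supp' {m₀ : S.T} {gs : List Γ} (hgs : ∀ g ∈ gs, g ∈ S.lab m₀) {w : S.T →₀ ℤ}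
    (hw : ∀ m, w m ≠ 0 → S.lab m = S.lab m₀) : ∀ m, S.pg gs w m ≠ 0 → S.lab m = S.lab m₀ := by
  induction gs with
  | nil => exact hw
  | cons g gs ih =>
    intro m hm
    have ih' := ih fun g' hg' => hgs g' (List.mem_cons_of_mem _ hg')
    have hm' : (act ℤ g (S.pg gs w) - S.pg gs w) m ≠ 0 := hm
    rw [Finsupp.sub_apply, act_apply] at hm'
    by_cases h1 : S.pg gs w m = 0
    · rw [h1, sub_zero] at hm'
      have h2 := ih' _ hm'
      rwa [S.lab_smul_iff (Or.inr (by rw [inv_inv]; exact hgs g List.mem_cons_self))] at h2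
    · exact ih' _ h1

theorem tS_eq (l : S.T) : S.tS l.1 = S.pg (S.lab l) (Finsupp.single l 1) := by
  unfold tS
  rw [pz_eq, S.sg_of_mem l.2]
  rfl

theorem tS_coeff (m l : S.T) : S.tS l.1 m = S.pg (S.lab m) (Finsupp.single l 1) m := by
  classical
  by_cases h : S.lab l = S.lab m
  · rw [tS_eq, h]
  · have h1 : S.tS l.1 m = 0 := by
      by_contra h1
      rw [tS_eq] at h1
      have h2 := S.pg_supp' (m₀ := l) (gs := S.lab l) (fun g hg => hg)
        (w := Finsupp.single l 1) (by
          intro m' hm'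
          rw [Finsupp.single_apply] at hm'
          split_ifs at hm' with h3
          · rw [h3]
          · exact absurd rfl hm') m h1
      exact h h2.symm
    have h2 : S.pg (S.lab m) (Finsupp.single l 1) m = 0 := by
      by_contra h2
      exact S.pg_supp (m₀ := m) (gs := S.lab m) (fun g hg => hg)
        (w := Finsupp.single l 1) (by
          intro m' hm'
          rw [Finsupp.single_apply] at hm'
          split_ifs at hm' with h3
          · rw [← h3]
            exact h
          · exact absurd rfl hm') m h2 rfl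
    rw [h1, h2]

/-- Finiteness of the columns. -/
theorem pg_col (gs : List Γ) (m : S.T) :
    {l : S.T | S.pg gs (Finsupp.single l 1) m ≠ 0}.Finite := by
  classical
  induction gs generalizing m with
  | nil =>
    refine (Set.finite_singleton m).subset fun l hl => ?_
    have hl' : (Finsupp.single l (1 : ℤ)) m ≠ 0 := hl
    rw [Finsupp.single_apply] at hl'
    split_ifs at hl' with h
    · exact h
    · exact absurd rfl hl'
  | cons g gs ih =>
    refine ((ih (g⁻¹ • m)).union (ih m)).subset fun l hl => ?_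
    have hl' : (act ℤ g (S.pg gs (Finsupp.single l 1)) - S.pg gs (Finsupp.single l 1)) m ≠ 0 := hl
    rw [Finsupp.sub_apply, act_apply] at hl'
    by_contra h
    rw [Set.mem_union, not_or] at h
    have h1 : S.pg gs (Finsupp.single l 1) (g⁻¹ • m) = 0 := not_not.1 h.1
    have h2 : S.pg gs (Finsupp.single l 1) m = 0 := not_not.1 h.2
    rw [h1, h2, sub_zero] at hl'
    exact hl' rfl

theorem pg_finsum (gs : List Γ) (u : S.T → ℝ) (m : S.T) :
    ∑ᶠ l, (S.pg gs (Finsupp.single l 1) m : ℝ) * u l = fE gs u m := by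
  classical
  induction gs generalizing m with
  | nil =>
    rw [finsum_eq_single _ m]
    · show ((Finsupp.single m (1 : ℤ)) m : ℝ) * u m = u m
      rw [Finsupp.single_eq_same, Int.cast_one, one_mul]
    · intro l hl
      show ((Finsupp.single l (1 : ℤ)) m : ℝ) * u l = 0
      rw [Finsupp.single_eq_of_ne (fun h => hl h.symm), Int.cast_zero, zero_mul]
  | cons g gs ih =>
    have h1 : ∀ l : S.T, (S.pg (g :: gs) (Finsupp.single l 1) m : ℝ) * u l =
        (S.pg gs (Finsupp.single l 1) (g⁻¹ • m) : ℝ) * u l -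
          (S.pg gs (Finsupp.single l 1) m : ℝ) * u l := by
      intro l
      have h2 : S.pg (g :: gs) (Finsupp.single l 1) m =
          S.pg gs (Finsupp.single l 1) (g⁻¹ • m) - S.pg gs (Finsupp.single l 1) m := by
        rw [pg, Finsupp.sub_apply, act_apply]
      rw [h2, Int.cast_sub, sub_mul]
    rw [finsum_congr h1, finsum_sub_distrib, ih, ih]
    · rfl
    · refine (S.pg_col gs (g⁻¹ • m)).subset fun l hl => ?_
      rw [Function.mem_support] at hl
      intro h
      exact hl (by rw [h, Int.cast_zero, zero_mul])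
    · refine (S.pg_col gs m).subset fun l hl => ?_
      rw [Function.mem_support] at hl
      intro h
      exact hl (by rw [h, Int.cast_zero, zero_mul])

end LS

end ThickThin
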