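import Mathlib
import Pool.Agent.Lib_MP_9dbe3a.ABase
import Pool.Agent.Lib_MP_394d50_cub.AInv

/-!
# Thick-thin: an invariant choice of orientations, with the orientation `+` on the vertices

The proof is that of `SingerCub.exists_inv`.
-/

namespace ThickThin

open SingerVS SingerCub
open scoped Pointwise

theorem exists_inv' {Γ P : Type} [Group Γ] [LinearOrder P] [MulAction Γ P] {X : Set (Finset P)}
    (hX : FreeCx Γ X) : ∃ (I : CellCx (SX X)) (s : SX X → ℤ), (∀ c, s c = 1 ∨ s c = -1) ∧
      (∀ c : SX X, c.1.card = 1 → s c = 1) ∧ SI X I ∧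
      (∀ c, I.dim c = (simpCx X (fun x y : P => x < y)).dim c) ∧
      (∀ p q, I.inc p q = s p * s q * (simpCx X (fun x y : P => x < y)).inc p q) ∧
      (letI := sxAct (K := Γ) hX.inv; FreeCell Γ I) := by
  let inst := sxAct (K := Γ) hX.inv
  obtain ⟨G, hG⟩ := exists_G hX
  have hlt : ∀ σ : Finset P, TotOn (fun x y : P => x < y) σ := totOn_lt
  have hcomp : ∀ (g : Γ) (σ : Finset P), TotOn (fun x y : P => g • x < g • y) σ := fun g σ =>
    (hlt (g • σ)).comp (MulAction.injective g) (fun x hx => Finset.smul_mem_smul_finset hx)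
  let s : SX X → ℤ := fun c =>
    sgnN (fun x y : P => x < y) (fun x y : P => (G c)⁻¹ • x < (G c)⁻¹ • y) c.1
  have hs : ∀ c, s c = 1 ∨ s c = -1 := fun c => sgnN_pm _ _ _
  have hss : ∀ c, s c * s c = 1 := fun c => by
    rcases hs c with h | h <;> rw [h] <;> norm_num
  have hs0 : ∀ c, s c ≠ 0 := fun c h => by
    have := hss c
    rw [h, mul_zero] at this
    exact absurd this (by norm_num)
  let I : CellCx (SX X) := ⟨fun c => c.1.card - 1, fun p q =>
    s p * s q * simpInc (fun x y : P => x < y) p.1 q.1⟩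
  have hI : ∀ p q, I.inc p q = s p * s q * simpInc (fun x y : P => x < y) p.1 q.1 :=
    fun _ _ => rfl
  have hsm : ∀ (h : Γ) (c : SX X), (h • c).1 = h • c.1 := fun _ _ => rfl
  -- invariance of the signs
  have key : ∀ (h : Γ) (c : SX X),
      s (h • c) * sgnN (fun x y : P => x < y) (fun x y : P => h • x < h • y) c.1 = s c := by
    intro h c
    have e1 : s (h • c) = sgnN (fun x y : P => h • x < h • y)
        (fun x y : P => (G c)⁻¹ • x < (G c)⁻¹ • y) c.1 := by
      show (-1 : ℤ) ^ invN (fun x y : P => x < y)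
        (fun x y : P => (G (h • c))⁻¹ • x < (G (h • c))⁻¹ • y) (h • c.1) =
        (-1 : ℤ) ^ invN (fun x y : P => h • x < h • y)
        (fun x y : P => (G c)⁻¹ • x < (G c)⁻¹ • y) c.1
      rw [invN_smul]
      have e2 : ∀ x : P, (G (h • c))⁻¹ • h • x = (G c)⁻¹ • x := by
        intro x
        rw [hG, mul_inv_rev, mul_smul, inv_smul_smul]
      unfold invN
      simp only [e2]
    have e3 := sgnN_cocycle (r₁ := fun x y : P => x < y) (r₂ := fun x y : P => h • x < h • y)
      (r₃ := fun x y : P => (G c)⁻¹ • x < (G c)⁻¹ • y) (hlt c.1) (hcomp h c.1)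
      (hcomp (G c)⁻¹ c.1)
    rw [e1, mul_comm]
    exact e3.symm
  have hinv : ∀ (h : Γ) (p q : SX X), I.inc (h • p) (h • q) = I.inc p q := by
    intro h p q
    rw [hI, hI, hsm, hsm, simpInc_smul',
      simpInc_change (hlt q.1) (hcomp h q.1) p.1, ← key h p, ← key h q]
    ring
  have hfac : ∀ σ τ : SX X, I.inc σ τ ≠ 0 ↔ ∃ v ∈ τ.1, σ.1 = τ.1.erase v := by
    intro σ τ
    rw [hI]
    constructor
    · intro h
      exact simpInc_ne (right_ne_zero_of_mul h)
    · rintro ⟨v, hv, e⟩
      refine mul_ne_zero (mul_ne_zero (hs0 _) (hs0 _)) ?_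
      rw [e, simpInc_erase _ hv]
      exact pow_ne_zero _ (by norm_num)
  have habs : ∀ p q : SX X, |I.inc p q| ≤ 1 := by
    intro p q
    rw [hI, abs_mul, abs_mul]
    have h1 : ∀ c, |s c| = 1 := fun c => by
      rcases hs c with h | h <;> rw [h] <;> norm_num
    rw [h1, h1, one_mul, one_mul]
    exact abs_simpInc_le _ _ _
  have hsq : ∀ p r : SX X, ∑ᶠ q, I.inc p q * I.inc q r = 0 := by
    intro p r
    have e1 : (fun q => I.inc p q * I.inc q r) = fun q => (s p * s r) •
        (simpInc (fun x y : P => x < y) p.1 q.1 * simpInc (fun x y : P => x < y) q.1 r.1) := by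
      funext q
      rw [hI, hI, smul_eq_mul]
      have := hss q
      linear_combination (s p * s r * simpInc (fun x y : P => x < y) p.1 q.1 *
        simpInc (fun x y : P => x < y) q.1 r.1) * this
    rw [e1, ← smul_finsum, simpInc_finsum_sq hX.ne hX.down (fun σ _ => hlt σ) p r, smul_zero]
  have hs1 : ∀ c : SX X, c.1.card = 1 → s c = 1 := by
    intro c hc
    obtain ⟨a, ha⟩ := Finset.card_eq_one.mp hc
    show (-1 : ℤ) ^ invN (fun x y : P => x < y)
        (fun x y : P => (G c)⁻¹ • x < (G c)⁻¹ • y) c.1 = 1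
    have e1 : invN (fun x y : P => x < y)
        (fun x y : P => (G c)⁻¹ • x < (G c)⁻¹ • y) c.1 = 0 := by
      rw [ha]
      unfold invN
      rw [Finset.sum_singleton, Finset.sum_singleton, if_neg (fun h => lt_irrefl a h.1)]
    rw [e1, pow_zero]
  refine ⟨I, s, hs, hs1, ⟨fun _ => rfl, hfac, fun σ τ => ?_, ?_, hsq⟩, fun _ => rfl, fun _ _ => rfl,
    ⟨?_, hinv, ?_, habs, ?_, ?_, hsq, ?_, ?_⟩⟩
  · have h1 := habs σ τ
    rw [Int.abs_le_one_iff] at h1
    exact h1
  · intro v w e hvw hv hw he hve hwe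
    obtain ⟨a, ha⟩ := Finset.card_eq_one.mp hv
    obtain ⟨b, hb⟩ := Finset.card_eq_one.mp hw
    have hab : a ≠ b := by
      rintro rfl
      exact hvw (Subtype.ext (ha.trans hb.symm))
    have hae : a ∈ e.1 := hve (by rw [ha]; exact Finset.mem_singleton_self a)
    have hbe : b ∈ e.1 := hwe (by rw [hb]; exact Finset.mem_singleton_self b)
    have hee : e.1 = {a, b} := by
      symm
      refine Finset.eq_of_subset_of_card_le ?_ ?_
      · intro x hx
        rw [Finset.mem_insert, Finset.mem_singleton] at hx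
        rcases hx with rfl | rfl
        · exact hae
        · exact hbe
      · rw [he, Finset.card_pair hab]
    have e1 : v.1 = e.1.erase b := by
      rw [ha, hee, Finset.pair_comm, Finset.erase_insert]
      rw [Finset.mem_singleton]
      exact hab.symm
    have e2 : w.1 = e.1.erase a := by
      rw [hb, hee, Finset.erase_insert]
      rw [Finset.mem_singleton]
      exact hab
    have p1 : posR (fun x y : P => x < y) e.1 b = if a < b then 1 else 0 := by
      rw [posR_erase _ hae, ← e2, hb]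
      have : posR (fun x y : P => x < y) {b} b = 0 := posR_singleton (lt_irrefl b)
      rw [this, zero_add]
    have p2 : posR (fun x y : P => x < y) e.1 a = if b < a then 1 else 0 := by
      rw [posR_erase _ hbe, ← e1, ha]
      have : posR (fun x y : P => x < y) {a} a = 0 := posR_singleton (lt_irrefl a)
      rw [this, zero_add]
    rw [hI, hI, hs1 v hv, hs1 w hw, e1, e2, simpInc_erase _ hbe, simpInc_erase _ hae, p1, p2]
    rcases lt_or_gt_of_ne hab with h | h
    · rw [if_pos h, if_neg (not_lt.mpr h.le)]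
      ring
    · rw [if_neg (not_lt.mpr h.le), if_pos h]
      ring
  · intro h c
    show (h • c).1.card - 1 = c.1.card - 1
    rw [hsm, card_smul]
  · intro p q h
    obtain ⟨v, hv, e⟩ := (hfac p q).1 h
    show q.1.card - 1 = p.1.card - 1 + 1
    have h1 := Finset.card_pos.mpr (hX.ne _ p.2)
    have h2 : p.1.card = q.1.card - 1 := by rw [e, Finset.card_erase_of_mem hv]
    omega
  · intro q
    refine Set.Finite.of_finite_image (f := Subtype.val) ?_ Subtype.val_injective.injOn
    refine (q.1.image (fun v => q.1.erase v)).finite_toSet.subset ?_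
    rintro _ ⟨p, hp, rfl⟩
    obtain ⟨v, hv, e⟩ := (hfac p q).1 hp
    exact Finset.mem_coe.mpr (Finset.mem_image.mpr ⟨v, hv, e.symm⟩)
  · intro p
    refine Set.Finite.of_finite_image (f := Subtype.val) ?_ Subtype.val_injective.injOn
    refine (hX.cof_finite p.2).subset ?_
    rintro _ ⟨q, hq, rfl⟩
    obtain ⟨v, hv, e⟩ := (hfac p q).1 hq
    exact ⟨q.2, by rw [e]; exact Finset.erase_subset v q.1⟩
  · intro h c e
    refine hX.free h c.1 c.2 ?_
    rw [← hsm, e]
  · obtain ⟨R, hR, hR'⟩ := hX.fin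
    have hfin : Finite {r // r ∈ R} := inferInstance
    refine Finite.of_surjective (fun z : {r // r ∈ R} =>
      (Quotient.mk'' ⟨z.1, hR z.1 z.2⟩ : MulAction.orbitRel.Quotient Γ (SX X))) ?_
    intro o
    induction o using Quotient.inductionOn' with
    | h c =>
      obtain ⟨h, z, hz, e⟩ := hR' c.1 c.2
      refine ⟨⟨z, hz⟩, ?_⟩
      refine (Quotient.sound' ?_ : Quotient.mk'' c = Quotient.mk'' _).symm
      refine ⟨h, ?_⟩
      apply Subtype.ext
      show (h • (⟨z, hR z hz⟩ : SX X)).1 = c.1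
      rw [hsm, e]

end ThickThin
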