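import Mathlib
import Pool.Agent.Lib_MP_9dbe3a.ADefs
import Pool.Agent.Lib_MP_9dbe3a.AOri
import Pool.Agent.Lib_MP_9dbe3a.ANh
import Pool.Agent.Lib_MP_9dbe3a.ASd

/-!
# Thick-thin, algebra: the chain complex of a simplicial complex with a free action
-/

namespace ThickThin

open SingerVS SingerCub
open scoped Pointwise

section

variable {Γ C : Type} [Group Γ] [MulAction Γ C]

/-- The part of a chain in one dimension. -/
theorem exists_inDim {X : Cx ℤ C} (hX : IsCx Γ X) {k : ℕ} {u w : C →₀ ℤ} (hu : InDim X k u)
    (hw : lin X.bd w = u) : ∃ w', InDim X (k + 1) w' ∧ lin X.bd w' = u := by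
  classical
  refine ⟨w.filter (fun c => X.dim c = k + 1), ?_, ?_⟩
  · intro c hc
    by_contra h
    exact hc (Finsupp.filter_apply_neg _ _ h)
  · have h1 : w.filter (fun c => X.dim c = k + 1) + w.filter (fun c => ¬ X.dim c = k + 1) = w :=
      Finsupp.filter_add_filter_not _ _
    have h2 : InDim X k (lin X.bd (w.filter (fun c => X.dim c = k + 1))) := by
      apply InDim.lin (X := X) (Y := X) (k := k + 1) (l := k)
      · intro c hc
        exact hX.bd_inDim hc
      · intro c hc
        by_contra h
        exact hc (Finsupp.filter_apply_neg _ _ h)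
    have h3 : ∀ p, X.dim p = k → lin X.bd (w.filter (fun c => ¬ X.dim c = k + 1)) p = 0 := by
      intro p hp
      rw [lin, Finsupp.linearCombination_apply, Finsupp.sum, Finsupp.finsetSum_apply]
      refine Finset.sum_eq_zero fun c hc => ?_
      have hc' := Finsupp.mem_support_iff.1 hc
      rw [Finsupp.smul_apply]
      by_cases h0 : X.bd c p = 0
      · rw [h0, smul_zero]
      · exfalso
        apply hc'
        apply Finsupp.filter_apply_neg
        rw [not_not, hX.bd_dim c p h0, hp]
    ext p
    by_cases hp : X.dim p = k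
    · rw [← hw]
      conv_rhs => rw [← h1]
      rw [map_add, Finsupp.add_apply, h3 p hp, add_zero]
    · have h4 : u p = 0 := by
        by_contra h
        exact hp (hu p h)
      rw [h4]
      by_contra h
      exact hp (h2 p h)

end

section

variable {Γ P : Type} [Group Γ] [LinearOrder P] [MulAction Γ P] {X : Set (Finset P)}

open scoped Classical in
/-- The chain complex of the simplices of `X`. -/
noncomputable def sCx (I : CellCx (SX X)) (hf : ∀ q, {p | I.inc p q ≠ 0}.Finite) :
    Cx ℤ (SX X) where
  dim := I.dim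
  bd q := Finsupp.ofSupportFinite (fun p => I.inc p q) (hf q)
  eps c := if c.1.card = 1 then 1 else 0

theorem toCell_sCx (I : CellCx (SX X)) (hf : ∀ q, {p | I.inc p q ≠ 0}.Finite) :
    toCell (sCx I hf) = I := rfl

theorem sCx_bd (I : CellCx (SX X)) (hf : ∀ q, {p | I.inc p q ≠ 0}.Finite) (q p : SX X) :
    (sCx I hf).bd q p = I.inc p q := rfl

open scoped Classical in
theorem sCx_eps (I : CellCx (SX X)) (hf : ∀ q, {p | I.inc p q ≠ 0}.Finite) (c : SX X) :
    (sCx I hf).eps c = if c.1.card = 1 then 1 else 0 := rfl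

theorem sCx_isCx [MulAction Γ (SX X)] (hX : FreeCx Γ X)
    (hsm : ∀ (g : Γ) (c : SX X), (g • c).1 = g • c.1) {I : CellCx (SX X)} (hSI : SI X I)
    (hF : FreeCell Γ I) : IsCx Γ (sCx I hF.faces) where
  dim_smul := hF.dim_smul
  bd_smul g c := by
    ext p
    rw [act_apply, sCx_bd, sCx_bd, ← hF.inc_smul g (g⁻¹ • p) c, smul_inv_smul]
  eps_smul g c := by
    show (if (g • c).1.card = 1 then (1 : ℤ) else 0) = if c.1.card = 1 then 1 else 0
    rw [hsm, Finset.card_smul_finset]
  bd_dim c p h := hF.inc_dim p c h
  bd_bd c := by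
    ext p
    rw [lin, Finsupp.linearCombination_apply, Finsupp.sum_apply, Finsupp.zero_apply,
      ← hF.sq p c, Finsupp.sum,
      finsum_eq_sum_of_support_subset (s := ((sCx I hF.faces).bd c).support)]
    · refine Finset.sum_congr rfl fun q _ => ?_
      rw [Finsupp.smul_apply, sCx_bd, sCx_bd, smul_eq_mul, mul_comm]
    · intro q hq
      rw [Function.mem_support] at hq
      exact Finsupp.mem_support_iff.2 (right_ne_zero_of_mul hq)
  eps_bd c := by
    classical
    by_cases hc : c.1.card = 2
    · obtain ⟨a, b, hab, hc'⟩ := Finset.card_eq_two.1 hc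
      have ha : ({a} : Finset P) ∈ X := hX.down c.1 c.2 _ (by rw [hc']; simp) (by simp)
      have hb : ({b} : Finset P) ∈ X := hX.down c.1 c.2 _ (by rw [hc']; simp) (by simp)
      have hne : (⟨{a}, ha⟩ : SX X) ≠ ⟨{b}, hb⟩ := fun e => hab (by simpa using e)
      have h1 := hSI.edge ⟨{a}, ha⟩ ⟨{b}, hb⟩ c hne (Finset.card_singleton a)
        (Finset.card_singleton b) hc (by rw [hc']; simp) (by rw [hc']; simp)
      rw [← h1, lin, Finsupp.linearCombination_apply, Finsupp.sum]
      have h2 : ((sCx I hF.faces).bd c).support ⊆ {⟨{a}, ha⟩, ⟨{b}, hb⟩} := by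
        intro p hp
        have hp' : I.inc p c ≠ 0 := Finsupp.mem_support_iff.1 hp
        obtain ⟨v, hv, e⟩ := (hSI.fac p c).1 hp'
        rw [hc', Finset.mem_insert, Finset.mem_singleton] at hv
        rw [Finset.mem_insert, Finset.mem_singleton]
        rcases hv with rfl | rfl
        · right
          apply Subtype.ext
          rw [e, hc', Finset.erase_insert (by simpa using hab)]
        · left
          apply Subtype.ext
          rw [e, hc', Finset.pair_comm, Finset.erase_insert (by simpa using hab.symm)]
      rw [Finset.sum_subset h2, Finset.sum_pair hne, sCx_bd, sCx_bd]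
      · have e1 : (sCx I hF.faces).eps ⟨{a}, ha⟩ = 1 := by
          rw [sCx_eps, if_pos (Finset.card_singleton a)]
        have e2 : (sCx I hF.faces).eps ⟨{b}, hb⟩ = 1 := by
          rw [sCx_eps, if_pos (Finset.card_singleton b)]
        rw [e1, e2, smul_eq_mul, smul_eq_mul, mul_one, mul_one]
      · intro q _ hq
        rw [Finsupp.notMem_support_iff.1 hq, zero_smul]
    · have h1 : lin (sCx I hF.faces).eps ((sCx I hF.faces).bd c) =
          lin (fun _ => (0 : ℤ)) ((sCx I hF.faces).bd c) := by
        apply lin_congr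
        intro p hp
        obtain ⟨v, hv, e⟩ := (hSI.fac p c).1 hp
        have h2 : p.1.card = c.1.card - 1 := by rw [e, Finset.card_erase_of_mem hv]
        have h3 := Finset.card_pos.2 (hX.ne _ c.2)
        refine if_neg fun h4 => hc ?_
        omega
      rw [h1, lin, Finsupp.linearCombination_apply, Finsupp.sum]
      exact Finset.sum_eq_zero fun _ _ => smul_zero _
  free := hF.free

theorem bdS_apply (τ σ : Finset P) : bdS τ σ = simpInc (fun x y : P => x < y) σ τ := by
  classical
  unfold bdS simpInc
  rw [Finsupp.finsetSum_apply]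
  refine Finset.sum_congr rfl fun v _ => ?_
  rw [Finsupp.single_apply]
  by_cases h : τ.erase v = σ
  · rw [if_pos h, if_pos h.symm]
    congr 2
    ext x
    simp
  · rw [if_neg h, if_neg (fun e => h e.symm)]

/-- The chains of `SX X` as chains of simplices. -/
noncomputable def upS (s : SX X → ℤ) (c : SX X) : Finset P →₀ ℤ := Finsupp.single c.1 (s c)

theorem lin_upS_apply (s : SX X → ℤ) (u : SX X →₀ ℤ) (c : SX X) :
    lin (upS s) u c.1 = s c * u c := by
  classical
  induction u using Finsupp.induction_linear with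
  | zero =>
    rw [map_zero, Finsupp.zero_apply, Finsupp.zero_apply, mul_zero]
  | add u v hu hv => rw [map_add, Finsupp.add_apply, hu, hv, Finsupp.add_apply, mul_add]
  | single d r =>
    rw [lin, Finsupp.linearCombination_single, upS, Finsupp.smul_apply, Finsupp.single_apply,
      Finsupp.single_apply]
    by_cases h : d = c
    · rw [h, if_pos rfl, if_pos rfl, smul_eq_mul, mul_comm]
    · rw [if_neg (fun e => h (Subtype.ext e)), if_neg h, smul_zero, mul_zero]

theorem lin_upS_not (s : SX X → ℤ) (u : SX X →₀ ℤ) {σ : Finset P} (h : σ ∉ X) :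
    lin (upS s) u σ = 0 := by
  classical
  induction u using Finsupp.induction_linear with
  | zero => rw [map_zero, Finsupp.zero_apply]
  | add u v hu hv => rw [map_add, Finsupp.add_apply, hu, hv, add_zero]
  | single d r =>
    rw [lin, Finsupp.linearCombination_single, upS, Finsupp.smul_apply, Finsupp.single_apply,
      if_neg (fun e : d.1 = σ => h (e ▸ d.2)), smul_zero]

theorem bdS_upS (hne : ∀ σ ∈ X, σ.Nonempty)
    (hdown : ∀ σ ∈ X, ∀ τ, τ ⊆ σ → τ.Nonempty → τ ∈ X) {I : CellCx (SX X)}
    (hf : ∀ q, {p | I.inc p q ≠ 0}.Finite) {s : SX X → ℤ} (hs : ∀ c, s c = 1 ∨ s c = -1)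
    (hs1 : ∀ c : SX X, c.1.card = 1 → s c = 1)
    (hinc : ∀ p q, I.inc p q = s p * s q * (simpCx X (fun x y : P => x < y)).inc p q)
    (c : SX X) : lin bdS (upS s c) = lin (upS s) ((sCx I hf).bd c) +
      Finsupp.single ∅ ((sCx I hf).eps c) := by
  classical
  have hss : ∀ c, s c * s c = 1 := fun c => by
    rcases hs c with h | h <;> rw [h] <;> norm_num
  have hX0 : (∅ : Finset P) ∉ X := fun h => by simpa using hne _ h
  ext σ
  rw [upS, lin, Finsupp.linearCombination_single, Finsupp.smul_apply, bdS_apply,
    Finsupp.add_apply, smul_eq_mul]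
  by_cases hσ : σ ∈ X
  · have h1 := lin_upS_apply s ((sCx I hf).bd c) ⟨σ, hσ⟩
    rw [h1, sCx_bd, hinc, Finsupp.single_apply, if_neg (fun e : ∅ = σ => hX0 (e ▸ hσ)), add_zero]
    show s c * simpInc (fun x y : P => x < y) σ c.1 =
      s ⟨σ, hσ⟩ * (s ⟨σ, hσ⟩ * s c * simpInc (fun x y : P => x < y) σ c.1)
    have := hss ⟨σ, hσ⟩
    linear_combination (-(s c * simpInc (fun x y : P => x < y) σ c.1)) * this
  · rw [lin_upS_not s _ hσ, zero_add]
    by_cases h0 : σ = ∅
    · subst h0
      rw [Finsupp.single_eq_same]
      by_cases hc : c.1.card = 1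
      · obtain ⟨v, hv⟩ := Finset.card_eq_one.1 hc
        have e1 : (sCx I hf).eps c = 1 := if_pos hc
        have e2 : simpInc (fun x y : P => x < y) ∅ c.1 = 1 := by
          have h3 : (∅ : Finset P) = c.1.erase v := by rw [hv]; simp
          rw [h3, simpInc_erase _ (by rw [hv]; simp), hv, posR_singleton (lt_irrefl v), pow_zero]
        rw [e1, e2, hs1 c hc, mul_one]
      · have e1 : (sCx I hf).eps c = 0 := if_neg hc
        have e2 : simpInc (fun x y : P => x < y) ∅ c.1 = 0 := by
          apply simpInc_zero
          intro v hv e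
          apply hc
          have h3 := Finset.card_erase_of_mem hv
          rw [← e, Finset.card_empty] at h3
          have h4 := Finset.card_pos.2 ⟨v, hv⟩
          omega
        rw [e1, e2, mul_zero]
    · rw [Finsupp.single_apply, if_neg (fun e => h0 e.symm)]
      have e2 : simpInc (fun x y : P => x < y) σ c.1 = 0 := by
        apply simpInc_zero
        intro v hv e
        apply hσ
        refine hdown c.1 c.2 σ ?_ (Finset.nonempty_iff_ne_empty.2 h0)
        rw [e]
        exact Finset.erase_subset v _
      rw [e2, mul_zero]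

/-- The chain complex of an acyclic simplicial complex is acyclic. -/
theorem sCx_acy [MulAction Γ (SX X)] (hX : FreeCx Γ X)
    (hsm : ∀ (g : Γ) (c : SX X), (g • c).1 = g • c.1) (hA : AcyX X) {I : CellCx (SX X)}
    (hSI : SI X I) (hF : FreeCell Γ I) {s : SX X → ℤ} (hs : ∀ c, s c = 1 ∨ s c = -1)
    (hs1 : ∀ c : SX X, c.1.card = 1 → s c = 1)
    (hinc : ∀ p q, I.inc p q = s p * s q * (simpCx X (fun x y : P => x < y)).inc p q) :
    Acy (sCx I hF.faces) := by
  classical
  have hC := sCx_isCx hX hsm hSI hF
  have hss : ∀ c, s c * s c = 1 := fun c => by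
    rcases hs c with h | h <;> rw [h] <;> norm_num
  have key : ∀ u : SX X →₀ ℤ, lin bdS (lin (upS s) u) =
      lin (upS s) (lin (sCx I hF.faces).bd u) +
        Finsupp.single ∅ (lin (sCx I hF.faces).eps u) := by
    intro u
    induction u using Finsupp.induction_linear with
    | zero => simp only [map_zero, Finsupp.single_zero, add_zero]
    | add u v hu hv =>
      rw [map_add, map_add, hu, hv, map_add, map_add, map_add, Finsupp.single_add]
      abel
    | single c r =>
      have h1 : lin (upS s) (Finsupp.single c r) = r • upS s c := by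
        rw [lin, Finsupp.linearCombination_single]
      have h2 : lin (sCx I hF.faces).bd (Finsupp.single c r) = r • (sCx I hF.faces).bd c := by
        rw [lin, Finsupp.linearCombination_single]
      have h3 : lin (sCx I hF.faces).eps (Finsupp.single c r) = r • (sCx I hF.faces).eps c := by
        rw [lin, Finsupp.linearCombination_single]
      rw [h1, h2, h3, map_smul, map_smul, bdS_upS hX.ne hX.down hF.faces hs hs1 hinc c, smul_add,
        Finsupp.smul_single]
  have hlift : ∀ u : SX X →₀ ℤ, lin (sCx I hF.faces).bd u = 0 → lin (sCx I hF.faces).eps u = 0 →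
      ∃ w : SX X →₀ ℤ, lin (sCx I hF.faces).bd w = u := by
    intro u h1 h2
    have h3 := key u
    rw [h1, h2, map_zero, Finsupp.single_zero, add_zero] at h3
    obtain ⟨w, hw1, hw2⟩ := hA.bdry (lin (upS s) u) (fun σ hσ => by
      by_contra h
      exact hσ (lin_upS_not s u h)) h3
    obtain ⟨w', hw'⟩ : ∃ w' : SX X →₀ ℤ, ∀ c, w' c = s c * w c.1 := by
      refine ⟨Finsupp.ofSupportFinite (fun c => s c * w c.1) ?_, fun c => rfl⟩
      refine Set.Finite.of_finite_image (f := Subtype.val) ?_ Subtype.val_injective.injOn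
      refine w.support.finite_toSet.subset ?_
      rintro _ ⟨c, hc, rfl⟩
      exact Finsupp.mem_support_iff.2 (right_ne_zero_of_mul hc)
    have h4 : lin (upS s) w' = w := by
      ext σ
      by_cases hσ : σ ∈ X
      · have h5 := lin_upS_apply s w' ⟨σ, hσ⟩
        rw [h5, hw', ← mul_assoc, hss, one_mul]
      · rw [lin_upS_not s _ hσ]
        by_contra h
        exact hσ (hw1 σ (Ne.symm h))
    refine ⟨w', ?_⟩
    have h5 := key w'
    have h6 : lin bdS (lin (upS s) w') = lin (upS s) u := by
      rw [h4]
      exact hw2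
    rw [h6] at h5
    ext c
    have h7 := DFunLike.congr_fun h5 c.1
    have h8 : (∅ : Finset P) ≠ c.1 := fun e => by
      have := hX.ne _ c.2
      rw [← e] at this
      simp at this
    rw [Finsupp.add_apply, Finsupp.single_apply, if_neg h8, add_zero, lin_upS_apply,
      lin_upS_apply] at h7
    have h9 := congrArg (fun x => s c * x) h7
    simp only [← mul_assoc, hss, one_mul] at h9
    exact h9.symm
  constructor
  · obtain ⟨σ, hσ⟩ := hA.nonempty
    obtain ⟨v, hv⟩ := hX.ne σ hσ
    have hvX : ({v} : Finset P) ∈ X := hX.down σ hσ _ (by simpa using hv) (by simp)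
    refine ⟨Finsupp.single ⟨{v}, hvX⟩ 1, ?_, ?_⟩
    · have h1 : (sCx I hF.faces).dim ⟨{v}, hvX⟩ = 0 := by
        show I.dim _ = 0
        rw [hSI.dim, Finset.card_singleton]
      have h2 := InDim.single (X := sCx I hF.faces) (c := ⟨{v}, hvX⟩) (1 : ℤ)
      rwa [h1] at h2
    · rw [lin_single, sCx_eps, if_pos (Finset.card_singleton v)]
  · intro u hu hu'
    obtain ⟨w, hw⟩ := hlift u (by
      have h1 : lin (sCx I hF.faces).bd u = lin (fun _ => (0 : SX X →₀ ℤ)) u := by
        apply lin_congr
        intro c hc
        exact hC.bd_zero (hu c hc)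
      rw [h1, lin, Finsupp.linearCombination_apply, Finsupp.sum]
      exact Finset.sum_eq_zero fun _ _ => smul_zero _) hu'
    exact exists_inDim hC hu hw
  · intro k u hu hu'
    obtain ⟨w, hw⟩ := hlift u hu' (by
      have h1 : lin (sCx I hF.faces).eps u = lin (fun _ => (0 : ℤ)) u := by
        apply lin_congr
        intro c hc
        have h2 : I.dim c = k + 1 := hu c hc
        rw [hSI.dim] at h2
        refine if_neg fun h3 => ?_
        omega
      rw [h1, lin, Finsupp.linearCombination_apply, Finsupp.sum]
      exact Finset.sum_eq_zero fun _ _ => smul_zero _)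
    exact exists_inDim hC hu hw

end

end ThickThin
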