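import Mathlib
import Pool.Agent.Lib_MP_9dbe3a.ACoh
import Pool.Agent.Lib_MP_9dbe3a.ABar
import Pool.Agent.Lib_MP_9dbe3a.ASim

/-!
# Thick-thin: the theorem on cohomology with twisted coefficients
-/

namespace ThickThin

open MeasureTheory SingerVS SingerCub CategoryTheory
open scoped Pointwise

section

variable {Γ k : Type} [Group Γ] [CommRing k] (A : Rep.{0} k Γ)

/-- The action on the additive group of a representation. -/
def rhoE : Γ →* AddMonoid.End A where
  toFun g := (A.ρ g).toAddMonoidHom
  map_one' := by
    ext v
    show A.ρ 1 v = v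
    rw [map_one]
    rfl
  map_mul' g h := by
    ext v
    show A.ρ (g * h) v = A.ρ g (A.ρ h v)
    rw [map_mul]
    rfl

theorem rhoE_apply (g : Γ) (v : A) : rhoE A g v = A.ρ g v := rfl

/-- If the equivariant cochains of the bar complex have no cohomology in degree `n` then the group
cohomology vanishes in degree `n`. -/
theorem groupCohomology_zero (n : ℕ)
    (hco : ∀ u : Bar Γ → A, (∀ (g : Γ) c, u (g • c) = rhoE A g (u c)) →
      (∀ c : Bar Γ, c.n = n + 1 → lin u (barBd c) = 0) →
      ∃ w : Bar Γ → A, (∀ (g : Γ) c, w (g • c) = rhoE A g (w c)) ∧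
        ∀ c : Bar Γ, c.n = n → u c = lin w (barBd c)) :
    Subsingleton (groupCohomology A n) := by
  classical
  have hneg : ∀ (m : ℕ) (v : A), ((-1 : ℤ) ^ m) • v = ((-1 : k) ^ m) • v := by
    intro m v
    rw [← Int.cast_smul_eq_zsmul k ((-1 : ℤ) ^ m) v]
    norm_num
  have key : ∀ x : groupCohomology A n, x = 0 := by
    intro x
    induction x using groupCohomology_induction_on with
    | h y =>
      obtain ⟨f, hf⟩ : ∃ f : (Fin n → Γ) → A, f = groupCohomology.iCocycles A n y := ⟨_, rfl⟩
      have hdf : inhomogeneousCochains.d A n f = 0 := by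
        rw [hf]
        have h1 := (groupCohomology.inhomogeneousCochains A).iCycles_d n (n + 1)
        have h2 := congrArg (fun φ => φ.hom y) h1
        have h3 : (groupCohomology.inhomogeneousCochains A).d n (n + 1) =
            inhomogeneousCochains.d A n := groupCohomology.inhomogeneousCochains.d_def A n
        rw [h3] at h2
        exact h2
      obtain ⟨u, hu⟩ : ∃ u : Bar Γ → A, u = fun c => if h : c.n = n then
          A.ρ c.hd (f fun i => c.tl (Fin.cast h.symm i)) else 0 := ⟨_, rfl⟩
      have hun : ∀ (g : Γ) (x : Fin n → Γ), u ⟨g, n, x⟩ = A.ρ g (f x) := by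
        intro g x
        rw [hu]
        show (if h : n = n then A.ρ g (f fun i => x (Fin.cast h.symm i)) else 0) = _
        rw [dif_pos rfl]
        rfl
      have hue : ∀ (g : Γ) c, u (g • c) = rhoE A g (u c) := by
        intro g c
        obtain ⟨h, m, x⟩ := c
        by_cases hm : m = n
        · subst hm
          rw [bar_smul, hun, hun, rhoE_apply, map_mul]
          rfl
        · rw [hu]
          show (if h' : m = n then A.ρ (g * h) (f fun i => x (Fin.cast h'.symm i)) else 0) =
            rhoE A g (if h' : m = n then A.ρ h (f fun i => x (Fin.cast h'.symm i)) else 0)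
          rw [dif_neg hm, dif_neg hm, map_zero]
      have hbd : ∀ (w : Bar Γ → A) (g : Γ) (m : ℕ) (x : Fin (m + 1) → Γ),
          lin w (barBd ⟨g, m + 1, x⟩) = w ⟨g * x 0, m, fun i => x i.succ⟩ +
            ∑ j : Fin (m + 1), ((-1 : k) ^ ((j : ℕ) + 1)) •
              w ⟨g, m, Fin.contractNth j (· * ·) x⟩ := by
        intro w g m x
        rw [barBd_succ, map_add, map_sum, lin_single]
        congr 1
        refine Finset.sum_congr rfl fun j _ => ?_
        rw [map_smul, lin_single, hneg]
      obtain ⟨w, hw1, hw2⟩ := hco u hue (by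
        rintro ⟨g, m, x⟩ hm
        have hm' : m = n + 1 := hm
        subst hm'
        rw [hbd, hun]
        simp only [hun]
        have h1 := congrFun hdf x
        rw [inhomogeneousCochains.d_hom_apply] at h1
        have h2 := congrArg (A.ρ g) h1
        rw [map_add, map_sum] at h2
        simp only [map_smul] at h2
        have h3 : A.ρ g ((0 : (Fin (n + 1) → Γ) → A) x) = 0 := map_zero _
        rw [← h3]
        refine Eq.trans ?_ h2
        rw [map_mul]
        rfl)
      have hinj : Function.Injective (groupCohomology.iCocycles A n) :=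
        (ModuleCat.mono_iff_injective _).1 inferInstance
      cases n with
      | zero =>
        have h1 : f = 0 := by
          funext x
          have h2 := hw2 ⟨1, 0, x⟩ rfl
          rw [hun, barBd_zero, map_zero, map_one] at h2
          exact h2
        have h2 : y = 0 := by
          apply hinj
          rw [← hf, h1, map_zero]
        rw [h2, map_zero]
      | succ m =>
        obtain ⟨g, hg⟩ : ∃ g : (Fin m → Γ) → A, g = fun x => w ⟨1, m, x⟩ := ⟨_, rfl⟩
        have h1 : f = inhomogeneousCochains.d A m g := by
          funext x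
          have h2 := hw2 ⟨1, m + 1, x⟩ rfl
          rw [hun, map_one, hbd] at h2
          rw [inhomogeneousCochains.d_hom_apply]
          refine Eq.trans h2 ?_
          rw [hg]
          congr 1
          have h3 := hw1 (x 0) ⟨1, m, fun i => x i.succ⟩
          rw [bar_smul, mul_one] at h3
          rw [one_mul, h3]
          rfl
        have h2 : y = groupCohomology.toCocycles A m (m + 1) g := by
          apply hinj
          rw [← hf, h1]
          have h3 := (groupCohomology.inhomogeneousCochains A).toCycles_i m (m + 1)
          have h4 := congrArg (fun φ => φ.hom g) h3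
          have h5 : (groupCohomology.inhomogeneousCochains A).d m (m + 1) =
            inhomogeneousCochains.d A m := groupCohomology.inhomogeneousCochains.d_def A m
          rw [h5] at h4
          exact h4.symm
        rw [h2]
        have h3 := (groupCohomology.inhomogeneousCochains A).toCycles_comp_homologyπ m (m + 1)
        exact congrArg (fun φ => φ.hom g) h3
  exact ⟨fun x y => by rw [key x, key y]⟩

end

section

variable {Γ Y : Type} [Group Γ] [MetricSpace Y] [MulAction Γ Y] [MeasurableSpace Y] [BorelSpace Y]
  {μ : Measure Y} {a : ℝ}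

theorem loc_main (h : FinVol Γ Y μ) (hY : BNC a Y) [Nonempty Y] {P : Type} [LinearOrder P]
    [MulAction Γ P] {X : Set (Finset P)} (hX : FreeCx Γ X) (hA : AcyX X) {k : Type} [CommRing k]
    (A : Rep.{0} k Γ) {ε : ℝ} (hε : 0 < ε)
    (hz : ∀ z : Γ, IsSmall Y ε z → Function.Bijective fun v : A => A.ρ z v - v) (n : ℕ)
    (hn : ¬ Subsingleton (groupCohomology A n)) :
    ∃ K : Set (Quo Γ Y), IsCompact K ∧ ¬ CanLeave K := by
  classical
  by_contra hno
  have hall : ∀ K : Set (Quo Γ Y), IsCompact K → CanLeave K := by
    intro K hK
    by_contra h1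
    exact hno ⟨K, hK, h1⟩
  apply hn
  obtain ⟨I, s, hs, hs1, hSI, hdim, hinc, hFI⟩ := exists_inv' hX
  let iA : MulAction Γ (SX X) := sxAct (K := Γ) hX.inv
  have hsm : ∀ (g : Γ) (c : SX X), (g • c).1 = g • c.1 := fun _ _ => rfl
  refine groupCohomology_zero A n fun u hu hc => ?_
  exact coh_of_leave h hY hε (sCx_isCx hX hsm hSI hFI)
    (sCx_acy hX hsm hA hSI hFI hs hs1 hinc) hFI.cofin barCx_isCx barCx_acy hall (rhoE A) hz hu hc

end

end ThickThin
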