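import Mathlib
import Pool.Agent.Lib_MP_9dbe3a.ALoc

/-!
# Thick-thin: the dimension of the cohomology with finite-dimensional coefficients
-/

namespace ThickThin

open MeasureTheory SingerVS SingerCub CategoryTheory Module

section

variable {F V : Type} [Field F] [AddCommGroup V] [Module F V]

theorem exists_pinv (π : Module.End F V) : ∃ σ : Module.End F V, ∀ v, π (σ (π v)) = π v := by
  obtain ⟨s, hs⟩ := π.rangeRestrict.exists_rightInverse_of_surjective π.range_rangeRestrict
  obtain ⟨σ, hσ⟩ := LinearMap.exists_extend s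
  refine ⟨σ, fun v => ?_⟩
  have h1 : σ (π v) = s ⟨π v, LinearMap.mem_range_self π v⟩ :=
    LinearMap.congr_fun hσ ⟨π v, LinearMap.mem_range_self π v⟩
  rw [h1]
  exact congrArg Subtype.val (LinearMap.congr_fun hs ⟨π v, LinearMap.mem_range_self π v⟩)

theorem finrank_ker_mul [FiniteDimensional F V] (a b : Module.End F V) :
    finrank F (LinearMap.ker (a * b)) ≤ finrank F (LinearMap.ker a) + finrank F (LinearMap.ker b) := by
  let g : LinearMap.ker (a * b) →ₗ[F] LinearMap.ker a :=
    (b.comp (LinearMap.ker (a * b)).subtype).codRestrict _ fun v => v.2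
  have h1 := g.finrank_range_add_finrank_ker
  have h2 : finrank F (LinearMap.range g) ≤ finrank F (LinearMap.ker a) :=
    Submodule.finrank_le _
  have h3 : finrank F (LinearMap.ker g) ≤ finrank F (LinearMap.ker b) := by
    let k : LinearMap.ker g →ₗ[F] LinearMap.ker b :=
      ((LinearMap.ker (a * b)).subtype.comp (LinearMap.ker g).subtype).codRestrict _ fun v => by
        have hv : g v.1 = 0 := v.2
        exact congrArg Subtype.val hv
    refine LinearMap.finrank_le_finrank_of_injective (f := k) fun v w hvw => ?_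
    have h4 : (v.1.1 : V) = w.1.1 := congrArg (fun x : LinearMap.ker b => (x : V)) hvw
    exact Subtype.ext (Subtype.ext h4)
  omega

theorem finrank_range_proj [FiniteDimensional F V] {π σ : Module.End F V}
    (h : ∀ v, π (σ (π v)) = π v) :
    finrank F (LinearMap.range (1 - π * σ)) ≤ finrank F (LinearMap.ker π) := by
  have h1 := (1 - π * σ).finrank_range_add_finrank_ker
  have h2 := π.finrank_range_add_finrank_ker
  have h3 : LinearMap.range π ≤ LinearMap.ker (1 - π * σ) := by
    rintro _ ⟨v, rfl⟩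
    show π v - π (σ (π v)) = 0
    rw [h, sub_self]
  have h4 := Submodule.finrank_mono h3
  omega

/-- The linear extension at a chain, as a linear function of the cochain. -/
noncomputable def evL {C : Type} (x : C →₀ ℤ) : (C → V) →ₗ[F] V :=
  ∑ c ∈ x.support, x c • LinearMap.proj c

theorem evL_apply {C : Type} (x : C →₀ ℤ) (f : C → V) : evL (F := F) x f = lin f x := by
  unfold evL
  rw [LinearMap.sum_apply, lin, Finsupp.linearCombination_apply, Finsupp.sum]
  rfl

end

section

variable {Γ C : Type} [Group Γ] [MulAction Γ C]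

theorem exists_GT (hfree : ∀ (g : Γ) (c : C), g • c = c → g = 1) :
    ∃ G : C → Γ, (∀ c, G c • (Quotient.mk'' c : Orb Γ C).out = c) ∧
      ∀ (g : Γ) c, G (g • c) = g * G c := by
  have h1 : ∀ c : C, ∃ g : Γ, g • (Quotient.mk'' c : Orb Γ C).out = c := by
    intro c
    have h2 : (Quotient.mk'' (Quotient.mk'' c : Orb Γ C).out : Orb Γ C) =
        Quotient.mk'' c := Quotient.out_eq' _
    have h3 := Quotient.exact' h2.symm
    obtain ⟨g, hg⟩ := h3
    exact ⟨g, hg⟩
  choose G hG using h1
  refine ⟨G, hG, fun h c => ?_⟩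
  have e1 : (Quotient.mk'' (h • c) : Orb Γ C) = Quotient.mk'' c :=
    Quotient.sound' ⟨h, rfl⟩
  have e2 := hG (h • c)
  rw [e1] at e2
  have e4 : ((h * G c)⁻¹ * G (h • c)) • (Quotient.mk'' c : Orb Γ C).out =
      (Quotient.mk'' c : Orb Γ C).out := by
    rw [mul_smul, e2, inv_smul_eq_iff, mul_smul, hG c]
  exact (inv_mul_eq_one.mp (hfree _ _ e4)).symm

end

namespace LS

variable {Γ Y F V : Type} [Group Γ] [MulAction Γ Y] [Field F] [AddCommGroup V] [Module F V]
  (S : LS Γ Y)

/-- `∏ (z_i - 1)` as a linear map. -/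
noncomputable def pl (ρ : Γ →* Module.End F V) (l : List Y) : Module.End F V :=
  (l.map fun x => ρ (S.z x) - 1).prod

theorem pl_cons (ρ : Γ →* Module.End F V) (y : Y) (l : List Y) :
    S.pl ρ (y :: l) = (ρ (S.z y) - 1) * S.pl ρ l := by
  unfold pl
  rw [List.map_cons, List.prod_cons]

theorem pl_eq {ρ : Γ →* Module.End F V} {ρ' : Γ →* AddMonoid.End V}
    (hρ : ∀ g v, ρ' g v = ρ g v) (l : List Y) (v : V) : S.pv ρ' l v = S.pl ρ l v := by
  induction l with
  | nil => rfl
  | cons y l ih =>
    rw [pv_cons, pl_cons, hρ, ih]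
    rfl

theorem pl_ker [FiniteDimensional F V] (ρ : Γ →* Module.End F V) (l : List Y) :
    finrank F (LinearMap.ker (S.pl ρ l)) ≤
      (l.map fun x => finrank F (LinearMap.ker (ρ (S.z x) - 1))).sum := by
  induction l with
  | nil =>
    have h1 : LinearMap.ker (S.pl ρ []) = ⊥ := LinearMap.ker_id
    rw [h1, finrank_bot]
    exact Nat.zero_le _
  | cons y l ih =>
    rw [pl_cons, List.map_cons, List.sum_cons]
    exact (finrank_ker_mul _ _).trans (Nat.add_le_add_left ih _)

/-- A small quotient of the cocycles. -/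
theorem coh_dim [Fintype (Orb Γ S.T)] [FiniteDimensional F V] (ρ : Γ →* Module.End F V)
    (ρ' : Γ →* AddMonoid.End V) (hρ : ∀ g v, ρ' g v = ρ g v) (n : ℕ) :
    ∃ (W : Type) (_ : AddCommGroup W) (_ : Module F W) (_ : FiniteDimensional F W)
      (Φ : (S.Cell → V) →ₗ[F] W),
      finrank F W ≤ 2 * ∑ o : Orb Γ S.T,
        (o.out.1.map fun x => finrank F (LinearMap.ker (ρ (S.z x) - 1))).sum ∧
      ∀ u : S.Cell → V, (∀ (g : Γ) c, u (g • c) = ρ' g (u c)) →
        (∀ c, S.cx.dim c = n + 1 → lin u (S.cx.bd c) = 0) → Φ u = 0 →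
        ∃ w : S.Cell → V, (∀ (g : Γ) c, w (g • c) = ρ' g (w c)) ∧
          ∀ c, S.cx.dim c = n → u c = lin w (S.cx.bd c) := by
  classical
  obtain ⟨G, hG1, hG2⟩ := exists_GT S.T_free
  have hσ : ∀ o : Orb Γ S.T, ∃ σ : Module.End F V, ∀ v, S.pl ρ o.out.1 (σ (S.pl ρ o.out.1 v)) =
      S.pl ρ o.out.1 v := fun o => exists_pinv _
  choose σ hσ using hσ
  -- the map `w₀`
  let w₀ : (S.Cell → V) →ₗ[F] (S.T → V) := LinearMap.pi fun l =>
    (ρ (G l)) ∘ₗ (σ (Quotient.mk'' l)) ∘ₗ
      (LinearMap.proj (((Quotient.mk'' l : Orb Γ S.T).out, true) : S.T × Bool))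
  have hw₀ : ∀ u l, w₀ u l = ρ (G l) (σ (Quotient.mk'' l)
      (u (((Quotient.mk'' l : Orb Γ S.T).out, true) : S.T × Bool))) := fun _ _ => rfl
  have hw₀e : ∀ (u : S.Cell → V) (g : Γ) (l : S.T), w₀ u (g • l) = ρ' g (w₀ u l) := by
    intro u g l
    have e1 : (Quotient.mk'' (g • l) : Orb Γ S.T) = Quotient.mk'' l :=
      Quotient.sound' ⟨g, rfl⟩
    rw [hw₀, hw₀, e1, hG2, map_mul, hρ]
    rfl
  let Φ₁ : (S.Cell → V) →ₗ[F] (∀ o : Orb Γ S.T,
      LinearMap.range (1 - S.pl ρ o.out.1 * σ o)) := LinearMap.pi fun o =>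
    (1 - S.pl ρ o.out.1 * σ o).rangeRestrict ∘ₗ (LinearMap.proj ((o.out, true) : S.T × Bool))
  let Φ₂ : (S.Cell → V) →ₗ[F] (∀ o : Orb Γ S.T, LinearMap.ker (S.pl ρ o.out.1)) :=
    LinearMap.pi fun o =>
      ((1 - σ o * S.pl ρ o.out.1) ∘ₗ ((LinearMap.proj ((o.out, false) : S.T × Bool)) -
        (evL (S.bS o.out.1)) ∘ₗ w₀)).codRestrict _ fun u => by
          obtain ⟨v, hv⟩ : ∃ v, v = ((LinearMap.proj ((o.out, false) : S.T × Bool)) -
            (evL (S.bS o.out.1)) ∘ₗ w₀ : (S.Cell → V) →ₗ[F] V) u := ⟨_, rfl⟩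
          rw [LinearMap.comp_apply, ← hv, LinearMap.mem_ker]
          show S.pl ρ o.out.1 (v - σ o (S.pl ρ o.out.1 v)) = 0
          rw [map_sub, hσ, sub_self]
  refine ⟨_, inferInstance, inferInstance, inferInstance, Φ₁.prod Φ₂, ?_, ?_⟩
  · rw [finrank_prod, finrank_pi_fintype, finrank_pi_fintype, two_mul]
    refine Nat.add_le_add (Finset.sum_le_sum fun o _ => ?_) (Finset.sum_le_sum fun o _ => ?_)
    · exact (finrank_range_proj (hσ o)).trans (S.pl_ker ρ _)
    · exact S.pl_ker ρ _
  · intro u hu hc hΦ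
    have hΦ1 : Φ₁ u = 0 := congrArg Prod.fst hΦ
    have hΦ2 : Φ₂ u = 0 := congrArg Prod.snd hΦ
    have hu₀ : ∀ (g : Γ) (l : S.T), u (g • l, false) = ρ' g (u (l, false)) := fun g l =>
      hu g ((l, false) : S.T × Bool)
    have hu₁ : ∀ (g : Γ) (l : S.T), u (g • l, true) = ρ' g (u (l, true)) := fun g l =>
      hu g ((l, true) : S.T × Bool)
    -- the first condition
    have h1 : ∀ l : S.T, u (l, true) = S.pv ρ' l.1 (w₀ u l) := by
      intro l
      obtain ⟨o, ho⟩ : ∃ o : Orb Γ S.T, o = Quotient.mk'' l := ⟨_, rfl⟩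
      have e1 : u (o.out, true) - S.pl ρ o.out.1 (σ o (u (o.out, true))) = 0 :=
        congrArg Subtype.val (congrFun hΦ1 o)
      have e2 : l = G l • o.out := by
        rw [ho]
        exact (hG1 l).symm
      have e3 : u (l, true) = ρ' (G l) (u (o.out, true)) := by
        conv_lhs => rw [e2]
        exact hu₁ _ _
      have e4 : S.pv ρ' l.1 (w₀ u l) = ρ' (G l) (S.pv ρ' o.out.1 (σ o (u (o.out, true)))) := by
        rw [← S.pv_smul]
        have e5 : l.1 = o.out.1.map (G l • ·) := by
          conv_lhs => rw [e2]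
          rfl
        rw [← e5, hw₀, ← ho, hρ]
      rw [e3, e4, S.pl_eq hρ, ← sub_eq_zero.1 e1]
    -- the error
    obtain ⟨e, he⟩ : ∃ e : S.T → V, e = fun l => u (l, false) - lin (w₀ u) (S.bS l.1) := ⟨_, rfl⟩
    have hee : ∀ (g : Γ) (l : S.T), e (g • l) = ρ' g (e l) := by
      intro g l
      rw [he]
      show u (g • l, false) - lin (w₀ u) (S.bS (l.1.map (g • ·))) =
        ρ' g (u (l, false) - lin (w₀ u) (S.bS l.1))
      rw [S.bS_act, lin_actV ρ' (hw₀e u), hu₀, map_sub]
    have h2 : ∀ l : S.T, S.pv ρ' l.1 (e l) = 0 → e l = 0 := by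
      intro l hl
      obtain ⟨o, ho⟩ : ∃ o : Orb Γ S.T, o = Quotient.mk'' l := ⟨_, rfl⟩
      have e2 : l = G l • o.out := by
        rw [ho]
        exact (hG1 l).symm
      have e5 : l.1 = o.out.1.map (G l • ·) := by
        conv_lhs => rw [e2]
        rfl
      have e6 : e l = ρ' (G l) (e o.out) := by
        conv_lhs => rw [e2]
        exact hee _ _
      have e7 : S.pv ρ' o.out.1 (e o.out) = 0 := by
        rw [e6, e5, S.pv_smul] at hl
        have e8 := congrArg (ρ' (G l)⁻¹) hl
        rw [map_zero] at e8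
        have e9 : ρ' (G l)⁻¹ (ρ' (G l) (S.pv ρ' o.out.1 (e o.out))) =
            S.pv ρ' o.out.1 (e o.out) := by
          have h3 : (ρ' (G l)⁻¹ * ρ' (G l)) (S.pv ρ' o.out.1 (e o.out)) =
              S.pv ρ' o.out.1 (e o.out) := by
            rw [← map_mul, inv_mul_cancel, map_one]
            rfl
          exact h3
        rw [← e9]
        exact e8
      have e8 : e o.out - σ o (S.pl ρ o.out.1 (e o.out)) = 0 := by
        have h4 := congrArg Subtype.val (congrFun hΦ2 o)
        have h5 : (e o.out : V) = ((LinearMap.proj ((o.out, false) : S.T × Bool)) -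
            (evL (S.bS o.out.1)) ∘ₗ w₀ : (S.Cell → V) →ₗ[F] V) u := by
          rw [he]
          show u (o.out, false) - lin (w₀ u) (S.bS o.out.1) =
            u (o.out, false) - evL (F := F) (S.bS o.out.1) (w₀ u)
          rw [evL_apply]
        rw [h5]
        exact h4
      rw [S.pl_eq hρ] at e7
      rw [e7, map_zero, sub_zero] at e8
      rw [e6, e8, map_zero]
    obtain ⟨w, hw⟩ : ∃ w : S.Cell → V, w = fun c => if c.2 = true then 0 else w₀ u c.1 :=
      ⟨_, rfl⟩
    have hwf : ∀ l : S.T, w (l, false) = w₀ u l := fun l => by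
      rw [hw]
      exact if_neg (by simp)
    have hwt : ∀ l : S.T, w (l, true) = 0 := fun l => by
      rw [hw]
      exact if_pos rfl
    have hlf : ∀ x : S.T →₀ ℤ, lin w (S.io false x) = lin (w₀ u) x := by
      intro x
      rw [lin_io]
      exact lin_congr fun l _ => hwf l
    have hlt : ∀ x : S.T →₀ ℤ, lin w (S.io true x) = 0 := by
      intro x
      rw [lin_io]
      have h1 : lin (fun l : S.T => w (l, true)) x = lin (fun _ : S.T => (0 : V)) x :=
        lin_congr fun l _ => hwt l
      rw [h1, lin, Finsupp.linearCombination_apply, Finsupp.sum]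
      exact Finset.sum_eq_zero fun _ _ => smul_zero _
    refine ⟨w, ?_, ?_⟩
    · rintro g ⟨l, b⟩
      cases b
      · show w (g • l, false) = _
        rw [hwf, hwf, hw₀e]
      · show w (g • l, true) = _
        rw [hwt, hwt, map_zero]
    · rintro ⟨l, b⟩ hdim
      have hlen := S.length_pos l.2
      cases b
      · -- lists of length `n + 1`
        have hd : l.1.length - 1 = n := hdim
        show u (l, false) = lin w (S.io false (S.bS l.1))
        rw [hlf]
        have h3 : e l = 0 := by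
          apply h2
          rw [he]
          show S.pv ρ' l.1 (u (l, false) - lin (w₀ u) (S.bS l.1)) = 0
          rw [map_sub, sub_eq_zero]
          have h1' : lin u (S.cx.bd ((l, true) : S.T × Bool)) = 0 := hc _ (by
            show l.1.length = n + 1
            omega)
          have h2' : lin u (S.cx.bd ((l, true) : S.T × Bool)) =
              lin u (S.io false (S.tS l.1)) - lin u (S.io true (S.bZ l.1)) := map_sub _ _ _
          rw [h2', sub_eq_zero, lin_io, lin_io, tS, S.lin_pz ρ' hu₀, S.sg_of_mem l.2,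
            lin_single] at h1'
          rw [h1']
          unfold bZ bS
          rw [map_sum, map_sum, map_sum]
          refine Finset.sum_congr rfl fun i hi => ?_
          have hi' := Finset.mem_range.1 hi
          rw [map_smul, map_smul, map_zsmul, map_sub, lin_actV ρ' hu₁]
          congr 1
          have h3 : lin (fun l : S.T => u (l, true)) (S.sg (l.1.eraseIdx i)) =
              S.pv ρ' (l.1.eraseIdx i) (lin (w₀ u) (S.sg (l.1.eraseIdx i))) := by
            by_cases hA : l.1.eraseIdx i ∈ S.A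
            · rw [S.sg_of_mem hA, lin_single, lin_single]
              exact h1 ⟨_, hA⟩
            · rw [S.sg_of_not hA, map_zero, map_zero, map_zero]
          rw [h3]
          exact S.pv_erase ρ' l.2 hi' _
        rw [he] at h3
        exact sub_eq_zero.1 h3
      · -- lists of length `n`
        show u (l, true) = lin w (S.io false (S.tS l.1) - S.io true (S.bZ l.1))
        rw [map_sub, hlf, hlt, sub_zero, tS, S.lin_pz ρ' (hw₀e u), S.sg_of_mem l.2, lin_single, h1]

end LS

end ThickThin
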