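import Mathlib
import Pool.Agent.Lib_MP_9dbe3a.ANh
import Pool.Agent.Lib_MP_394d50_cub.EMrl

/-!
# Thick-thin, algebra: domination and harmonic chains

If the complex `X` is dominated by the complex `Y` (there are equivariant chain maps `i : X → Y` and
`r : Y → X` with `r i` homotopic to the identity) and `Y` has no harmonic square summable `k`-chains,
then neither has `X`.
-/

namespace ThickThin

open SingerVS SingerCub Finset

private lemma rop_pow (x : ℝ) : x ^ (2 : ENNReal).toReal = x ^ 2 := by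
  rw [ENNReal.toReal_ofNat, Real.rpow_two]

private lemma rop_row {ι κ : Type} (m : κ → ι → ℝ) (R : ℕ) (hm : ∀ i j, |m i j| ≤ 1)
    (J : Finset ι) (hJ : J.card ≤ R) (i : κ) (c : ι → ℝ) :
    (∑ j ∈ J, m i j * c j) ^ 2 ≤ R * ∑ j ∈ J, c j ^ 2 := by
  calc (∑ j ∈ J, m i j * c j) ^ 2 ≤ J.card * ∑ j ∈ J, (m i j * c j) ^ 2 :=
        sq_sum_le_card_mul_sum_sq
    _ ≤ R * ∑ j ∈ J, c j ^ 2 := by
        refine mul_le_mul (by exact_mod_cast hJ) (sum_le_sum fun j _ => ?_)
          (sum_nonneg fun _ _ => by positivity) (Nat.cast_nonneg _)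
        rw [mul_pow]
        have h1 : m i j ^ 2 ≤ 1 := by
          rw [← sq_abs]
          exact pow_le_one₀ (abs_nonneg _) (hm i j)
        nlinarith [sq_nonneg (c j)]

/-- The Schur test for finite partial sums. -/
private lemma rop_schur {ι κ : Type} (m : κ → ι → ℝ) (R : ℕ) (hm : ∀ i j, |m i j| ≤ 1)
    (J : κ → Finset ι) (hJ : ∀ i, (J i).card ≤ R)
    (I : ι → Finset κ) (hI : ∀ j, (I j).card ≤ R) (hIJ : ∀ i j, j ∈ J i → i ∈ I j)
    (c : ι → ℝ) (N : ℝ) (hN : ∀ t : Finset ι, ∑ j ∈ t, c j ^ 2 ≤ N) (s : Finset κ) :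
    ∑ i ∈ s, (∑ j ∈ J i, m i j * c j) ^ 2 ≤ R ^ 2 * N := by
  classical
  calc ∑ i ∈ s, (∑ j ∈ J i, m i j * c j) ^ 2 ≤ ∑ i ∈ s, R * ∑ j ∈ J i, c j ^ 2 :=
        sum_le_sum fun i _ => rop_row m R hm (J i) (hJ i) i c
    _ = R * ∑ i ∈ s, ∑ j ∈ J i, c j ^ 2 := by rw [mul_sum]
    _ ≤ R * ∑ j ∈ s.biUnion J, R * c j ^ 2 := by
        refine mul_le_mul_of_nonneg_left ?_ (Nat.cast_nonneg _)
        have h1 : ∑ i ∈ s, ∑ j ∈ J i, c j ^ 2 =
            ∑ j ∈ s.biUnion J, ∑ i ∈ s.filter (fun i => j ∈ J i), c j ^ 2 := by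
          apply sum_comm'
          intro i j
          rw [mem_biUnion, mem_filter]
          constructor
          · rintro ⟨h2, h3⟩
            exact ⟨⟨h2, h3⟩, i, h2, h3⟩
          · rintro ⟨⟨h2, h3⟩, _⟩
            exact ⟨h2, h3⟩
        rw [h1]
        refine sum_le_sum fun j _ => ?_
        rw [sum_const, nsmul_eq_mul]
        refine mul_le_mul_of_nonneg_right ?_ (by positivity)
        have h4 : (s.filter (fun i => j ∈ J i)).card ≤ (I j).card := by
          apply card_le_card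
          intro i hi
          exact hIJ i j (mem_filter.mp hi).2
        exact_mod_cast h4.trans (hI j)
    _ = R ^ 2 * ∑ j ∈ s.biUnion J, c j ^ 2 := by rw [← mul_sum]; ring
    _ ≤ R ^ 2 * N := mul_le_mul_of_nonneg_left (hN _) (by positivity)

/-- A rectangular matrix with bounded entries and boundedly many non-zero entries in each row and
column defines a bounded operator. -/
theorem exists_rop {ι κ : Type} (m : κ → ι → ℝ) (R : ℕ) (hm : ∀ i j, |m i j| ≤ 1)
    (hrow : ∀ i, {j | m i j ≠ 0}.Finite ∧ {j | m i j ≠ 0}.ncard ≤ R)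
    (hcol : ∀ j, {i | m i j ≠ 0}.Finite ∧ {i | m i j ≠ 0}.ncard ≤ R) :
    ∃ D : L2 ι →L[ℝ] L2 κ, (∀ c i, (D c) i = ∑ᶠ j, m i j * c j) := by
  classical
  set J : κ → Finset ι := fun i => (hrow i).1.toFinset with hJ
  set I : ι → Finset κ := fun j => (hcol j).1.toFinset with hI
  have hJc : ∀ i, (J i).card ≤ R := by
    intro i
    rw [hJ]
    have := (hrow i).2
    rwa [Set.ncard_eq_toFinset_card _ (hrow i).1] at this
  have hIc : ∀ j, (I j).card ≤ R := by
    intro j
    rw [hI]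
    have := (hcol j).2
    rwa [Set.ncard_eq_toFinset_card _ (hcol j).1] at this
  have hIJ : ∀ i j, j ∈ J i → i ∈ I j := by
    intro i j h
    simpa [hJ, hI] using h
  have hbd : ∀ (c : lp (fun _ : ι => ℝ) 2) (t : Finset ι), ∑ j ∈ t, (c j) ^ 2 ≤ ‖c‖ ^ 2 := by
    intro c t
    have h1 := lp.sum_rpow_le_norm_rpow (p := 2) (by norm_num) c t
    simp only [rop_pow] at h1
    refine le_trans (le_of_eq ?_) h1
    refine sum_congr rfl fun j _ => ?_
    rw [Real.norm_eq_abs, sq_abs]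
  have hS : ∀ (c : lp (fun _ : ι => ℝ) 2) (s : Finset κ),
      ∑ i ∈ s, (∑ j ∈ J i, m i j * c j) ^ 2 ≤ (R : ℝ) ^ 2 * ‖c‖ ^ 2 := fun c s =>
    rop_schur m R hm J hJc I hIc hIJ (fun j => c j) _ (hbd c) s
  have hmem : ∀ c : lp (fun _ : ι => ℝ) 2,
      Memℓp (fun i => ∑ j ∈ J i, m i j * c j : κ → ℝ) 2 := by
    intro c
    refine memℓp_gen' (C := (R : ℝ) ^ 2 * ‖c‖ ^ 2) fun s => ?_
    refine le_trans (le_of_eq ?_) (hS c s)
    refine sum_congr rfl fun i _ => ?_
    rw [rop_pow, Real.norm_eq_abs, sq_abs]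
  let L : lp (fun _ : ι => ℝ) 2 →ₗ[ℝ] lp (fun _ : κ => ℝ) 2 :=
    { toFun := fun c => ⟨fun i => ∑ j ∈ J i, m i j * c j, hmem c⟩
      map_add' := by
        intro c d
        apply lp.ext
        funext i
        show ∑ j ∈ J i, m i j * (c j + d j) = ∑ j ∈ J i, m i j * c j + ∑ j ∈ J i, m i j * d j
        rw [← sum_add_distrib]
        refine sum_congr rfl fun j _ => ?_
        ring
      map_smul' := by
        intro r c
        apply lp.ext
        funext i
        show ∑ j ∈ J i, m i j * (r * c j) = r * ∑ j ∈ J i, m i j * c j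
        rw [mul_sum]
        refine sum_congr rfl fun j _ => ?_
        ring }
  have hL : ∀ c, ‖L c‖ ≤ R * ‖c‖ := by
    intro c
    refine lp.norm_le_of_forall_sum_le (by norm_num) (by positivity) fun s => ?_
    simp only [rop_pow]
    rw [mul_pow]
    refine le_trans (le_of_eq ?_) (hS c s)
    refine sum_congr rfl fun i _ => ?_
    rw [Real.norm_eq_abs, sq_abs]
    rfl
  refine ⟨L.mkContinuous R hL, ?_⟩
  intro c i
  rw [LinearMap.mkContinuous_apply]
  show ∑ j ∈ J i, m i j * c j = _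
  rw [finsum_eq_sum_of_support_subset]
  intro j hj
  rw [Function.mem_support] at hj
  have h1 : m i j ≠ 0 := left_ne_zero_of_mul hj
  simpa [hJ] using h1

section

variable {Γ C D E : Type} [Group Γ] [MulAction Γ C] [MulAction Γ D] [MulAction Γ E]

/-- The operator of an equivariant family of finitely supported integral chains. -/
theorem exists_opZ (hD : ∀ (g : Γ) (d : D), g • d = d → g = 1) (hfin : Finite (Orb Γ C))
    (φ : C → (D →₀ ℤ)) (hφ : ∀ (g : Γ) c, φ (g • c) = act ℤ g (φ c)) :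
    ∃ T : L2 C →L[ℝ] L2 D, ∀ z d, (T z) d = ∑ᶠ c, (φ c d : ℝ) * z c := by
  classical
  have hfin' : Fintype (Orb Γ C) := Fintype.ofFinite _
  -- the bound for the entries
  obtain ⟨B, hB⟩ : ∃ B : ℕ, B = 1 + ∑ o : Orb Γ C, ∑ d ∈ (φ o.out).support,
      (φ o.out d).natAbs := ⟨_, rfl⟩
  obtain ⟨R, hR⟩ : ∃ R : ℕ, R = ∑ o : Orb Γ C, (φ o.out).support.card := ⟨_, rfl⟩
  have hent : ∀ c d, |φ c d| ≤ B := by
    intro c d
    obtain ⟨h, o, rfl⟩ := exists_rep (H := Γ) c
    rw [hφ, act_apply, Int.abs_eq_natAbs]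
    by_cases h0 : φ o.out (h⁻¹ • d) = 0
    · rw [h0, Int.natAbs_zero]
      exact_mod_cast Nat.zero_le _
    · have h1 : (φ o.out (h⁻¹ • d)).natAbs ≤ ∑ d ∈ (φ o.out).support, (φ o.out d).natAbs :=
        Finset.single_le_sum (f := fun p => (φ o.out p).natAbs) (fun _ _ => Nat.zero_le _)
          (Finsupp.mem_support_iff.2 h0)
      have h2 : ∑ d ∈ (φ o.out).support, (φ o.out d).natAbs ≤
          ∑ o : Orb Γ C, ∑ d ∈ (φ o.out).support, (φ o.out d).natAbs :=
        Finset.single_le_sum (f := fun o : Orb Γ C =>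
          ∑ d ∈ (φ o.out).support, (φ o.out d).natAbs) (fun _ _ => Nat.zero_le _)
          (Finset.mem_univ o)
      have h3 : (φ o.out (h⁻¹ • d)).natAbs ≤ B := by omega
      exact_mod_cast h3
  -- the columns
  have hcol : ∀ c, {d | φ c d ≠ 0}.Finite ∧ {d | φ c d ≠ 0}.ncard ≤ R := by
    intro c
    have h1 : {d | φ c d ≠ 0} = ((φ c).support : Set D) := by
      ext d
      exact Finsupp.mem_support_iff.symm
    rw [h1]
    refine ⟨(φ c).support.finite_toSet, ?_⟩
    rw [Set.ncard_coe_finset]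
    obtain ⟨h, o, rfl⟩ := exists_rep (H := Γ) c
    have h2 : (φ (h • o.out)).support.card ≤ (φ o.out).support.card := by
      refine Finset.card_le_card_of_injOn (fun d => h⁻¹ • d) ?_ ?_
      · intro d hd
        have hd' := Finsupp.mem_support_iff.1 hd
        rw [hφ, act_apply] at hd'
        exact Finsupp.mem_support_iff.2 hd'
      · intro d _ d' _ e
        exact smul_left_cancel _ e
    refine h2.trans ?_
    rw [hR]
    exact Finset.single_le_sum (f := fun o : Orb Γ C => (φ o.out).support.card)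
      (fun _ _ => Nat.zero_le _) (Finset.mem_univ o)
  -- the rows
  have hrow : ∀ d, {c | φ c d ≠ 0}.Finite ∧ {c | φ c d ≠ 0}.ncard ≤ R := by
    intro d
    -- an injection into the sigma type
    have hrep : ∀ c : C, ∃ h : Γ, h • (Quotient.mk'' c : Orb Γ C).out = c := by
      intro c
      have h2 : (Quotient.mk'' (Quotient.mk'' c : Orb Γ C).out : Orb Γ C) =
          Quotient.mk'' c := Quotient.out_eq' _
      obtain ⟨g, hg⟩ := Quotient.exact' h2.symm
      exact ⟨g, hg⟩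
    choose G hG using hrep
    have hmap : ∀ c ∈ {c | φ c d ≠ 0}, (⟨Quotient.mk'' c, (G c)⁻¹ • d⟩ : Σ _ : Orb Γ C, D) ∈
        (Finset.univ : Finset (Orb Γ C)).sigma fun o => (φ o.out).support := by
      intro c hc
      rw [Finset.mem_sigma]
      refine ⟨Finset.mem_univ _, ?_⟩
      have hc' : φ c d ≠ 0 := hc
      rw [← hG c, hφ, act_apply] at hc'
      exact Finsupp.mem_support_iff.2 hc'
    have hinj : Set.InjOn (fun c => (⟨Quotient.mk'' c, (G c)⁻¹ • d⟩ : Σ _ : Orb Γ C, D))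
        {c | φ c d ≠ 0} := by
      intro c _ c' _ e
      have e1 : (Quotient.mk'' c : Orb Γ C) = Quotient.mk'' c' := congrArg Sigma.fst e
      have e2 : (G c)⁻¹ • d = (G c')⁻¹ • d := congrArg Sigma.snd e
      have e3 : (G c' * (G c)⁻¹) • d = d := by
        rw [mul_smul, e2, smul_inv_smul]
      have e4 : G c' = G c := by
        have := hD _ _ e3
        exact mul_inv_eq_one.1 this
      rw [← hG c, ← hG c', e1, e4]
    have hfs : {c | φ c d ≠ 0}.Finite := by
      exact Set.Finite.of_injOn (fun c hc => Finset.mem_coe.2 (hmap c hc)) hinj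
        (Finset.finite_toSet _)
    refine ⟨hfs, ?_⟩
    have h3 := Set.ncard_le_ncard_of_injOn _ hmap hinj (Finset.finite_toSet _)
    rw [Set.ncard_coe_finset, Finset.card_sigma] at h3
    rw [hR]
    exact h3
  have hB0 : (0 : ℝ) < B := by
    have : 1 ≤ B := by omega
    exact_mod_cast this
  have h1 : ∀ d c, (φ c d : ℝ) / B ≠ 0 ↔ φ c d ≠ 0 := fun d c => by
    rw [div_ne_zero_iff, Int.cast_ne_zero]
    exact ⟨fun h => h.1, fun h => ⟨h, hB0.ne'⟩⟩
  obtain ⟨T, hT⟩ := exists_rop (fun (d : D) (c : C) => (φ c d : ℝ) / B) R (by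
      intro d c
      rw [abs_div, abs_of_pos hB0, div_le_one hB0]
      have := hent c d
      exact_mod_cast this) (by
      intro d
      simp only [h1]
      exact hrow d) (by
      intro c
      simp only [h1]
      exact hcol c)
  refine ⟨(B : ℝ) • T, fun z d => ?_⟩
  have h2 : (((B : ℝ) • T) z) d = (B : ℝ) * (T z) d := rfl
  rw [h2, hT, mul_finsum]
  refine finsum_congr fun q => ?_
  field_simp

theorem opZ_delta {φ : C → (D →₀ ℤ)} {T : L2 C →L[ℝ] L2 D}
    (hT : ∀ z d, (T z) d = ∑ᶠ c, (φ c d : ℝ) * z c) (c : C) (d : D) :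
    (T (delta c)) d = (φ c d : ℝ) := by
  rw [hT, finsum_eq_single _ c]
  · rw [delta_self, mul_one]
  · intro c' hc'
    rw [delta_ne hc', mul_zero]

theorem opZ_opZ_delta {φ : C → (D →₀ ℤ)} {T : L2 C →L[ℝ] L2 D}
    (hT : ∀ z d, (T z) d = ∑ᶠ c, (φ c d : ℝ) * z c) {ψ : D → (E →₀ ℤ)} {S : L2 D →L[ℝ] L2 E}
    (hS : ∀ z e, (S z) e = ∑ᶠ d, (ψ d e : ℝ) * z d) (c : C) (e : E) :
    (S (T (delta c))) e = ((lin ψ (φ c) e : ℤ) : ℝ) := by
  classical
  rw [hS]
  simp only [opZ_delta hT]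
  rw [lin, Finsupp.linearCombination_apply, Finsupp.sum_apply, Finsupp.sum, Int.cast_sum,
    finsum_eq_sum_of_support_subset (s := (φ c).support)]
  · refine Finset.sum_congr rfl fun d _ => ?_
    rw [Finsupp.smul_apply, smul_eq_mul, Int.cast_mul, mul_comm]
  · intro d hd
    rw [Function.mem_support] at hd
    exact Finsupp.mem_support_iff.2 (Int.cast_ne_zero.1 (right_ne_zero_of_mul hd))

/-- Two bounded operators which agree on the cells of `A`. -/
theorem clm_ext_sup (S T : L2 C →L[ℝ] L2 D) (A : Set C)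
    (h : ∀ c ∈ A, S (delta c) = T (delta c)) {z : L2 C} (hz : z ∈ sup A) : S z = T z := by
  classical
  have h1 : HasSum (fun c => lp.single (E := fun _ : C => ℝ) 2 c (z c)) z :=
    lp.hasSum_single (by norm_num) z
  have h2 : ∀ c, lp.single (E := fun _ : C => ℝ) 2 c (z c) = z c • (delta c : L2 C) := by
    intro c
    apply l2_ext
    intro p
    show _ = z c * (delta c : L2 C) p
    by_cases hp : p = c
    · subst hp
      rw [delta_self, mul_one]
      exact lp.single_apply_self _ _ _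
    · rw [delta_ne hp, mul_zero]
      exact lp.single_apply_ne _ _ _ hp
  have h3 := h1.mapL S
  have h4 := h1.mapL T
  have h5 : (fun c => S (lp.single (E := fun _ : C => ℝ) 2 c (z c))) =
      fun c => T (lp.single (E := fun _ : C => ℝ) 2 c (z c)) := by
    funext c
    rw [h2, map_smul, map_smul]
    by_cases hc : c ∈ A
    · rw [h c hc]
    · rw [hz c hc, zero_smul, zero_smul]
  rw [h5] at h3
  exact h3.unique h4

theorem rs_univ (z : L2 C) : rs Set.univ z = z := by
  apply l2_ext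
  intro c
  exact rs_of_mem z (Set.mem_univ c)

/-- An operator of degree `j - k` maps `k`-chains to `j`-chains. -/
theorem opZ_sup {φ : C → (D →₀ ℤ)} {T : L2 C →L[ℝ] L2 D}
    (hT : ∀ z d, (T z) d = ∑ᶠ c, (φ c d : ℝ) * z c) {A : Set C} {B : Set D}
    (h : ∀ c ∈ A, ∀ d, φ c d ≠ 0 → d ∈ B) {z : L2 C} (hz : z ∈ sup A) : T z ∈ sup B := by
  intro d hd
  rw [hT]
  refine (finsum_congr fun c => ?_).trans finsum_zero
  by_cases hc : c ∈ A
  · have h0 : φ c d = 0 := by
      by_contra h0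
      exact hd (h c hc d h0)
    rw [h0, Int.cast_zero, zero_mul]
  · rw [hz c hc, mul_zero]

/-- Domination. -/
theorem nh_dom {X : Cx ℤ C} {Y : Cx ℤ D} (hX : IsCx Γ X) (hY : IsCx Γ Y)
    (hCf : Finite (Orb Γ C)) (hDf : Finite (Orb Γ D)) {N k : ℕ} (hk : k + 1 ≤ N)
    {i : C → (D →₀ ℤ)} {r : D → (C →₀ ℤ)} {h : C → (C →₀ ℤ)} (hi : IsMap Γ X Y N i)
    (hr : IsMap Γ Y X N r) (he : ∀ (g : Γ) c, h (g • c) = act ℤ g (h c))
    (hd : ∀ c, InDim X (X.dim c + 1) (h c))
    (hh : ∀ c, X.dim c ≤ N → lin X.bd (h c) + lin h (X.bd c) =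
      Finsupp.single c (1 : ℤ) - lin r (i c))
    (hN : NH (toCell Y) Set.univ k) : NH (toCell X) Set.univ k := by
  classical
  have hFX := fc_of_isCx hX hCf
  have hFY := fc_of_isCx hY hDf
  obtain ⟨DX, hDX, hDX', -⟩ := hFX.exists_D
  obtain ⟨DY, hDY, hDY', -⟩ := hFY.exists_D
  have hDXo : ∀ z p, (DX z) p = ∑ᶠ q, (X.bd q p : ℝ) * z q := hDX
  have hDYo : ∀ z p, (DY z) p = ∑ᶠ q, (Y.bd q p : ℝ) * z q := hDY
  obtain ⟨TI, hTI⟩ := exists_opZ hY.free hCf i hi.equi
  obtain ⟨TR, hTR⟩ := exists_opZ hX.free hDf r hr.equi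
  obtain ⟨TH, hTH⟩ := exists_opZ hX.free hCf h he
  have hcX : Cvx (toCell X) Set.univ := fun _ _ _ _ _ _ _ => Set.mem_univ _
  have hcY : Cvx (toCell Y) Set.univ := fun _ _ _ _ _ _ _ => Set.mem_univ _
  rw [nh_iff hFY hDY hDY' hcY] at hN
  rw [nh_iff hFX hDX hDX' hcX]
  intro x hx hx0
  rw [rs_univ] at hx0
  -- the closure of the boundaries
  obtain ⟨B, hB⟩ : ∃ B : Submodule ℝ (L2 C), B = ((sup (lev (toCell X) Set.univ (k + 1))).map
    (DX : L2 C →ₗ[ℝ] L2 C)).topologicalClosure := ⟨_, rfl⟩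
  have hBm : ∀ v, v ∈ B ↔ v ∈ closure ((fun w => rs Set.univ (DX w)) ''
      (sup (lev (toCell X) Set.univ (k + 1)) : Set (L2 C))) := by
    intro v
    rw [hB, ← SetLike.mem_coe, Submodule.topologicalClosure_coe, Submodule.map_coe]
    simp only [rs_univ]
    rfl
  rw [← hBm]
  have hBc : IsClosed (B : Set (L2 C)) := by
    rw [hB]
    exact Submodule.isClosed_topologicalClosure _
  have hBmk : ∀ w ∈ sup (lev (toCell X) Set.univ (k + 1)), DX w ∈ B := by
    intro w hw
    rw [hBm]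
    refine subset_closure ⟨w, hw, ?_⟩
    exact rs_univ _
  -- the maps on `k`-chains
  have hlev : ∀ (c : C) (j : ℕ), c ∈ lev (toCell X) Set.univ j ↔ X.dim c = j := fun c j =>
    ⟨fun h => h.2, fun h => ⟨Set.mem_univ _, h⟩⟩
  have hlevY : ∀ (c : D) (j : ℕ), c ∈ lev (toCell Y) Set.univ j ↔ Y.dim c = j := fun c j =>
    ⟨fun h => h.2, fun h => ⟨Set.mem_univ _, h⟩⟩
  have hIk : TI x ∈ sup (lev (toCell Y) Set.univ k) := by
    refine opZ_sup hTI (fun c hc d hcd => ?_) hx
    rw [hlevY, hi.dim c d hcd]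
    exact (hlev c k).1 hc
  have hHk : TH x ∈ sup (lev (toCell X) Set.univ (k + 1)) := by
    refine opZ_sup hTH (fun c hc d hcd => ?_) hx
    rw [hlev, hd c d hcd, (hlev c k).1 hc]
  have e1 : DY (TI x) = TI (DX x) := by
    refine clm_ext_sup (DY.comp TI) (TI.comp DX) (lev (toCell X) Set.univ k) (fun c hc => ?_) hx
    apply l2_ext
    intro d
    rw [ContinuousLinearMap.comp_apply, ContinuousLinearMap.comp_apply, opZ_opZ_delta hTI hDYo,
      opZ_opZ_delta hDXo hTI, hi.bd c (by rw [(hlev c k).1 hc]; omega)]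
  have e2 : ∀ w ∈ sup (lev (toCell Y) Set.univ (k + 1)), TR (DY w) = DX (TR w) := by
    intro w hw
    refine clm_ext_sup (TR.comp DY) (DX.comp TR) (lev (toCell Y) Set.univ (k + 1))
      (fun c hc => ?_) hw
    apply l2_ext
    intro d
    rw [ContinuousLinearMap.comp_apply, ContinuousLinearMap.comp_apply, opZ_opZ_delta hTR hDXo,
      opZ_opZ_delta hDYo hTR, hr.bd c (by rw [(hlevY c _).1 hc]; omega)]
  have e3 : DX (TH x) + TH (DX x) = x - TR (TI x) := by
    refine clm_ext_sup (DX.comp TH + TH.comp DX) (ContinuousLinearMap.id ℝ _ - TR.comp TI)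
      (lev (toCell X) Set.univ k) (fun c hc => ?_) hx
    apply l2_ext
    intro d
    show (DX (TH (delta c))) d + (TH (DX (delta c))) d = (delta c : L2 C) d - (TR (TI (delta c))) d
    rw [opZ_opZ_delta hTH hDXo, opZ_opZ_delta hDXo hTH, opZ_opZ_delta hTI hTR]
    have h4 := DFunLike.congr_fun (hh c (by rw [(hlev c k).1 hc]; omega)) d
    rw [Finsupp.add_apply, Finsupp.sub_apply] at h4
    have h5 : ((Finsupp.single c (1 : ℤ) d : ℤ) : ℝ) = (delta c : L2 C) d := by
      by_cases hcd : d = c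
      · subst hcd
        rw [Finsupp.single_eq_same, delta_self, Int.cast_one]
      · rw [Finsupp.single_eq_of_ne hcd, delta_ne hcd, Int.cast_zero]
    rw [← h5]
    have h7 := congrArg (Int.cast : ℤ → ℝ) h4
    rw [Int.cast_add, Int.cast_sub] at h7
    exact h7
  have h1 : TR (TI x) ∈ B := by
    have h2 := hN (TI x) hIk (by rw [rs_univ, e1, hx0, map_zero])
    have h3 : TI x ∈ TR ⁻¹' (B : Set (L2 C)) := by
      refine closure_minimal ?_ (hBc.preimage TR.continuous) h2
      rintro _ ⟨w, hw, rfl⟩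
      show TR (rs Set.univ (DY w)) ∈ B
      rw [rs_univ, e2 w hw]
      apply hBmk
      refine opZ_sup hTR (fun c hc d hcd => ?_) hw
      rw [hlev, hr.dim c d hcd]
      exact (hlevY c _).1 hc
    exact h3
  rw [hx0, map_zero, add_zero] at e3
  have h6 : x = TR (TI x) + DX (TH x) := by
    rw [e3]
    abel
  rw [h6]
  exact add_mem h1 (hBmk _ hHk)

end

end ThickThin
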