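import Mathlib

/-!
# Thick-thin: definitions for the statement on the growth of the cohomology
-/

namespace ThickThin

open Module

/-- The dimension of the space of the vectors of the representation `A` which are fixed by `z`. -/
noncomputable def fixDim {Γ F : Type} [Group Γ] [Field F] (A : Rep.{0} F Γ) (z : Γ) : ℕ :=
  finrank F (LinearMap.ker (A.ρ z - 1))

/-- The dimension of `H^n(Γ, A)`. -/
noncomputable def cohDim {Γ F : Type} [Group Γ] [Field F] (A : Rep.{0} F Γ) (n : ℕ) : ℕ :=
  finrank F (groupCohomology A n)

/-- There is a finite-dimensional representation of `Γ` over some field for which the dimension of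
the cohomology in degree `n` exceeds the sum of the dimensions of the spaces of the vectors fixed by
the members of `L`. -/
def LargeCoh {Γ : Type} [Group Γ] (L : List Γ) (n : ℕ) : Prop :=
  ∃ (F : Type) (_ : Field F) (A : Rep.{0} F Γ), FiniteDimensional F A ∧
    (L.map (fixDim A)).sum < cohDim A n

end ThickThin
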