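import Mathlib
import Pool.Agent.Lib_MP_9dbe3a.ADim
import Pool.Agent.Lib_MP_9dbe3a.AGroDefs

/-!
# Thick-thin: a uniform bound for the cohomology with finite-dimensional coefficients
-/

namespace ThickThin

open MeasureTheory SingerVS SingerCub CategoryTheory Module
open scoped Pointwise

section

variable {Γ C D V : Type} [Group Γ] [MulAction Γ C] [MulAction Γ D] [AddCommGroup V]

/-- A cocycle of a retract is a coboundary if its pull-back is. -/
theorem retract_coh {B : Cx ℤ D} {S : Cx ℤ C} (hB : IsCx Γ B) (ρ : Γ →* AddMonoid.End V) {n : ℕ}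
    {ψ : D → (C →₀ ℤ)} {β : C → (D →₀ ℤ)} {H : D → (D →₀ ℤ)} (hψ : IsMap Γ B S (n + 1) ψ)
    (hH1 : ∀ (g : Γ) c, H (g • c) = act ℤ g (H c)) (hH2 : ∀ c, InDim B (B.dim c + 1) (H c))
    (hH3 : ∀ c, B.dim c ≤ n + 1 → lin B.bd (H c) + lin H (B.bd c) =
      Finsupp.single c (1 : ℤ) - lin β (ψ c)) {u : D → V}
    (hu : ∀ (g : Γ) c, u (g • c) = ρ g (u c)) (hc : ∀ c, B.dim c = n + 1 → lin u (B.bd c) = 0)
    {G : C → V} (hG1 : ∀ (g : Γ) c, G (g • c) = ρ g (G c))
    (hG2 : ∀ c, S.dim c = n → lin u (β c) = lin G (S.bd c)) :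
    ∃ w : D → V, (∀ (g : Γ) c, w (g • c) = ρ g (w c)) ∧
      ∀ c, B.dim c = n → u c = lin w (B.bd c) := by
  have _ := hB
  have hlinlin : ∀ {C' : Type} (f : C' → (D →₀ ℤ)) (x : C' →₀ ℤ),
      lin u (lin f x) = lin (fun c => lin u (f c)) x := fun f x => lin_lin f u x
  refine ⟨fun d => lin G (ψ d) + lin u (H d), ?_, ?_⟩
  · intro g d
    show lin G (ψ (g • d)) + lin u (H (g • d)) = ρ g (lin G (ψ d) + lin u (H d))
    rw [hψ.equi, hH1, lin_actV ρ hG1, lin_actV ρ hu, map_add]
  · intro d hd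
    have h1 := congrArg (lin u) (hH3 d (by omega))
    rw [map_add, map_sub, lin_single, hlinlin, hlinlin, hlinlin] at h1
    have h2 : lin (fun c => lin u (B.bd c)) (H d) = 0 := by
      have h3 : lin (fun c => lin u (B.bd c)) (H d) = lin (fun _ => (0 : V)) (H d) := by
        apply lin_congr
        intro e he
        refine hc e ?_
        rw [hH2 d e he, hd]
      rw [h3, lin, Finsupp.linearCombination_apply, Finsupp.sum]
      exact Finset.sum_eq_zero fun _ _ => smul_zero _
    rw [h2, zero_add] at h1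
    have h4 : lin (fun c => lin u (β c)) (ψ d) = lin (fun c => lin G (ψ c)) (B.bd d) := by
      have h5 : lin (fun c => lin u (β c)) (ψ d) = lin (fun c => lin G (S.bd c)) (ψ d) := by
        apply lin_congr
        intro e he
        refine hG2 e ?_
        rw [hψ.dim d e he, hd]
      rw [h5, ← lin_lin, hψ.bd d (by omega), lin_lin]
    have h6 : lin (fun d => lin G (ψ d) + lin u (H d)) (B.bd d) =
        lin (fun c => lin G (ψ c)) (B.bd d) + lin (fun c => lin u (H c)) (B.bd d) := by
      rw [lin, lin, lin, Finsupp.linearCombination_apply, Finsupp.linearCombination_apply,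
        Finsupp.linearCombination_apply, ← Finsupp.sum_add]
      apply Finsupp.sum_congr
      intro c _
      rw [smul_add]
    rw [h6, ← h4, h1]
    abel

end

section

variable {Γ k : Type} [Group Γ] [CommRing k] (A : Rep.{0} k Γ)

/-- A cochain as an equivariant cochain of the bar complex. -/
noncomputable def barT (n : ℕ) : ((Fin n → Γ) → A) →ₗ[k] (Bar Γ → A) where
  toFun f := fun c => if h : c.n = n then
    A.ρ c.hd (f fun i => c.tl (Fin.cast h.symm i)) else 0
  map_add' f f' := by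
    funext c
    by_cases h : c.n = n
    · simp only [dif_pos h, Pi.add_apply, map_add]
    · simp only [dif_neg h, Pi.add_apply, add_zero]
  map_smul' r f := by
    funext c
    by_cases h : c.n = n
    · simp only [dif_pos h, Pi.smul_apply, map_smul, RingHom.id_apply]
    · simp only [dif_neg h, Pi.smul_apply, smul_zero]

theorem barT_apply (n : ℕ) (f : (Fin n → Γ) → A) (g : Γ) (x : Fin n → Γ) :
    barT A n f ⟨g, n, x⟩ = A.ρ g (f x) := by
  show (if h : n = n then A.ρ g (f fun i => x (Fin.cast h.symm i)) else 0) = _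
  rw [dif_pos rfl]
  rfl

theorem barT_smul (n : ℕ) (f : (Fin n → Γ) → A) (g : Γ) (c : Bar Γ) :
    barT A n f (g • c) = rhoE A g (barT A n f c) := by
  obtain ⟨h, m, x⟩ := c
  by_cases hm : m = n
  · subst hm
    rw [bar_smul, barT_apply, barT_apply, rhoE_apply, map_mul]
    rfl
  · show (if h' : m = n then A.ρ (g * h) (f fun i => x (Fin.cast h'.symm i)) else 0) =
      rhoE A g (if h' : m = n then A.ρ h (f fun i => x (Fin.cast h'.symm i)) else 0)
    rw [dif_neg hm, dif_neg hm, map_zero]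

theorem lin_barBd (w : Bar Γ → A) (g : Γ) (m : ℕ) (x : Fin (m + 1) → Γ) :
    lin w (barBd ⟨g, m + 1, x⟩) = w ⟨g * x 0, m, fun i => x i.succ⟩ +
      ∑ j : Fin (m + 1), ((-1 : k) ^ ((j : ℕ) + 1)) •
        w ⟨g, m, Fin.contractNth j (· * ·) x⟩ := by
  have hneg : ∀ (m : ℕ) (v : A), ((-1 : ℤ) ^ m) • v = ((-1 : k) ^ m) • v := by
    intro m v
    rw [← Int.cast_smul_eq_zsmul k ((-1 : ℤ) ^ m) v]
    norm_num
  rw [barBd_succ, map_add, map_sum, lin_single]
  congr 1
  refine Finset.sum_congr rfl fun j _ => ?_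
  rw [map_smul, lin_single, hneg]

theorem barT_cocycle {n : ℕ} (y : groupCohomology.cocycles A n) :
    ∀ c : Bar Γ, c.n = n + 1 → lin (barT A n (groupCohomology.iCocycles A n y)) (barBd c) = 0 := by
  obtain ⟨f, hf⟩ : ∃ f : (Fin n → Γ) → A, f = groupCohomology.iCocycles A n y := ⟨_, rfl⟩
  have hdf : inhomogeneousCochains.d A n f = 0 := by
    rw [hf]
    have h1 := (groupCohomology.inhomogeneousCochains A).iCycles_d n (n + 1)
    have h2 := congrArg (fun φ => φ.hom y) h1
    have h3 : (groupCohomology.inhomogeneousCochains A).d n (n + 1) =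
        inhomogeneousCochains.d A n := groupCohomology.inhomogeneousCochains.d_def A n
    rw [h3] at h2
    exact h2
  rw [← hf]
  rintro ⟨g, m, x⟩ hm
  have hm' : m = n + 1 := hm
  subst hm'
  rw [lin_barBd, barT_apply]
  simp only [barT_apply]
  have h1 := congrFun hdf x
  rw [inhomogeneousCochains.d_hom_apply] at h1
  have h2 := congrArg (A.ρ g) h1
  rw [map_add, map_sum] at h2
  simp only [map_smul] at h2
  have h3 : A.ρ g ((0 : (Fin (n + 1) → Γ) → A) x) = 0 := map_zero _
  rw [← h3]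
  refine Eq.trans ?_ h2
  rw [map_mul]
  rfl

theorem pi_eq_zero {n : ℕ} (y : groupCohomology.cocycles A n) (w : Bar Γ → A)
    (hw1 : ∀ (g : Γ) c, w (g • c) = rhoE A g (w c))
    (hw2 : ∀ c : Bar Γ, c.n = n →
      barT A n (groupCohomology.iCocycles A n y) c = lin w (barBd c)) :
    groupCohomology.π A n y = 0 := by
  obtain ⟨f, hf⟩ : ∃ f : (Fin n → Γ) → A, f = groupCohomology.iCocycles A n y := ⟨_, rfl⟩
  rw [← hf] at hw2
  have hinj : Function.Injective (groupCohomology.iCocycles A n) :=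
    (ModuleCat.mono_iff_injective _).1 inferInstance
  cases n with
  | zero =>
    have h1 : f = 0 := by
      funext x
      have h2 := hw2 ⟨1, 0, x⟩ rfl
      rw [barT_apply, barBd_zero, map_zero, map_one] at h2
      exact h2
    have h2 : y = 0 := by
      apply hinj
      rw [← hf, h1, map_zero]
    rw [h2, map_zero]
  | succ m =>
    obtain ⟨g, hg⟩ : ∃ g : (Fin m → Γ) → A, g = fun x => w ⟨1, m, x⟩ := ⟨_, rfl⟩
    have h1 : f = inhomogeneousCochains.d A m g := by
      funext x
      have h2 := hw2 ⟨1, m + 1, x⟩ rfl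
      rw [barT_apply, map_one, lin_barBd] at h2
      rw [inhomogeneousCochains.d_hom_apply]
      refine Eq.trans h2 ?_
      rw [hg]
      congr 1
      have h3 := hw1 (x 0) ⟨1, m, fun i => x i.succ⟩
      rw [bar_smul, mul_one] at h3
      rw [one_mul, h3]
      rfl
    have h2 : y = groupCohomology.toCocycles A m (m + 1) g := by
      apply hinj
      rw [← hf, h1]
      have h3 := (groupCohomology.inhomogeneousCochains A).toCycles_i m (m + 1)
      have h4 := congrArg (fun φ => φ.hom g) h3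
      have h5 : (groupCohomology.inhomogeneousCochains A).d m (m + 1) =
        inhomogeneousCochains.d A m := groupCohomology.inhomogeneousCochains.d_def A m
      rw [h5] at h4
      exact h4.symm
    rw [h2]
    have h3 := (groupCohomology.inhomogeneousCochains A).toCycles_comp_homologyπ m (m + 1)
    exact congrArg (fun φ => φ.hom g) h3

end

theorem finrank_le_of_ker {F Z H W : Type} [Field F] [AddCommGroup Z] [Module F Z]
    [AddCommGroup H] [Module F H] [AddCommGroup W] [Module F W] [FiniteDimensional F W]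
    (π : Z →ₗ[F] H) (hπ : Function.Surjective π) (Ψ : Z →ₗ[F] W)
    (h : ∀ z, Ψ z = 0 → π z = 0) : finrank F H ≤ finrank F W := by
  have hle : LinearMap.ker Ψ ≤ LinearMap.ker π := fun z hz => h z hz
  let g : LinearMap.range Ψ →ₗ[F] H :=
    ((LinearMap.ker Ψ).liftQ π hle) ∘ₗ Ψ.quotKerEquivRange.symm.toLinearMap
  have hg : Function.Surjective g := by
    intro x
    obtain ⟨z, rfl⟩ := hπ x
    refine ⟨⟨Ψ z, LinearMap.mem_range_self Ψ z⟩, ?_⟩
    show (LinearMap.ker Ψ).liftQ π hle (Ψ.quotKerEquivRange.symm ⟨Ψ z, _⟩) = π z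
    rw [LinearMap.quotKerEquivRange_symm_apply_image]
    rfl
  have h1 := LinearMap.finrank_le_finrank_of_surjective (f := g) hg
  exact h1.trans (Submodule.finrank_le _)

section

variable {Γ Y : Type} [Group Γ] [MetricSpace Y] [MulAction Γ Y] [MeasurableSpace Y] [BorelSpace Y]
  {μ : Measure Y} {a : ℝ}

/-- The uniform bound. -/
theorem dim_of_leave (h : FinVol Γ Y μ) (hY : BNC a Y) [Nonempty Y] {ε : ℝ} (hε : 0 < ε)
    {C : Type} [MulAction Γ C] {X : Cx ℤ C} (hX : IsCx Γ X) (hA : Acy X)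
    (hfin : Finite (Orb Γ C)) (hall : ∀ K : Set (Quo Γ Y), IsCompact K → CanLeave K) (n : ℕ) :
    ∃ L : List Γ, (∀ z ∈ L, IsSmall Y ε z) ∧ ∀ (F : Type) [Field F] (A : Rep.{0} F Γ)
      [FiniteDimensional F A], finrank F (groupCohomology A n) ≤
        (L.map fun z => finrank F (LinearMap.ker (A.ρ z - 1))).sum := by
  classical
  obtain ⟨S, J, hJ, hsmall, hfinS, φ, hφ⟩ := exists_LS h hY hε hX hfin hall
  obtain ⟨α, hα⟩ := exists_map (barCx_isCx (Γ := Γ)) hX hA (n + 1)
  obtain ⟨β, hβ⟩ := exists_map S.isCx (barCx_isCx (Γ := Γ)) barCx_acy (n + 1)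
  have hψ := hα.comp (hφ (n + 1))
  obtain ⟨ψ, hψdef⟩ : ∃ ψ : Bar Γ → (S.Cell →₀ ℤ), ψ = fun c => lin φ (α c) := ⟨_, rfl⟩
  rw [← hψdef] at hψ
  obtain ⟨H, hH1, hH2, hH3⟩ := exists_homotopy barCx_isCx barCx_isCx barCx_acy
    (isMap_id (n + 1)) (hψ.comp hβ) (n + 1) le_rfl
  have hfinT : Finite (Orb Γ S.T) := by
    refine Finite.of_surjective (fun o : Orb Γ S.Cell => (Quotient.mk'' o.out.1 : Orb Γ S.T)) ?_
    intro o
    induction o using Quotient.inductionOn' with
    | h l =>
      refine ⟨Quotient.mk'' ((l, false) : S.T × Bool), ?_⟩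
      have h1 : (Quotient.mk'' (Quotient.mk'' ((l, false) : S.T × Bool) : Orb Γ S.Cell).out :
          Orb Γ S.Cell) = Quotient.mk'' ((l, false) : S.T × Bool) := Quotient.out_eq' _
      obtain ⟨g, hg⟩ := Quotient.exact' h1
      refine Quotient.sound' ⟨g, ?_⟩
      exact congrArg Prod.fst hg
  have iT : Fintype (Orb Γ S.T) := Fintype.ofFinite _
  obtain ⟨M, hM⟩ : ∃ M : List Γ, M = (Finset.univ : Finset (Orb Γ S.T)).toList.flatMap
    fun o => o.out.1.map S.z := ⟨_, rfl⟩
  have hMs : ∀ z ∈ M, IsSmall Y ε z := by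
    intro z hz
    rw [hM, List.mem_flatMap] at hz
    obtain ⟨o, _, ho⟩ := hz
    obtain ⟨x, hx, rfl⟩ := List.mem_map.1 ho
    exact hsmall _ o.out.2 x hx
  have hsum : ∀ f : Γ → ℕ, ∑ o : Orb Γ S.T, (o.out.1.map fun x => f (S.z x)).sum =
      (M.map f).sum := by
    intro f
    rw [hM, ← Finset.sum_map_toList]
    generalize (Finset.univ : Finset (Orb Γ S.T)).toList = l
    induction l with
    | nil => rfl
    | cons o l ih =>
      rw [List.map_cons, List.sum_cons, List.flatMap_cons, List.map_append, List.sum_append, ih,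
        List.map_map]
      rfl
  refine ⟨M ++ M, fun z hz => ?_, fun F _ A _ => ?_⟩
  · rcases List.mem_append.1 hz with h1 | h1
    · exact hMs z h1
    · exact hMs z h1
  rw [List.map_append, List.sum_append, ← two_mul,
    ← hsum fun z => finrank F (LinearMap.ker (A.ρ z - 1))]
  obtain ⟨W, _, _, _, Φ, hW, hΦ⟩ := S.coh_dim (V := A) A.ρ (rhoE A) (fun g v => rhoE_apply A g v) n
  refine le_trans ?_ hW
  let pull : (Bar Γ → A) →ₗ[F] (S.Cell → A) := LinearMap.pi fun c => evL (β c)
  have hpull : ∀ u c, pull u c = lin u (β c) := fun u c => evL_apply _ _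
  have hsurj : Function.Surjective (groupCohomology.π A n).hom := by
    intro x
    induction x using groupCohomology_induction_on with
    | h y => exact ⟨y, rfl⟩
  refine finrank_le_of_ker (groupCohomology.π A n).hom hsurj
    (Φ ∘ₗ pull ∘ₗ (barT A n) ∘ₗ (groupCohomology.iCocycles A n).hom) fun y hy => ?_
  obtain ⟨u, hu⟩ : ∃ u : Bar Γ → A, u = barT A n (groupCohomology.iCocycles A n y) := ⟨_, rfl⟩
  have hue : ∀ (g : Γ) c, u (g • c) = rhoE A g (u c) := by
    intro g c
    rw [hu]
    exact barT_smul A n _ g c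
  have huc : ∀ c : Bar Γ, c.n = n + 1 → lin u (barBd c) = 0 := by
    rw [hu]
    exact barT_cocycle A y
  have hpe : ∀ c, pull u c = lin u (β c) := hpull u
  have hΦ0 : Φ (pull u) = 0 := by
    rw [hu]
    exact hy
  obtain ⟨G, hG1, hG2⟩ := hΦ (pull u) (fun g c => by
      rw [hpe, hpe, hβ.equi, lin_actV (rhoE A) hue]) (fun c hcd => by
      have e0 : lin (pull u) (S.cx.bd c) = lin (fun c => lin u (β c)) (S.cx.bd c) :=
        lin_congr fun c _ => hpe c
      rw [e0, ← lin_lin, ← hβ.bd c (by rw [hcd]), lin_lin]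
      have h1 : lin (fun c => lin u ((barCx Γ).bd c)) (β c) = lin (fun _ => (0 : A)) (β c) := by
        apply lin_congr
        intro d hd
        refine huc d ?_
        have := hβ.dim c d hd
        rw [hcd] at this
        exact this
      rw [h1, lin, Finsupp.linearCombination_apply, Finsupp.sum]
      exact Finset.sum_eq_zero fun _ _ => smul_zero _) hΦ0
  obtain ⟨w, hw1, hw2⟩ := retract_coh barCx_isCx (rhoE A) hψ hH1 hH2 hH3 hue huc hG1
    (fun c hc => by
      rw [← hpe]
      exact hG2 c hc)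
  refine pi_eq_zero A y w hw1 fun c hc => ?_
  rw [← hu]
  exact hw2 c hc

theorem growth_main (h : FinVol Γ Y μ) (hY : BNC a Y) [Nonempty Y] {P : Type} [LinearOrder P]
    [MulAction Γ P] {X : Set (Finset P)} (hX : FreeCx Γ X) (hA : AcyX X) {ε : ℝ} (hε : 0 < ε)
    (n : ℕ) (hn : ∀ L : List Γ, (∀ z ∈ L, IsSmall Y ε z) → LargeCoh L n) :
    ∃ K : Set (Quo Γ Y), IsCompact K ∧ ¬ CanLeave K := by
  classical
  by_contra hno
  have hall : ∀ K : Set (Quo Γ Y), IsCompact K → CanLeave K := by
    intro K hK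
    by_contra h1
    exact hno ⟨K, hK, h1⟩
  obtain ⟨I, s, hs, hs1, hSI, hdim, hinc, hFI⟩ := exists_inv' hX
  let iA : MulAction Γ (SX X) := sxAct (K := Γ) hX.inv
  have hsm : ∀ (g : Γ) (c : SX X), (g • c).1 = g • c.1 := fun _ _ => rfl
  obtain ⟨L, hL1, hL2⟩ := dim_of_leave h hY hε (sCx_isCx hX hsm hSI hFI)
    (sCx_acy hX hsm hA hSI hFI hs hs1 hinc) hFI.cofin hall n
  obtain ⟨F, _, A, hfd, hlt⟩ := hn L hL1
  exact absurd (hL2 F A) (not_le.2 hlt)

end

end ThickThin
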