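import Mathlib
import Pool.Agent.Lib_MP_9dbe3a.ANh

/-!
# Thick-thin, algebra: the cone has no harmonic chains (end)
-/

namespace ThickThin

open SingerVS SingerCub

theorem C0.comp {C D : Type} {u : C → ℝ} (hu : C0 u) {ι : D → C} (hι : Function.Injective ι) :
    C0 (fun d => u (ι d)) := fun ε hε =>
  Set.Finite.preimage (f := ι) (s := {c | ε ≤ |u c|}) hι.injOn (hu ε hε)

theorem finsum_range {C D : Type} (ι : D → C) (hι : Function.Injective ι) (f : C → ℝ)
    (hf : ∀ c, c ∉ Set.range ι → f c = 0) : ∑ᶠ c, f c = ∑ᶠ d, f (ι d) := by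
  rw [← finsum_mem_range hι, finsum_mem_def]
  refine finsum_congr fun c => ?_
  by_cases h : c ∈ Set.range ι
  · rw [Set.indicator_of_mem h]
  · rw [Set.indicator_of_notMem h, hf c h]

namespace LS

variable {Γ V : Type} [Group Γ] [MulAction Γ V] (S : LS Γ V)

theorem pr_io (z : S.Cell → ℝ) (b : Bool) (w : S.T →₀ ℤ) :
    pr z (S.io b w) = pr (fun m => z (m, b)) w := by
  unfold pr
  induction w using Finsupp.induction_linear with
  | zero => simp only [map_zero]
  | add a c ha hc => rw [map_add, map_add, map_add, ha, hc]
  | single c r =>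
    rw [io_single, lin, lin, Finsupp.linearCombination_single, Finsupp.linearCombination_single]

theorem nh (hinf : ∀ l ∈ S.A, ∀ x ∈ l, ∀ n : ℕ, n ≠ 0 → S.z x ^ n ≠ 1)
    (hfin : Finite (Orb Γ S.Cell)) {J : ℕ} (hJ : ∀ l ∈ S.A, l.length < J) (k : ℕ) :
    NH (toCell S.cx) Set.univ k := by
  classical
  have hF := fc_of_isCx S.isCx hfin
  refine nh_filtration hF (fun _ _ _ _ _ _ _ => Set.mem_univ _) (fun _ _ _ => Set.mem_univ _)
    (fun c => c.1.1.length) ?_ (fun h c => by
      show (c.1.1.map (h • ·)).length = _
      rw [List.length_map]) J (fun c _ => hJ c.1.1 c.1.2) k ?_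
  · rintro ⟨m, b'⟩ _ ⟨l, b⟩ _ h
    have hl := S.length_pos l.2
    show m.1.length ≤ l.1.length
    have hp : S.bB ((l, b) : S.T × Bool) ((m, b') : S.T × Bool) ≠ 0 := h
    cases b
    · have hp' : S.io false (S.bS l.1) ((m, b') : S.T × Bool) ≠ 0 := hp
      cases b'
      · rw [io_apply] at hp'
        have h1 := S.lenBS (l := l.1) (k := l.1.length - 1) (by omega) m hp'
        omega
      · rw [S.io_apply_ne (by decide)] at hp'
        exact absurd rfl hp'
    · have hp' : (S.io false (S.tS l.1) - S.io true (S.bZ l.1)) ((m, b') : S.T × Bool) ≠ 0 := hp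
      rw [Finsupp.sub_apply] at hp'
      cases b'
      · rw [io_apply, S.io_apply_ne (by decide), sub_zero] at hp'
        have h1 := S.lenTS l.1 m hp'
        omega
      · rw [io_apply, S.io_apply_ne (by decide), zero_sub, neg_ne_zero] at hp'
        have h1 := S.lenBZ (l := l.1) (k := l.1.length - 1) (by omega) m hp'
        omega
  · intro j _ z hz h1 h2
    apply l2_ext
    rintro ⟨l, b⟩
    show z (l, b) = 0
    by_contra hne
    obtain ⟨⟨-, hlj⟩, hdim⟩ := hz (l, b) hne
    have hlj' : l.1.length = j := hlj
    have hlpos := S.length_pos l.2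
    have hg : ∀ g ∈ S.lab l, ∀ n : ℕ, n ≠ 0 → g ^ n ≠ 1 := by
      intro g hg
      obtain ⟨v, hv, rfl⟩ := List.mem_map.1 hg
      exact hinf l.1 l.2 v hv
    have hlen : ∀ m : S.T, S.lab m = S.lab l → m.1.length = j := by
      intro m hm
      have := congrArg List.length hm
      unfold lab at this
      rw [List.length_map, List.length_map] at this
      omega
    cases b
    · have hk : l.1.length - 1 = k := hdim
      have hzt : ∀ m : S.T, z (m, true) = 0 := by
        intro m
        by_contra h3
        obtain ⟨⟨-, h4⟩, h5⟩ := hz (m, true) h3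
        have h4' : m.1.length = j := h4
        have h5' : m.1.length = k := h5
        omega
      have key : ∀ m ∈ {m : S.T | S.lab m = S.lab l},
          eE (S.lab l) (fun m : S.T => z (m, false)) m = 0 := by
        intro m hm
        have hm' : S.lab m = S.lab l := hm
        have h3 := h2 (m, true) ⟨Set.mem_univ _, hlen m hm'⟩
        have h4 : ∑ᶠ p, ((toCell S.cx).inc p (m, true) : ℝ) * z p =
            pr (fun p => z p) (S.bB (m, true)) := (pr_finsum _ _).symm
        rw [h4] at h3
        have h5 : pr (fun p => z p) (S.bB (m, true)) =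
            pr (fun m : S.T => z (m, false)) (S.tS m.1) -
              pr (fun m : S.T => z (m, true)) (S.bZ m.1) := by
          rw [← pr_io, ← pr_io]
          show pr _ (S.io false (S.tS m.1) - S.io true (S.bZ m.1)) = _
          unfold pr
          rw [map_sub]
        have h6 : pr (fun m : S.T => z (m, true)) (S.bZ m.1) = 0 := by
          rw [pr_sum]
          refine Finset.sum_eq_zero fun c _ => ?_
          rw [hzt, mul_zero]
        rw [h5, h6, sub_zero, tS_eq, pr_pg, hm'] at h3
        have h7 : pr (eE (S.lab l) fun m : S.T => z (m, false)) (Finsupp.single m 1) =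
            eE (S.lab l) (fun m : S.T => z (m, false)) m := by
          unfold pr
          exact lin_single _ _
        rwa [h7] at h3
      have h3 := eE_inj S.T_free hg (O := {m : S.T | S.lab m = S.lab l})
        (fun g hg c hc => (S.lab_smul_iff (Or.inl hg)).2 hc)
        ((c0_of_l2 z).comp (ι := fun m : S.T => ((m, false) : S.T × Bool))
          (fun _ _ h => congrArg Prod.fst h)) key l rfl
      exact hne h3
    · have hk : l.1.length = k := hdim
      have hzf : ∀ m : S.T, z (m, false) = 0 := by
        intro m
        by_contra h3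
        obtain ⟨⟨-, h4⟩, h5⟩ := hz (m, false) h3
        have h4' : m.1.length = j := h4
        have h5' : m.1.length - 1 = k := h5
        omega
      have key : ∀ m ∈ {m : S.T | S.lab m = S.lab l},
          fE (S.lab l) (fun m : S.T => z (m, true)) m = 0 := by
        intro m hm
        have hm' : S.lab m = S.lab l := hm
        have h3 := h1 (m, false) ⟨Set.mem_univ _, hlen m hm'⟩
        rw [finsum_range (fun l : S.T => ((l, true) : S.T × Bool))
          (fun _ _ h => congrArg Prod.fst h)] at h3
        · have h4 : ∀ l' : S.T, ((toCell S.cx).inc (m, false) (l', true) : ℝ) * z (l', true) =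
              (S.pg (S.lab m) (Finsupp.single l' 1) m : ℝ) * z (l', true) := by
            intro l'
            congr 2
            rw [← tS_coeff]
            show (S.io false (S.tS l'.1) - S.io true (S.bZ l'.1)) ((m, false) : S.T × Bool) = _
            rw [Finsupp.sub_apply, io_apply, S.io_apply_ne (by decide), sub_zero]
          rw [finsum_congr h4, S.pg_finsum (S.lab m) (fun l' : S.T => z (l', true)), hm'] at h3
          exact h3
        · rintro ⟨c, b⟩ hc
          cases b
          · rw [hzf, mul_zero]
          · exact absurd ⟨c, rfl⟩ hc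
      have h3 := fE_inj S.T_free hg (O := {m : S.T | S.lab m = S.lab l})
        (fun g hg c hc => (S.lab_smul_iff (Or.inr (by rw [inv_inv]; exact hg))).2 hc)
        ((c0_of_l2 z).comp (ι := fun m : S.T => ((m, true) : S.T × Bool))
          (fun _ _ h => congrArg Prod.fst h)) key l rfl
      exact hne h3

end LS

end ThickThin
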