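import Mathlib
import Pool.Agent.Lib_MP_9dbe3a.AFac
import Pool.Agent.Lib_MP_9dbe3a.ADom
import Pool.Agent.Lib_MP_9dbe3a.ASim
import Pool.Agent.Lib_MP_9dbe3a.ANhMain
import Pool.Agent.Lib_MP_394d50_cub.AMain

/-!
# Thick-thin: the theorem on `ℓ²`-Betti numbers
-/

namespace ThickThin

open MeasureTheory SingerVS SingerRN SingerCub
open scoped Pointwise

section

variable {Γ Y : Type} [Group Γ] [MetricSpace Y] [MulAction Γ Y] [MeasurableSpace Y] [BorelSpace Y]
  {μ : Measure Y} {a : ℝ}

/-- If every compact set can be homotoped to leave every compact set then a free cofinite acyclic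
complex has no harmonic square summable chains. -/
theorem nh_of_leave (h : FinVol Γ Y μ) (hY : BNC a Y) [Nonempty Y] {C : Type} [MulAction Γ C]
    {X : Cx ℤ C} (hX : IsCx Γ X) (hA : Acy X) (hfin : Finite (Orb Γ C))
    (hall : ∀ K : Set (Quo Γ Y), IsCompact K → CanLeave K) (k : ℕ) :
    NH (toCell X) Set.univ k := by
  obtain ⟨S, J, hJ, hsmall, hfinS, φ, hφ⟩ := exists_LS h hY one_pos hX hfin hall
  have hS := S.nh (fun l hl x hx n hn => h.pow_ne_one hY (hsmall l hl x hx).1 hn) hfinS hJ k
  obtain ⟨r, hr⟩ := exists_map S.isCx hX hA (k + 1)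
  obtain ⟨H, hH1, hH2, hH3⟩ := exists_homotopy hX hX hA (isMap_id (k + 1)) ((hφ (k + 1)).comp hr)
    (k + 1) le_rfl
  exact nh_dom hX S.isCx hfin hfinS le_rfl (hφ (k + 1)) hr hH1 hH2 hH3 hS

theorem l2_main (h : FinVol Γ Y μ) (hY : BNC a Y) [Nonempty Y] {P : Type} [LinearOrder P]
    [MulAction Γ P] {X : Set (Finset P)} (hX : FreeCx Γ X) (hA : AcyX X)
    (hb : (∃ k, bettiX Γ X k ≠ 0) ∨ chiX Γ X ≠ 0) :
    ∃ K : Set (Quo Γ Y), IsCompact K ∧ ¬ CanLeave K := by
  classical
  by_contra hno
  have hall : ∀ K : Set (Quo Γ Y), IsCompact K → CanLeave K := by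
    intro K hK
    by_contra h1
    exact hno ⟨K, hK, h1⟩
  obtain ⟨I, s, hs, hs1, hSI, hdim, hinc, hFI⟩ := exists_inv' hX
  letI iA : MulAction Γ (SX X) := sxAct (K := Γ) hX.inv
  have hsm : ∀ (g : Γ) (c : SX X), (g • c).1 = g • c.1 := fun _ _ => rfl
  have hI : ∀ k, NH I Set.univ k := by
    intro k
    have h1 := nh_of_leave h hY (sCx_isCx hX hsm hSI hFI) (sCx_acy hX hsm hA hSI hFI hs hs1 hinc)
      hFI.cofin hall k
    rwa [toCell_sCx] at h1
  -- back to the orientations given by the order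
  have hback : ∀ k, NH (simpCx X (fun x y : P => x < y)) Set.univ k := by
    intro k
    have h2 := (nh_map (I := I) (I' := simpCx X (fun x y : P => x < y)) (S := Set.univ)
      (fun c => c) (fun a _ b _ e => e) s hs 1 (Or.inl rfl) (fun p _ q _ => by
        rw [hinc, one_mul]
        have h1 : ∀ c, s c * s c = 1 := fun c => by
          rcases hs c with h | h <;> rw [h] <;> norm_num
        calc (simpCx X (fun x y : P => x < y)).inc p q
            = (s p * s p) * (s q * s q) * (simpCx X (fun x y : P => x < y)).inc p q := by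
              rw [h1, h1, one_mul, one_mul]
          _ = _ := by ring) 0 0 (fun p _ => by rw [hdim]) k).mp (hI k)
    rw [Set.image_id'] at h2
    exact h2
  have hzero : ∀ k, bettiX Γ X k = 0 := fun k => betti_of_nh hX k (hback k)
  rcases hb with ⟨k, hk⟩ | hchi
  · exact hk (hzero k)
  apply hchi
  -- the Euler characteristic
  have hXT : FreeCx (⊤ : Subgroup Γ) X := hX.of_finiteIndex ⊤ inferInstance
  obtain ⟨I2, s2, hs2, _, hdim2, hinc2, hFI2⟩ := exists_inv hXT
  have hr0 : ∀ σ ∈ X, TotOn (fun x y : P => x < y) σ := fun σ _ => SingerCub.totOn_lt σ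
  have hloc := locDim_smul_simp (H := Γ) hX.inv hsm hr0
  have hfree : ∀ (g : Γ) (c : {σ : Finset P // σ ∈ X}), g • c = c → g = 1 :=
    fun g c h => hX.free g c.1 c.2 (congrArg Subtype.val h)
  have hfin : Finite (Orb Γ {σ : Finset P // σ ∈ X}) := hFI.cofin
  have key := betti_final (Γ := Γ) (I := simpCx X (fun x y : P => x < y)) (I' := I2) ⊤
    hfree hfin (fun g c => by
      show (g • c.1).card - 1 = c.1.card - 1
      rw [Finset.card_smul_finset]) hloc hdim2 (fun c =>
      locDim_twist (simpCx X (fun x y : P => x < y)) I2 (Equiv.refl _) s2 hs2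
        (fun p q => hinc2 p q) c) hFI2 1 (fun c hc => by
      have h3 : c.1.card = (c.1.card - 1) + 1 := by
        have := Finset.card_pos.mpr (hX.ne _ c.2)
        omega
      exact locDim_of_nh hX (c.1.card - 1) (hback _) c h3)
  rw [chiX_eq hX]
  refine key.2.2.1.1 fun k => ?_
  rw [← bettiX_eq hX (fun g c => hloc g c) k]
  exact hzero k

end

end ThickThin
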